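import Pool.Agent.U26Z.DX.Long

/-!
# The density of the primes after `e ^ y` on average over short intervals of `y`
-/

set_option autoImplicit false

namespace Pool.Agent.H40E9.GP

open Finset Filter Topology MeasureTheory Pool.Agent.U26Z.DX
open Pool.Agent.H39x.LP (pc pcount)

/-- the density of the primes after `e ^ y` in the interval of length `e ^ (ε y)` -/
noncomputable def Fd (ε y : ℝ) : ℝ := density (Real.exp y) (Real.exp (ε * y))

/-- the number of the primes up to `e ^ y` -/
noncomputable def QQ (y : ℝ) : ℝ := pc 0 ⌊Real.exp y⌋₊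

theorem pc_mono {A B C : ℕ} (h : B ≤ C) : pc A B ≤ pc A C := by
  unfold pc
  have : ((Ioc A B).filter Nat.Prime).card ≤ ((Ioc A C).filter Nat.Prime).card := by
    apply card_le_card
    apply filter_subset_filter
    exact Ioc_subset_Ioc_right h
  exact_mod_cast this

theorem QQ_mono : Monotone QQ := by
  intro a b hab
  unfold QQ
  exact pc_mono (Nat.floor_le_floor (Real.exp_le_exp.2 hab))

theorem pc_split {A B : ℕ} (h : A ≤ B) : pc A B = pc 0 B - pc 0 A := by
  rw [pc_add (A := 0) (B := A) (C := B) (Nat.zero_le _) h]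
  ring

theorem primesIn_pc (x H : ℝ) : (primesIn x H : ℝ) = pc ⌊x⌋₊ ⌊x + H⌋₊ := rfl

theorem primesIn_le {s h k : ℝ} (hk : Real.exp s + h ≤ Real.exp (s + k)) (hk0 : 0 ≤ k) :
    (primesIn (Real.exp s) h : ℝ) ≤ QQ (s + k) - QQ s := by
  rw [primesIn_pc]
  unfold QQ
  rw [← pc_split (Nat.floor_le_floor (Real.exp_le_exp.2 (by linarith)))]
  exact pc_mono (Nat.floor_le_floor hk)

theorem le_primesIn {s h k : ℝ} (hk : Real.exp (s + k) ≤ Real.exp s + h) (hk0 : 0 ≤ k) :
    QQ (s + k) - QQ s ≤ (primesIn (Real.exp s) h : ℝ) := by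
  rw [primesIn_pc]
  unfold QQ
  rw [← pc_split (Nat.floor_le_floor (Real.exp_le_exp.2 (by linarith)))]
  exact pc_mono (Nat.floor_le_floor hk)

/-- the integral of the increments of a monotone function -/
theorem shift {Q : ℝ → ℝ} (hQ : Monotone Q) {a b k : ℝ} (_hab : a ≤ b) (hk : 0 ≤ k) :
    k * (Q b - Q (a + k)) ≤ ∫ s in a..b, (Q (s + k) - Q s) ∧ ∫ s in a..b, (Q (s + k) - Q s) ≤ k * (Q (b + k) - Q a) := by
  have hi : ∀ c d : ℝ, IntervalIntegrable Q volume c d := fun c d => hQ.intervalIntegrable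
  have hQk : Monotone fun s => Q (s + k) := fun x y hxy => hQ (by linarith)
  have e1 : ∫ s in a..b, (Q (s + k) - Q s) = (∫ s in b..(b + k), Q s) - ∫ s in a..(a + k), Q s := by
    rw [intervalIntegral.integral_sub hQk.intervalIntegrable (hi _ _), intervalIntegral.integral_comp_add_right (fun s => Q s) k]
    have h1 := intervalIntegral.integral_add_adjacent_intervals (hi a b) (hi b (b + k))
    have h2 := intervalIntegral.integral_add_adjacent_intervals (hi a (a + k)) (hi (a + k) (b + k))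
    linarith
  rw [e1]
  have c : ∀ c d q : ℝ, ∫ _ in c..d, q = (d - c) * q := fun c d q => by
    rw [intervalIntegral.integral_const, smul_eq_mul]
  have u1 : ∫ s in b..(b + k), Q s ≤ k * Q (b + k) := by
    have := intervalIntegral.integral_mono_on (by linarith : b ≤ b + k) (hi _ _) (_root_.intervalIntegrable_const (c := Q (b + k)))
      (fun x hx => hQ hx.2)
    rw [c] at this
    linarith
  have u2 : k * Q a ≤ ∫ s in a..(a + k), Q s := by
    have := intervalIntegral.integral_mono_on (by linarith : a ≤ a + k) (_root_.intervalIntegrable_const (c := Q a)) (hi _ _)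
      (fun x hx => hQ hx.1)
    rw [c] at this
    linarith
  have l1 : k * Q b ≤ ∫ s in b..(b + k), Q s := by
    have := intervalIntegral.integral_mono_on (by linarith : b ≤ b + k) (_root_.intervalIntegrable_const (c := Q b)) (hi _ _)
      (fun x hx => hQ hx.1)
    rw [c] at this
    linarith
  have l2 : ∫ s in a..(a + k), Q s ≤ k * Q (a + k) := by
    have := intervalIntegral.integral_mono_on (by linarith : a ≤ a + k) (hi _ _) (_root_.intervalIntegrable_const (c := Q (a + k)))
      (fun x hx => hQ hx.2)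
    rw [c] at this
    linarith
  constructor <;> nlinarith

/-- the number of the primes in short intervals in logarithmic scale -/
theorem cnt : ∃ C Y₀ : ℝ, 0 < C ∧ ∀ y l : ℝ, Y₀ ≤ y → Real.exp (-(0.4 * y)) ≤ l → l ≤ 1 / (2 * y) →
    |QQ (y + l) - QQ y - Real.exp y * l / y| ≤ C * (Real.exp y * l / y ^ 2) := by
  obtain ⟨C, X₀, hC, hpc⟩ := pcount
  obtain ⟨Y₁, hY₁⟩ := eventually_atTop.1 (Pool.Agent.Q278.KS.ev_poly 40 2 (show (0 : ℝ) < 0.01 by norm_num))
  obtain ⟨Y₂, hY₂⟩ := eventually_atTop.1 (Real.tendsto_exp_atTop.eventually_ge_atTop (X₀ + 1))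
  refine ⟨8 * C + 8, max (max Y₁ Y₂) 10, by positivity, fun y l hy hl1 hl2 => ?_⟩
  have hy1 := hY₁ y ((le_max_left _ _).trans ((le_max_left _ _).trans hy))
  have hy2 := hY₂ y ((le_max_right _ _).trans ((le_max_left _ _).trans hy))
  have hy3 : 10 ≤ y := (le_max_right _ _).trans hy
  have hy0 : 0 < y := by linarith
  obtain ⟨X, hX⟩ : ∃ X, X = Real.exp y := ⟨_, rfl⟩
  have hX0 : 0 < X := by rw [hX]; exact Real.exp_pos _
  have hpw : ∀ t : ℝ, X ^ t = Real.exp (t * y) := fun t => by rw [hX, ← Real.exp_mul, mul_comm]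
  have hl0 : 0 < l := (Real.exp_pos _).trans_le hl1
  have hl3 : l ≤ 1 / 20 := hl2.trans (one_div_le_one_div_of_le (by norm_num) (by linarith))
  rw [← hX] at hy2 ⊢
  -- size of X l
  have hXl : X ^ (0.6 : ℝ) ≤ X * l := by
    calc X ^ (0.6 : ℝ) = X * Real.exp (-(0.4 * y)) := by
          rw [hpw, hX, ← Real.exp_add]
          congr 1
          ring
      _ ≤ X * l := by gcongr
  have hX59 : 40 * y ^ 2 * X ^ (0.59 : ℝ) ≤ X ^ (0.6 : ℝ) := by
    calc 40 * y ^ 2 * X ^ (0.59 : ℝ) ≤ Real.exp (0.01 * y) * X ^ (0.59 : ℝ) := by gcongr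
      _ = X ^ (0.6 : ℝ) := by rw [hpw, hpw, ← Real.exp_add]; congr 1; ring
  have hX1 : 1 ≤ X := by rw [hX]; exact Real.one_le_exp hy0.le
  have hX591 : 1 ≤ X ^ (0.59 : ℝ) := Real.one_le_rpow hX1 (by norm_num)
  have hXl2 : 40 * y ^ 2 ≤ X * l := by
    refine le_trans ?_ (hX59.trans hXl)
    have : 0 < 40 * y ^ 2 := by positivity
    nlinarith
  obtain ⟨A, hA⟩ : ∃ A, A = ⌊X⌋₊ := ⟨_, rfl⟩
  obtain ⟨B, hB⟩ : ∃ B, B = ⌊Real.exp (y + l)⌋₊ := ⟨_, rfl⟩
  have hA1 : (A : ℝ) ≤ X := by rw [hA]; exact Nat.floor_le hX0.le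
  have hA2 : X - 1 < A := by rw [hA]; linarith [Nat.lt_floor_add_one X]
  have hB1 : (B : ℝ) ≤ Real.exp (y + l) := by rw [hB]; exact Nat.floor_le (Real.exp_pos _).le
  have hB2 : Real.exp (y + l) - 1 < B := by rw [hB]; linarith [Nat.lt_floor_add_one (Real.exp (y + l))]
  have hAB : A ≤ B := by
    rw [hA, hB, hX]
    exact Nat.floor_le_floor (Real.exp_le_exp.2 (by linarith))
  have hexp : Real.exp (y + l) = X * Real.exp l := by rw [hX, Real.exp_add]
  have he1 : 1 + l ≤ Real.exp l := by linarith [Real.add_one_le_exp l]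
  have he2 : Real.exp l ≤ 1 + l + l ^ 2 := by
    have := Real.abs_exp_sub_one_sub_id_le (show |l| ≤ 1 by rw [abs_of_pos hl0]; linarith)
    have := (abs_le.1 this).2
    linarith
  rw [hexp] at hB1 hB2
  obtain ⟨D, hD⟩ : ∃ D, D = (B : ℝ) - A := ⟨_, rfl⟩
  have hD1 : X * l - 1 ≤ D := by rw [hD]; nlinarith
  have hD2 : D ≤ X * l * (1 + l) + 1 := by rw [hD]; nlinarith
  have hlogA1 : Real.log A ≤ y := by
    have := Real.log_le_log (by
      have : (0 : ℝ) < X - 1 := by nlinarith
      linarith) hA1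
    rwa [hX, Real.log_exp] at this
  have hX2y : 4 * y ≤ X := by nlinarith
  have hlogA2 : y - 1 / y ≤ Real.log A := by
    have e1 : Real.log (X * (1 - 1 / (2 * y))) ≤ Real.log A := by
      apply Real.log_le_log
      · apply mul_pos hX0
        have : 1 / (2 * y) ≤ 1 / 20 := one_div_le_one_div_of_le (by norm_num) (by linarith)
        linarith
      · have : X * (1 / (2 * y)) ≥ 1 := by
          rw [ge_iff_le, mul_one_div, le_div_iff₀ (by positivity)]
          linarith
        nlinarith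
    have e2 : 0 < 1 - 1 / (2 * y) := by
      have : 1 / (2 * y) ≤ 1 / 20 := one_div_le_one_div_of_le (by norm_num) (by linarith)
      linarith
    rw [Real.log_mul hX0.ne' e2.ne', hX, Real.log_exp] at e1
    have e3 : -(1 / y) ≤ Real.log (1 - 1 / (2 * y)) := by
      have := Real.one_sub_inv_le_log_of_pos e2
      have e4 : (1 - 1 / (2 * y))⁻¹ ≤ 1 + 1 / y := by
        rw [inv_le_comm₀ e2 (by positivity)]
        have : (1 + 1 / y)⁻¹ = y / (y + 1) := by field_simp
        rw [this, show 1 - 1 / (2 * y) = (2 * y - 1) / (2 * y) by field_simp, div_le_div_iff₀ (by positivity) (by positivity)]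
        nlinarith
      linarith
    linarith
  obtain ⟨q, hq⟩ : ∃ q, q = Real.log A := ⟨_, rfl⟩
  rw [← hq] at hlogA1 hlogA2
  have hy1' : 1 / y ≤ 1 / 10 := one_div_le_one_div_of_le (by norm_num) hy3
  have hq0 : 0 < q := by linarith
  have hA0 : (0 : ℝ) ≤ A := Nat.cast_nonneg _
  have hmain := hpc A B (by linarith) (by
    rw [← hD]
    have e1 : (A : ℝ) ^ (0.5834 : ℝ) ≤ X ^ (0.59 : ℝ) := by
      calc (A : ℝ) ^ (0.5834 : ℝ) ≤ X ^ (0.5834 : ℝ) := Real.rpow_le_rpow hA0 hA1 (by norm_num)
        _ ≤ X ^ (0.59 : ℝ) := Real.rpow_le_rpow_of_exponent_le hX1 (by norm_num)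
    have e2 : 40 * 1 * X ^ (0.59 : ℝ) ≤ X * l := by
      refine le_trans ?_ (hX59.trans hXl)
      gcongr
      nlinarith
    linarith) (by
    rw [← hD, ← hq, le_div_iff₀ hq0]
    have e1 : X * l * q ≤ X / 2 := by
      calc X * l * q ≤ X * (1 / (2 * y)) * y := by gcongr
        _ = X / 2 := by field_simp
    have e2 : D * q ≤ (X * l * (1 + l) + 1) * q := by gcongr
    have e3 : (X * l * (1 + l) + 1) * q = X * l * q * (1 + l) + q := by ring
    have e4 : X * l * q * (1 + l) ≤ X / 2 * (1 + 1 / 20) := by gcongr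
    nlinarith)
  rw [← hD, ← hq] at hmain
  have hQ : QQ (y + l) - QQ y = pc A B := by
    unfold QQ
    rw [← hX, ← hA, ← hB, pc_split hAB]
  rw [hQ]
  -- comparison of D / q with X l / y
  have hXlp : 0 < X * l := by positivity
  have hD3 : |D - X * l| ≤ X * l / y := by
    rw [abs_le]
    have e1 : 1 ≤ X * l / y := by
      rw [le_div_iff₀ hy0]
      nlinarith
    have e2 : X * l * l + 1 ≤ X * l / y := by
      have e3 : X * l * l ≤ X * l / (2 * y) := by
        calc X * l * l ≤ X * l * (1 / (2 * y)) := by gcongr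
          _ = _ := by ring
      have e4 : 1 ≤ X * l / (2 * y) := by
        rw [le_div_iff₀ (by positivity)]
        nlinarith
      have e5 : X * l / (2 * y) + X * l / (2 * y) = X * l / y := by field_simp; ring
      linarith
    constructor <;> nlinarith
  have hDp : 0 < D := by
    have : (0 : ℝ) < 40 * y ^ 2 - 1 := by nlinarith
    linarith
  have hD4 : D ≤ 2 * (X * l) := by
    have := (abs_le.1 hD3).2
    have e6 : X * l / y ≤ X * l := div_le_self hXlp.le (by linarith)
    linarith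
  have hqy : y / 2 ≤ q := by linarith
  have t1 : |D / q - D / y| ≤ 4 * (X * l) / y ^ 2 := by
    have e1 : D / q - D / y = D * (y - q) / (q * y) := by field_simp
    rw [e1, abs_of_nonneg (div_nonneg (mul_nonneg hDp.le (by linarith)) (by positivity)), div_le_div_iff₀ (by positivity) (by positivity)]
    have e2 : y - q ≤ 1 / y := by linarith
    calc D * (y - q) * y ^ 2 ≤ (2 * (X * l)) * (1 / y) * y ^ 2 := by
          have : 0 ≤ y - q := by linarith
          gcongr
      _ = 2 * (X * l) * y := by field_simp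
      _ ≤ 4 * (X * l) * (q * y) := by
          have : 1 ≤ q := by linarith
          have e3 : 2 * (X * l) * y ≤ 4 * (X * l) * y := by nlinarith [mul_pos hXlp hy0]
          have e4 : 4 * (X * l) * y * 1 ≤ 4 * (X * l) * y * q := by gcongr
          linarith
  have t2 : |D / y - X * l / y| ≤ X * l / y ^ 2 := by
    rw [← sub_div, abs_div, abs_of_pos hy0, div_le_iff₀ hy0]
    refine hD3.trans (le_of_eq ?_)
    field_simp
  have t3 : C * (D / q ^ 2) ≤ 8 * C * (X * l) / y ^ 2 := by
    have e1 : D / q ^ 2 ≤ 2 * (X * l) / (y / 2) ^ 2 := by gcongr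
    calc C * (D / q ^ 2) ≤ C * (2 * (X * l) / (y / 2) ^ 2) := by gcongr
      _ = _ := by field_simp; ring
  have e9 : pc A B - X * l / y = (pc A B - D / q) + (D / q - D / y) + (D / y - X * l / y) := by ring
  rw [e9]
  refine (abs_add_three _ _ _).trans ?_
  calc |pc A B - D / q| + |D / q - D / y| + |D / y - X * l / y|
      ≤ 8 * C * (X * l) / y ^ 2 + 4 * (X * l) / y ^ 2 + X * l / y ^ 2 := by
        have := hmain.trans t3
        linarith
    _ = (8 * C + 5) * (X * l / y ^ 2) := by ring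
    _ ≤ (8 * C + 8) * (X * l / y ^ 2) := by gcongr; norm_num

end Pool.Agent.H40E9.GP
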