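import Pool.Agent.U26Z.DX.Prime

/-!
# The asymptotic formula fails for almost all members of a covering family, in the sense of category, or never
-/

set_option autoImplicit false

namespace Pool.Agent.H40E9.GP

open Finset Filter Topology Pool.Agent.U26Z.DX

/-- the asymptotic formula fails by `δ` after `y` for some length `y ^ θ ≤ H ≤ y` -/
def BadPt (θ δ y : ℝ) : Prop := ∃ H : ℝ, y ^ θ ≤ H ∧ H ≤ y ∧ δ < |density y H - 1|

/-- the asymptotic formula holds along the sequence `x` for the lengths `x n ^ θ ≤ H ≤ x n` -/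
def Along (θ : ℝ) (x : ℕ → ℝ) : Prop :=
  ∀ δ : ℝ, 0 < δ → ∀ᶠ n : ℕ in atTop, ∀ H : ℝ, x n ^ θ ≤ H → H ≤ x n → |density (x n) H - 1| ≤ δ

/-- the asymptotic formula for all the lengths `x ^ θ ≤ H ≤ x` -/
def Pnt (θ : ℝ) : Prop :=
  ∀ δ : ℝ, 0 < δ → ∀ᶠ x : ℝ in atTop, ∀ H : ℝ, x ^ θ ≤ H → H ≤ x → |density x H - 1| ≤ δ

theorem floor_ev {x : ℝ} {u : ℝ → ℝ} (hu : Tendsto u (𝓝[≥] x) (𝓝 (u x))) (hx' : 0 ≤ u x)
    (hle : ∀ᶠ y in 𝓝[≥] x, u x ≤ u y) : ∀ᶠ y in 𝓝[≥] x, ⌊u y⌋₊ = ⌊u x⌋₊ := by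
  have h1 : ∀ᶠ y in 𝓝[≥] x, u y < ⌊u x⌋₊ + 1 := hu.eventually (gt_mem_nhds (Nat.lt_floor_add_one (u x)))
  filter_upwards [h1, hle] with y hy1 hy2
  rw [Nat.floor_eq_iff (hx'.trans hy2)]
  exact ⟨(Nat.floor_le hx').trans hy2, hy1⟩

theorem bad_right {θ δ x : ℝ} (hθ1 : θ ≤ 1) (hx : 1 ≤ x) (hbad : BadPt θ δ x) :
    ∀ᶠ y in 𝓝[≥] x, BadPt θ δ y := by
  obtain ⟨H, h1, h2, h3⟩ := hbad
  have hx0 : 0 < x := by linarith
  have hH0 : 0 < H := lt_of_lt_of_le (by positivity) h1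
  obtain ⟨h, hh⟩ : ∃ h : ℝ → ℝ, h = fun y => max H (y ^ θ) := ⟨_, rfl⟩
  have hhx : h x = H := by rw [hh]; exact max_eq_left h1
  have hcont : ContinuousAt h x := by
    rw [hh]
    exact continuousAt_const.max (Real.continuousAt_rpow_const x θ (Or.inl hx0.ne'))
  have hge : ∀ᶠ y in 𝓝[≥] x, x ≤ y := eventually_mem_nhdsWithin
  have hf1 : ∀ᶠ y in 𝓝[≥] x, ⌊y⌋₊ = ⌊x⌋₊ :=
    floor_ev (u := fun y => y) (tendsto_nhdsWithin_of_tendsto_nhds tendsto_id) hx0.le hge
  have hf2 : ∀ᶠ y in 𝓝[≥] x, ⌊y + h y⌋₊ = ⌊x + H⌋₊ := by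
    have := floor_ev (x := x) (u := fun y => y + h y)
      (tendsto_nhdsWithin_of_tendsto_nhds (continuousAt_id.add hcont)) (by rw [hhx]; linarith) (by
        filter_upwards [hge] with y hy
        rw [hhx]
        have : H ≤ h y := by rw [hh]; exact le_max_left _ _
        linarith)
    rwa [hhx] at this
  have hd : Tendsto (fun y => (primesIn x H : ℝ) * Real.log y / h y) (𝓝[≥] x) (𝓝 (density x H)) := by
    apply tendsto_nhdsWithin_of_tendsto_nhds
    have : ContinuousAt (fun y => (primesIn x H : ℝ) * Real.log y / h y) x :=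
      (continuousAt_const.mul (Real.continuousAt_log hx0.ne')).div hcont (by rw [hhx]; exact hH0.ne')
    have e : (primesIn x H : ℝ) * Real.log x / h x = density x H := by rw [hhx]; rfl
    rw [← e]
    exact this
  have hd2 : ∀ᶠ y in 𝓝[≥] x, δ < |(primesIn x H : ℝ) * Real.log y / h y - 1| :=
    ((hd.sub_const 1).abs).eventually (lt_mem_nhds h3)
  filter_upwards [hge, hf1, hf2, hd2] with y hy g1 g2 g3
  refine ⟨h y, ?_, ?_, ?_⟩
  · rw [hh]; exact le_max_right _ _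
  · rw [hh]
    refine max_le (h2.trans hy) ?_
    calc y ^ θ ≤ y ^ (1 : ℝ) := Real.rpow_le_rpow_of_exponent_le (by linarith) hθ1
      _ = y := Real.rpow_one y
  · have : primesIn y (h y) = primesIn x H := by
      unfold primesIn
      rw [g1, g2]
    unfold density
    rw [this]
    exact g3

/-- the images of every interval of parameters under the late members of the family cover a neighbourhood of infinity -/
def Covers (a : ℝ) (f : ℕ → ℝ → ℝ) : Prop :=
  ∀ c d : ℝ, a < c → c < d → ∀ N : ℕ, ∃ X₀ : ℝ, ∀ x : ℝ, X₀ ≤ x → ∃ k : ℕ, N ≤ k ∧ ∃ t : ℝ, c < t ∧ t < d ∧ f k t = x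

/-- the asymptotic formula holds for all the numbers if and only if the parameters for which it fails along the sequence
form a meagre set -/
theorem pnt_iff {θ : ℝ} (hθ1 : θ ≤ 1) {a : ℝ} {f : ℕ → ℝ → ℝ} (hcov : Covers a f)
    (hcont : ∀ k, ContinuousOn (f k) (Set.Ioi a)) (htend : ∀ t, a < t → Tendsto (fun k => f k t) atTop atTop) :
    Pnt θ ↔ IsMeagre {t : ℝ | a < t ∧ ¬ Along θ (fun k => f k t)} := by
  constructor
  · intro h
    have : {t : ℝ | a < t ∧ ¬ Along θ (fun k => f k t)} = ∅ := by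
      rw [Set.eq_empty_iff_forall_notMem]
      rintro t ⟨ht, hb⟩
      apply hb
      intro δ hδ
      exact (htend t ht).eventually (h δ hδ)
    rw [this]
    exact IsMeagre.empty
  · intro hm
    by_contra hcon
    unfold Pnt at hcon
    push Not at hcon
    obtain ⟨δ, hδ, hfr⟩ := hcon
    have hfr' : ∃ᶠ x : ℝ in atTop, BadPt θ δ x := hfr
    obtain ⟨O, hO⟩ : ∃ O : Set ℝ, O = interior {x : ℝ | BadPt θ δ x} := ⟨_, rfl⟩
    obtain ⟨U, hU⟩ : ∃ U : ℕ → Set ℝ, U = fun N => {t : ℝ | a < t ∧ ∃ k : ℕ, N ≤ k ∧ f k t ∈ O} := ⟨_, rfl⟩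
    have hres : ∀ N : ℕ, (U N ∪ Set.Iio a) ∈ residual ℝ := by
      intro N
      apply residual_of_dense_open
      · apply IsOpen.union _ isOpen_Iio
        have : U N = ⋃ k ∈ {k : ℕ | N ≤ k}, (Set.Ioi a ∩ (f k) ⁻¹' O) := by
          rw [hU]
          ext t
          simp only [Set.mem_ofPred_eq, Set.mem_inter_iff, Set.mem_Ioi, Set.mem_iUnion, Set.mem_preimage, exists_prop]
          constructor
          · rintro ⟨h1, k, h2, h3⟩
            exact ⟨k, h2, h1, h3⟩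
          · rintro ⟨k, h2, h1, h3⟩
            exact ⟨h1, k, h2, h3⟩
        rw [this]
        exact isOpen_biUnion fun k _ => (hcont k).isOpen_inter_preimage isOpen_Ioi (by rw [hO]; exact isOpen_interior)
      · rw [dense_iff_exists_between]
        intro a₁ d had
        rcases lt_or_ge a₁ a with h1 | h1
        · obtain ⟨z, hz1, hz2⟩ := exists_between (show a₁ < min d a from lt_min had h1)
          exact ⟨z, Or.inr (hz2.trans_le (min_le_right _ _)), hz1, hz2.trans_le (min_le_left _ _)⟩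
        obtain ⟨c, hc1, hc2⟩ := exists_between had
        obtain ⟨X₀, hX₀⟩ := hcov c d (by linarith) hc2 N
        obtain ⟨x, hx1, hx2⟩ := (hfr'.and_eventually (eventually_ge_atTop (max X₀ 1))).exists
        have hopen := bad_right hθ1 ((le_max_right _ _).trans hx2) hx1
        rw [Filter.Eventually, mem_nhdsGE_iff_exists_Ico_subset] at hopen
        obtain ⟨u, hu1, hu2⟩ := hopen
        rw [Set.mem_Ioi] at hu1
        obtain ⟨y, hy1, hy2⟩ := exists_between hu1
        have hyint : y ∈ O := by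
          rw [hO, mem_interior]
          exact ⟨Set.Ioo x u, fun z hz => hu2 ⟨hz.1.le, hz.2⟩, isOpen_Ioo, ⟨hy1, hy2⟩⟩
        obtain ⟨k, hk, t, ht1, ht2, ht3⟩ := hX₀ y ((le_max_left _ _).trans (hx2.trans hy1.le))
        refine ⟨t, Or.inl ?_, by linarith, ht2⟩
        rw [hU]
        exact ⟨by linarith, k, hk, by rw [ht3]; exact hyint⟩
    have hall : (⋂ N : ℕ, (U N ∪ Set.Iio a)) ∈ residual ℝ := countable_iInter_mem.2 hres
    have hm' : {t : ℝ | a < t ∧ ¬ Along θ (fun k => f k t)}ᶜ ∈ residual ℝ := hm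
    have hd := dense_of_mem_residual (Filter.inter_mem hall hm')
    obtain ⟨t, ht, ⟨ht1, ht2⟩⟩ := hd.inter_open_nonempty (Set.Ioi a) isOpen_Ioi ⟨a + 1, by rw [Set.mem_Ioi]; linarith⟩
    apply ht2
    refine ⟨ht, fun hal => ?_⟩
    obtain ⟨n₀, hn₀⟩ := eventually_atTop.1 (hal δ hδ)
    rw [Set.mem_iInter] at ht1
    rcases ht1 n₀ with h | h
    · rw [hU] at h
      obtain ⟨-, n, hn, hint⟩ := h
      rw [hO] at hint
      obtain ⟨H, g1, g2, g3⟩ := interior_subset hint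
      have := hn₀ n hn H g1 g2
      linarith
    · rw [Set.mem_Iio] at h
      rw [Set.mem_Ioi] at ht
      linarith

/-- the powers `t ^ n` -/
theorem covers_pow : Covers 1 (fun n t => t ^ n) := by
  intro c d hc hcd N
  have hc0 : 0 < c := by linarith
  have hd0 : 0 < d := by linarith
  obtain ⟨M, hM⟩ := pow_unbounded_of_one_lt c (show 1 < d / c by rw [lt_div_iff₀ hc0]; linarith)
  have hdc : ∀ n : ℕ, M ≤ n → c ^ (n + 1) ≤ d ^ n := by
    intro n hn
    have e1 : c ≤ (d / c) ^ n := hM.le.trans (pow_le_pow_right₀ (by rw [le_div_iff₀ hc0]; linarith) hn)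
    rw [div_pow, le_div_iff₀ (by positivity)] at e1
    rw [pow_succ]
    linarith
  obtain ⟨N', hN'⟩ : ∃ N', N' = max (max N M) 1 := ⟨_, rfl⟩
  refine ⟨d ^ N' + 1, fun x hx => ?_⟩
  have hd1 : (1 : ℝ) ≤ d ^ N' := one_le_pow₀ (by linarith)
  obtain ⟨n, hn1, hn2⟩ : ∃ n : ℕ, c ^ n < x ∧ x ≤ c ^ (n + 1) := by
    classical
    have hex : ∃ m : ℕ, x ≤ c ^ m := by
      obtain ⟨m, hm⟩ := pow_unbounded_of_one_lt x hc
      exact ⟨m, hm.le⟩
    obtain ⟨m, hm⟩ : ∃ m, m = Nat.find hex := ⟨_, rfl⟩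
    have h1 : x ≤ c ^ m := by rw [hm]; exact Nat.find_spec hex
    have h2 : m ≠ 0 := by
      rintro rfl
      rw [pow_zero] at h1
      linarith
    obtain ⟨n, rfl⟩ : ∃ n, m = n + 1 := ⟨m - 1, by omega⟩
    refine ⟨n, ?_, h1⟩
    by_contra hcon
    push Not at hcon
    have := Nat.find_min' hex hcon
    omega
  have hnN : N' ≤ n := by
    by_contra hcon
    push Not at hcon
    have e1 : c ^ (n + 1) ≤ c ^ N' := pow_le_pow_right₀ hc.le hcon
    have e2 : c ^ N' ≤ d ^ N' := pow_le_pow_left₀ hc0.le hcd.le _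
    linarith
  have hM' : M ≤ n := by
    have : M ≤ N' := by rw [hN']; exact (le_max_right _ _).trans (le_max_left _ _)
    omega
  have hn0 : n ≠ 0 := by
    have : 1 ≤ N' := by rw [hN']; exact le_max_right _ _
    omega
  have hy0 : 0 ≤ x := by linarith
  obtain ⟨z, hz⟩ : ∃ z : ℝ, z = x ^ ((n : ℝ)⁻¹) := ⟨_, rfl⟩
  have hz0 : 0 ≤ z := by rw [hz]; positivity
  have hzn : z ^ n = x := by rw [hz]; exact Real.rpow_inv_natCast_pow hy0 hn0
  have hcz : c < z := lt_of_pow_lt_pow_left₀ n hz0 (by rw [hzn]; exact hn1)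
  have hNn : N ≤ n := by
    have : N ≤ N' := by rw [hN']; exact (le_max_left _ _).trans (le_max_left _ _)
    omega
  -- strict inequality on the right: use an intermediate bound
  have hstrict : c ^ (n + 1) < d ^ n := by
    have e0 : c < (d / c) ^ M := hM
    have e1 : c < (d / c) ^ n := e0.trans_le (pow_le_pow_right₀ (by rw [le_div_iff₀ hc0]; linarith) hM')
    rw [div_pow, lt_div_iff₀ (by positivity)] at e1
    rw [pow_succ]
    linarith
  have hzd : z < d := lt_of_pow_lt_pow_left₀ n hd0.le (by rw [hzn]; exact hn2.trans_lt hstrict)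
  exact ⟨n, hNn, z, hcz, hzd, hzn⟩

/-- the powers `n ^ t` -/
theorem covers_exp : Covers 1 (fun n t => (n : ℝ) ^ t) := by
  intro c d hc hcd N
  have hc0 : 0 < c := by linarith
  have hd0 : 0 < d := by linarith
  have h1 : ∀ᶠ x : ℝ in atTop, x ^ (1 / d) + 1 < x ^ (1 / c) := by
    have hlt : 1 / d < 1 / c := one_div_lt_one_div_of_lt hc0 hcd
    have e1 : Tendsto (fun x : ℝ => x ^ (1 / c - 1 / d)) atTop atTop := tendsto_rpow_atTop (by linarith)
    filter_upwards [e1.eventually_gt_atTop 2, eventually_ge_atTop 1] with x g1 g2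
    have hx0 : 0 < x := by linarith
    have e2 : x ^ (1 / c) = x ^ (1 / c - 1 / d) * x ^ (1 / d) := by
      rw [← Real.rpow_add hx0]
      congr 1
      ring
    have e3 : 1 ≤ x ^ (1 / d) := Real.one_le_rpow g2 (by positivity)
    rw [e2]
    nlinarith
  have h2 : ∀ᶠ x : ℝ in atTop, (N : ℝ) + 2 ≤ x ^ (1 / d) := (tendsto_rpow_atTop (by positivity)).eventually_ge_atTop _
  obtain ⟨X₀, hX₀⟩ := eventually_atTop.1 (h1.and (h2.and (eventually_gt_atTop 1)))
  refine ⟨X₀, fun x hx => ?_⟩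
  obtain ⟨g1, g2, g3⟩ := hX₀ x hx
  have hx0 : 0 < x := by linarith
  obtain ⟨k, hk⟩ : ∃ k : ℕ, k = ⌊x ^ (1 / d)⌋₊ + 1 := ⟨_, rfl⟩
  have hk1 : x ^ (1 / d) < k := by rw [hk]; push_cast; exact Nat.lt_floor_add_one _
  have hk2 : (k : ℝ) ≤ x ^ (1 / d) + 1 := by
    rw [hk]; push_cast
    linarith [Nat.floor_le (show 0 ≤ x ^ (1 / d) by positivity)]
  have hN0 : (0 : ℝ) ≤ N := Nat.cast_nonneg N
  have hk0 : (2 : ℝ) < k := by linarith
  have hlk : 0 < Real.log k := Real.log_pos (by linarith)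
  have hlx : 0 < Real.log x := Real.log_pos g3
  refine ⟨k, ?_, Real.log x / Real.log k, ?_, ?_, ?_⟩
  · have : (N : ℝ) ≤ k := by linarith
    exact_mod_cast this
  · rw [lt_div_iff₀ hlk]
    have : Real.log k < Real.log (x ^ (1 / c)) := Real.log_lt_log (by linarith) (by linarith)
    rw [Real.log_rpow hx0, one_div, inv_mul_eq_div, lt_div_iff₀ hc0] at this
    linarith
  · rw [div_lt_iff₀ hlk]
    have : Real.log (x ^ (1 / d)) < Real.log k := Real.log_lt_log (by positivity) hk1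
    rw [Real.log_rpow hx0, one_div, inv_mul_eq_div, div_lt_iff₀ hd0] at this
    linarith
  · show (k : ℝ) ^ (Real.log x / Real.log k) = x
    rw [Real.rpow_def_of_pos (by linarith), mul_div_cancel₀ _ hlk.ne', Real.exp_log hx0]

theorem pnt_iff_pow {θ : ℝ} (hθ1 : θ ≤ 1) : Pnt θ ↔ IsMeagre {t : ℝ | 1 < t ∧ ¬ Along θ (fun n => t ^ n)} :=
  pnt_iff hθ1 covers_pow (fun k => (continuous_pow k).continuousOn) (fun _ ht => tendsto_pow_atTop_atTop_of_one_lt ht)

theorem pnt_iff_exp {θ : ℝ} (hθ1 : θ ≤ 1) : Pnt θ ↔ IsMeagre {t : ℝ | 1 < t ∧ ¬ Along θ (fun n => (n : ℝ) ^ t)} := by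
  refine pnt_iff hθ1 covers_exp (fun k => ?_) (fun t ht => ?_)
  · intro t ht
    rw [Set.mem_Ioi] at ht
    apply ContinuousAt.continuousWithinAt
    exact (Real.continuousAt_const_rpow' (by linarith : t ≠ 0))
  · exact (tendsto_rpow_atTop (by linarith)).comp tendsto_natCast_atTop_atTop

end Pool.Agent.H40E9.GP
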