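import Mathlib

/-!
# Almost everywhere bounds from second moments over all blocks (Rademacher, Menshov, Gal, Koksma)
-/

set_option autoImplicit false

namespace Pool.Agent.H40E9.GP

open Finset Filter Topology MeasureTheory
open scoped ENNReal NNReal

/-- the sum of the squares of the increments over all dyadic blocks in `[0, 2 ^ r]` -/
def Dy : ℕ → (ℕ → ℝ) → ℝ
  | 0, S => (S 1 - S 0) ^ 2
  | r + 1, S => ∑ i ∈ range (2 ^ (r + 1)), (S (i + 1) - S i) ^ 2 + Dy r (fun k => S (2 * k))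

theorem Dy_nn (r : ℕ) : ∀ S : ℕ → ℝ, 0 ≤ Dy r S := by
  induction r with
  | zero => intro S; unfold Dy; positivity
  | succ r ih =>
    intro S
    unfold Dy
    exact add_nonneg (sum_nonneg fun i _ => by positivity) (ih _)

/-- **Rademacher-Menshov.** -/
theorem menshov (r : ℕ) : ∀ S : ℕ → ℝ, ∀ n ≤ 2 ^ r, (S n - S 0) ^ 2 ≤ (r + 1) * Dy r S := by
  induction r with
  | zero =>
    intro S n hn
    rw [pow_zero] at hn
    interval_cases n
    · unfold Dy; simp; positivity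
    · unfold Dy; simp
  | succ r ih =>
    intro S n hn
    obtain ⟨L₀, hL₀⟩ : ∃ L₀, L₀ = ∑ i ∈ range (2 ^ (r + 1)), (S (i + 1) - S i) ^ 2 := ⟨_, rfl⟩
    obtain ⟨D', hD'⟩ : ∃ D', D' = Dy r (fun k => S (2 * k)) := ⟨_, rfl⟩
    have hL₀0 : 0 ≤ L₀ := by rw [hL₀]; exact sum_nonneg fun i _ => by positivity
    have hD'0 : 0 ≤ D' := by rw [hD']; exact Dy_nn _ _
    have hr : (0 : ℝ) < (r : ℝ) + 1 := by positivity
    have e0 : Dy (r + 1) S = L₀ + D' := by rw [hL₀, hD']; rfl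
    rw [e0]
    obtain ⟨m, hm⟩ : ∃ m, m = n / 2 := ⟨_, rfl⟩
    have hm2 : m ≤ 2 ^ r := by
      rw [hm]
      rw [pow_succ] at hn
      omega
    have h1 := ih (fun k => S (2 * k)) m hm2
    simp only [mul_zero] at h1
    rw [← hD'] at h1
    have h2 : (S n - S (2 * m)) ^ 2 ≤ L₀ := by
      rcases Nat.even_or_odd' n with ⟨k, hk | hk⟩
      · have : m = k := by omega
        rw [this, ← hk, sub_self]
        simpa using hL₀0
      · have hmk : m = k := by omega
        have hlt : 2 * m < 2 ^ (r + 1) := by omega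
        rw [hL₀]
        have := single_le_sum (f := fun i => (S (i + 1) - S i) ^ 2) (fun i _ => by positivity) (mem_range.2 hlt)
        have e1 : n = 2 * m + 1 := by omega
        rw [e1]
        exact this
    obtain ⟨a, ha⟩ : ∃ a, a = S (2 * m) - S 0 := ⟨_, rfl⟩
    obtain ⟨b, hb⟩ : ∃ b, b = S n - S (2 * m) := ⟨_, rfl⟩
    have e2 : S n - S 0 = a + b := by rw [ha, hb]; ring
    rw [← ha] at h1
    rw [← hb] at h2
    rw [e2]
    have h3 : 0 ≤ (a / (r + 1) - b) ^ 2 * (r + 1) := by positivity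
    have h4 : (a / (r + 1) - b) ^ 2 * (r + 1) = a ^ 2 / (r + 1) - 2 * a * b + (r + 1) * b ^ 2 := by
      field_simp
      ring
    have h5 : a ^ 2 / ((r : ℝ) + 1) ≤ D' := by
      rw [div_le_iff₀ hr]
      linarith
    push_cast
    nlinarith

/-- the expectation of `Dy` -/
theorem Dy_int {Ω : Type*} [MeasurableSpace Ω] {μ : Measure Ω} (r : ℕ) : ∀ (S : ℕ → Ω → ℝ) (K : ℝ), 0 ≤ K →
    (∀ n, Measurable (S n)) → (∀ m n : ℕ, m ≤ n → ∫⁻ x, ENNReal.ofReal ((S n x - S m x) ^ 2) ∂μ ≤ ENNReal.ofReal (K * (n - m))) →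
    ∫⁻ x, ENNReal.ofReal (Dy r (fun k => S k x)) ∂μ ≤ ENNReal.ofReal ((r + 1) * K * 2 ^ r) := by
  induction r with
  | zero =>
    intro S K hK hS h
    have := h 0 1 (by norm_num)
    simpa [Dy] using this
  | succ r ih =>
    intro S K hK hS h
    have h1 := ih (fun k x => S (2 * k) x) (2 * K) (by positivity) (fun n => hS _) (fun m n hmn => by
      have := h (2 * m) (2 * n) (by omega)
      refine this.trans (ENNReal.ofReal_le_ofReal (le_of_eq ?_))
      push_cast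
      ring)
    have e1 : ∀ x, ENNReal.ofReal (Dy (r + 1) (fun k => S k x)) =
        ∑ i ∈ range (2 ^ (r + 1)), ENNReal.ofReal ((S (i + 1) x - S i x) ^ 2) + ENNReal.ofReal (Dy r (fun k => S (2 * k) x)) := by
      intro x
      have : Dy (r + 1) (fun k => S k x) = ∑ i ∈ range (2 ^ (r + 1)), (S (i + 1) x - S i x) ^ 2 + Dy r (fun k => S (2 * k) x) := rfl
      rw [this, ENNReal.ofReal_add (sum_nonneg fun i _ => by positivity) (Dy_nn _ _),
        ENNReal.ofReal_sum_of_nonneg (fun i _ => by positivity)]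
    simp_rw [e1]
    have hm : ∀ i, Measurable fun x => ENNReal.ofReal ((S (i + 1) x - S i x) ^ 2) := fun i =>
      ENNReal.measurable_ofReal.comp (((hS _).sub (hS _)).pow_const 2)
    rw [lintegral_add_left (Finset.measurable_sum _ fun i _ => hm i), lintegral_finsetSum _ (fun i _ => hm i)]
    have h2 : ∑ i ∈ range (2 ^ (r + 1)), ∫⁻ x, ENNReal.ofReal ((S (i + 1) x - S i x) ^ 2) ∂μ ≤
        ENNReal.ofReal (2 ^ (r + 1) * K) := by
      calc ∑ i ∈ range (2 ^ (r + 1)), ∫⁻ x, ENNReal.ofReal ((S (i + 1) x - S i x) ^ 2) ∂μ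
          ≤ ∑ i ∈ range (2 ^ (r + 1)), ENNReal.ofReal K := by
            apply sum_le_sum
            intro i _
            have := h i (i + 1) (by omega)
            refine this.trans (ENNReal.ofReal_le_ofReal (le_of_eq ?_))
            push_cast
            ring
        _ = ENNReal.ofReal (2 ^ (r + 1) * K) := by
            rw [sum_const, card_range, ← ENNReal.ofReal_nsmul, nsmul_eq_mul]
            push_cast
            rfl
    calc _ ≤ ENNReal.ofReal (2 ^ (r + 1) * K) + ENNReal.ofReal ((r + 1) * (2 * K) * 2 ^ r) := add_le_add h2 h1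
      _ = ENNReal.ofReal (((r + 1 : ℕ) + 1) * K * 2 ^ (r + 1)) := by
          rw [← ENNReal.ofReal_add (by positivity) (by positivity)]
          congr 1
          push_cast
          ring

theorem ae_sum {Ω : Type*} [MeasurableSpace Ω] {μ : Measure Ω} {S : ℕ → Ω → ℝ} {K : ℝ} (hK : 0 ≤ K)
    (hS : ∀ n, Measurable (S n))
    (h : ∀ m n : ℕ, m ≤ n → ∫⁻ x, ENNReal.ofReal ((S n x - S m x) ^ 2) ∂μ ≤ ENNReal.ofReal (K * (n - m))) :
    ∀ᵐ x ∂μ, ∃ c : ℝ, 0 ≤ c ∧ ∀ r : ℕ, Dy r (fun k => S k x) ≤ c * (2 ^ r * ((r : ℝ) + 1) ^ 3) := by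
  have hDm : ∀ r : ℕ, ∀ S : ℕ → Ω → ℝ, (∀ n, Measurable (S n)) → Measurable fun x => Dy r (fun k => S k x) := by
    intro r
    induction r with
    | zero => intro S hS; exact ((hS 1).sub (hS 0)).pow_const 2
    | succ r ih =>
      intro S hS
      have : (fun x => Dy (r + 1) (fun k => S k x)) =
          fun x => ∑ i ∈ range (2 ^ (r + 1)), (S (i + 1) x - S i x) ^ 2 + Dy r (fun k => S (2 * k) x) := rfl
      rw [this]
      exact (Finset.measurable_sum _ fun i _ => ((hS _).sub (hS _)).pow_const 2).add (ih (fun k x => S (2 * k) x) fun n => hS _)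
  have hmeas : ∀ r : ℕ, Measurable fun x => ENNReal.ofReal (Dy r (fun k => S k x) / (2 ^ r * ((r : ℝ) + 1) ^ 3)) := fun r =>
    ENNReal.measurable_ofReal.comp ((hDm r S hS).div_const _)
  have hint : ∫⁻ x, ∑' r : ℕ, ENNReal.ofReal (Dy r (fun k => S k x) / (2 ^ r * ((r : ℝ) + 1) ^ 3)) ∂μ ≠ ∞ := by
    rw [lintegral_tsum (fun r => (hmeas r).aemeasurable)]
    have hb : ∀ r : ℕ, ∫⁻ x, ENNReal.ofReal (Dy r (fun k => S k x) / (2 ^ r * ((r : ℝ) + 1) ^ 3)) ∂μ ≤
        ENNReal.ofReal (K * (1 / ((r : ℝ) + 1) ^ 2)) := by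
      intro r
      have hr : 0 < (r : ℝ) + 1 := by positivity
      have e1 : ∀ x, ENNReal.ofReal (Dy r (fun k => S k x) / (2 ^ r * ((r : ℝ) + 1) ^ 3)) =
          ENNReal.ofReal (1 / (2 ^ r * ((r : ℝ) + 1) ^ 3)) * ENNReal.ofReal (Dy r (fun k => S k x)) := by
        intro x
        rw [← ENNReal.ofReal_mul (by positivity)]
        congr 1
        ring
      simp_rw [e1]
      have hm' : Measurable fun x => ENNReal.ofReal (Dy r (fun k => S k x)) := ENNReal.measurable_ofReal.comp (hDm r S hS)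
      rw [lintegral_const_mul _ hm']
      calc ENNReal.ofReal (1 / (2 ^ r * ((r : ℝ) + 1) ^ 3)) * ∫⁻ x, ENNReal.ofReal (Dy r (fun k => S k x)) ∂μ
          ≤ ENNReal.ofReal (1 / (2 ^ r * ((r : ℝ) + 1) ^ 3)) * ENNReal.ofReal ((r + 1) * K * 2 ^ r) := by
            gcongr
            exact Dy_int r S K hK hS h
        _ = ENNReal.ofReal (K * (1 / ((r : ℝ) + 1) ^ 2)) := by
            rw [← ENNReal.ofReal_mul (by positivity)]
            congr 1
            field_simp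
    have hsm : Summable fun r : ℕ => K * (1 / ((r : ℝ) + 1) ^ 2) := by
      apply Summable.mul_left
      have h1 := (summable_nat_add_iff 1).2 (Real.summable_one_div_nat_pow.2 (show 1 < 2 by norm_num))
      simpa using h1
    refine ne_top_of_le_ne_top ?_ (ENNReal.tsum_le_tsum hb)
    rw [← ENNReal.ofReal_tsum_of_nonneg (fun r => by positivity) hsm]
    exact ENNReal.ofReal_ne_top
  have hae := ae_lt_top' (AEMeasurable.ennreal_tsum fun r => (hmeas r).aemeasurable) hint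
  filter_upwards [hae] with x hx
  refine ⟨(∑' r : ℕ, ENNReal.ofReal (Dy r (fun k => S k x) / (2 ^ r * ((r : ℝ) + 1) ^ 3))).toReal, ENNReal.toReal_nonneg, fun r => ?_⟩
  have h1 : ENNReal.ofReal (Dy r (fun k => S k x) / (2 ^ r * ((r : ℝ) + 1) ^ 3)) ≤
      ∑' r : ℕ, ENNReal.ofReal (Dy r (fun k => S k x) / (2 ^ r * ((r : ℝ) + 1) ^ 3)) := ENNReal.le_tsum r
  have h2 := ENNReal.toReal_mono hx.ne h1
  rw [ENNReal.toReal_ofReal (div_nonneg (Dy_nn _ _) (by positivity)), div_le_iff₀ (by positivity)] at h2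
  exact h2

theorem ae_bound {Ω : Type*} [MeasurableSpace Ω] {μ : Measure Ω} {S : ℕ → Ω → ℝ} {K : ℝ} (hK : 0 ≤ K)
    (hS : ∀ n, Measurable (S n)) (h0 : ∀ x, S 0 x = 0)
    (h : ∀ m n : ℕ, m ≤ n → ∫⁻ x, ENNReal.ofReal ((S n x - S m x) ^ 2) ∂μ ≤ ENNReal.ofReal (K * (n - m))) :
    ∀ᵐ x ∂μ, ∃ c : ℝ, 0 ≤ c ∧ ∀ n : ℕ, |S n x| ≤ c * (√(n + 1) * Real.log (n + 2) ^ 2) := by
  filter_upwards [ae_sum hK hS h] with x hx
  obtain ⟨c, hc, hD⟩ := hx
  refine ⟨√(1250 * c), Real.sqrt_nonneg _, fun n => ?_⟩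
  obtain ⟨r, hr⟩ : ∃ r, r = Nat.log 2 (n + 1) + 1 := ⟨_, rfl⟩
  have h1 : 2 ^ r ≤ 2 * (n + 1) := by
    rw [hr, pow_succ]
    have := Nat.pow_log_le_self 2 (show n + 1 ≠ 0 by omega)
    omega
  have h2 : n + 1 < 2 ^ r := by
    rw [hr]
    exact Nat.lt_pow_succ_log_self (by norm_num) _
  have h3 := menshov r (fun k => S k x) n (by omega)
  rw [h0, sub_zero] at h3
  have hr2 : (r : ℝ) + 1 ≤ 5 * Real.log (n + 2) := by
    have g1 : ((2 : ℝ) ^ (r - 1)) ≤ n + 2 := by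
      have : 2 ^ (r - 1) ≤ n + 1 := by
        rw [hr, Nat.add_sub_cancel]
        exact Nat.pow_log_le_self 2 (by omega)
      have : ((2 ^ (r - 1) : ℕ) : ℝ) ≤ ((n + 1 : ℕ) : ℝ) := by exact_mod_cast this
      push_cast at this
      linarith
    have g2 := Real.log_le_log (by positivity) g1
    rw [Real.log_pow] at g2
    have g3 : ((r - 1 : ℕ) : ℝ) = (r : ℝ) - 1 := by
      rw [Nat.cast_sub (by omega)]
      simp
    rw [g3] at g2
    have g4 := Real.log_two_gt_d9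
    have g5 : Real.log 2 ≤ Real.log (n + 2) := Real.log_le_log (by norm_num) (by
      have : (0 : ℝ) ≤ n := Nat.cast_nonneg n
      linarith)
    have g6 : (1 : ℝ) ≤ r := by
      have : 1 ≤ r := by omega
      exact_mod_cast this
    nlinarith
  have h4 : (S n x) ^ 2 ≤ 1250 * c * ((n + 1) * Real.log (n + 2) ^ 4) := by
    have hr0 : (0 : ℝ) ≤ (r : ℝ) + 1 := by positivity
    have h5 : ((2 : ℝ) ^ r) ≤ 2 * (n + 1) := by exact_mod_cast h1
    calc (S n x) ^ 2 ≤ (r + 1) * Dy r (fun k => S k x) := h3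
      _ ≤ (r + 1) * (c * (2 ^ r * ((r : ℝ) + 1) ^ 3)) := by
          gcongr
          exact hD r
      _ = c * 2 ^ r * ((r : ℝ) + 1) ^ 4 := by ring
      _ ≤ c * (2 * (n + 1)) * (5 * Real.log (n + 2)) ^ 4 := by gcongr
      _ = _ := by ring
  have h6 : √(1250 * c) * (√(n + 1) * Real.log (n + 2) ^ 2) = √(1250 * c * ((n + 1) * Real.log (n + 2) ^ 4)) := by
    have hl : 0 ≤ Real.log ((n : ℝ) + 2) := Real.log_nonneg (by
      have : (0 : ℝ) ≤ n := Nat.cast_nonneg n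
      linarith)
    rw [Real.sqrt_mul (show 0 ≤ 1250 * c by positivity) ((n + 1) * Real.log (n + 2) ^ 4),
      Real.sqrt_mul (show (0 : ℝ) ≤ n + 1 by positivity)]
    congr 2
    rw [show Real.log ((n : ℝ) + 2) ^ 4 = (Real.log ((n : ℝ) + 2) ^ 2) ^ 2 by ring, Real.sqrt_sq (by positivity)]
  rw [h6]
  exact Real.abs_le_sqrt h4

/-- **Gal-Koksma for two nondecreasing sums.** -/
theorem gk2 {Ω : Type*} [MeasurableSpace Ω] {μ : Measure Ω} {A M : ℕ → Ω → ℝ} {W : ℕ → ℝ} {K C : ℝ}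
    (hA : ∀ N, Measurable (A N)) (hM : ∀ N, Measurable (M N)) (hA0 : ∀ x, A 0 x = 0) (hM0 : ∀ x, M 0 x = 0)
    (hmono : ∀ᵐ x ∂μ, ∀ N, A N x ≤ A (N + 1) x ∧ M N x ≤ M (N + 1) x ∧ M (N + 1) x ≤ M N x + (W (N + 1) - W N)) (hW0 : W 0 = 0)
    (hW1 : ∀ N, W N ≤ W (N + 1)) (hW2 : ∀ N, W (N + 1) ≤ W N + C) (hW3 : Tendsto W atTop atTop) (hK : 0 ≤ K) (hC : 0 ≤ C)
    (h2 : ∀ m n, m ≤ n → ∫⁻ x, ENNReal.ofReal ((A n x - A m x - (M n x - M m x)) ^ 2) ∂μ ≤ ENNReal.ofReal (K * (W n - W m))) :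
    ∀ᵐ x ∂μ, ∃ c : ℝ, ∀ᶠ N in atTop, |A N x - M N x| ≤ c * (√(W N) * Real.log (W N) ^ 2) := by
  have hWm : Monotone W := monotone_nat_of_le_succ hW1
  -- the times
  have hex : ∀ j : ℕ, ∃ N, (j : ℝ) ≤ W N := fun j => (hW3.eventually_ge_atTop _).exists
  classical
  obtain ⟨T, hT⟩ : ∃ T : ℕ → ℕ, T = fun j => Nat.find (hex j) := ⟨_, rfl⟩
  have hT1 : ∀ j : ℕ, (j : ℝ) ≤ W (T j) := fun j => by rw [hT]; exact Nat.find_spec (hex j)
  have hT2 : ∀ j N : ℕ, (j : ℝ) ≤ W N → T j ≤ N := fun j N h => by rw [hT]; exact Nat.find_min' (hex j) h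
  have hT3 : ∀ j : ℕ, W (T j) ≤ (j : ℝ) + C := by
    intro j
    rcases Nat.eq_zero_or_pos (T j) with h | h
    · rw [h, hW0]
      positivity
    · obtain ⟨m, hm⟩ : ∃ m, T j = m + 1 := ⟨T j - 1, by omega⟩
      have h3 : W m < (j : ℝ) := by
        by_contra hcon
        push Not at hcon
        have := hT2 j m hcon
        omega
      have := hW2 m
      rw [hm]
      linarith
  have hTm : ∀ i j : ℕ, i ≤ j → T i ≤ T j := by
    intro i j hij
    apply hT2
    refine le_trans ?_ (hT1 j)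
    exact_mod_cast hij
  have hT0 : T 0 = 0 := by
    have := hT2 0 0 (by rw [hW0]; simp)
    omega
  have hb := ae_bound (μ := μ) (S := fun j x => A (T j) x - M (T j) x) (K := K * (1 + C)) (by positivity)
    (fun j => (hA _).sub (hM _)) (fun x => by
      show A (T 0) x - M (T 0) x = 0
      rw [hT0, hA0, hM0, sub_zero]) (fun m n hmn => by
      have h3 := h2 (T m) (T n) (hTm m n hmn)
      have e1 : ∀ x, (A (T n) x - M (T n) x - (A (T m) x - M (T m) x)) = A (T n) x - A (T m) x - (M (T n) x - M (T m) x) := by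
        intro x; ring
      simp_rw [e1]
      refine h3.trans (ENNReal.ofReal_le_ofReal ?_)
      rcases Nat.eq_or_lt_of_le hmn with h4 | h4
      · rw [h4]
        simp
      · have h5 : (m : ℝ) + 1 ≤ n := by exact_mod_cast h4
        have h6 := hT3 n
        have h7 := hT1 m
        have h8 : W (T n) - W (T m) ≤ (1 + C) * (n - m) := by nlinarith
        calc K * (W (T n) - W (T m)) ≤ K * ((1 + C) * (n - m)) := by gcongr
          _ = _ := by ring)
  filter_upwards [hb, hmono] with x hx hAx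
  obtain ⟨c, hc, hx⟩ := hx
  refine ⟨8 * c + 1 + C, ?_⟩
  have hAm : Monotone fun N => A N x := monotone_nat_of_le_succ fun N => (hAx N).1
  have hMm : Monotone fun N => M N x := monotone_nat_of_le_succ fun N => (hAx N).2.1
  have hMW : ∀ m n : ℕ, m ≤ n → M n x - M m x ≤ W n - W m := by
    intro m n hmn
    induction n, hmn using Nat.le_induction with
    | base => simp
    | succ n hn ih =>
      have := (hAx n).2.2
      linarith
  filter_upwards [hW3.eventually_ge_atTop 3] with N hN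
  obtain ⟨V, hV⟩ : ∃ V, V = W N := ⟨_, rfl⟩
  rw [← hV] at hN ⊢
  obtain ⟨j, hj⟩ : ∃ j, j = ⌊V⌋₊ := ⟨_, rfl⟩
  have hj1 : (j : ℝ) ≤ V := by rw [hj]; exact Nat.floor_le (by linarith)
  have hj2 : V < j + 1 := by rw [hj]; exact Nat.lt_floor_add_one V
  have hN1 : T j ≤ N := hT2 j N (by rw [← hV]; exact hj1)
  have hN2 : N ≤ T (j + 1) := by
    by_contra hcon
    push Not at hcon
    have h3 := hWm hcon.le
    have h4 := hT1 (j + 1)
    push_cast at h4
    linarith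
  have a1 : A (T j) x ≤ A N x := hAm hN1
  have a2 : A N x ≤ A (T (j + 1)) x := hAm hN2
  have a3 : M (T j) x ≤ M N x := hMm hN1
  have a4 : M N x ≤ M (T (j + 1)) x := hMm hN2
  have a5 := hMW (T j) N hN1
  have a6 := hMW N (T (j + 1)) hN2
  have b1 := hx j
  have b2 := hx (j + 1)
  have hlog : 1 ≤ Real.log V := by
    rw [Real.le_log_iff_exp_le (by linarith)]
    have := Real.exp_one_lt_d9
    linarith
  have hsq : 1 ≤ √V := by rw [Real.one_le_sqrt]; linarith
  have hbig : ∀ i : ℕ, (i : ℝ) ≤ V + 1 → c * (√(i + 1) * Real.log (i + 2) ^ 2) ≤ 8 * c * (√V * Real.log V ^ 2) := by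
    intro i hi
    have g1 : √((i : ℝ) + 1) ≤ 2 * √V := by
      rw [show (2 : ℝ) * √V = √(4 * V) by
        rw [Real.sqrt_mul (by norm_num), show (4 : ℝ) = 2 ^ 2 by norm_num, Real.sqrt_sq (by norm_num)]]
      apply Real.sqrt_le_sqrt
      linarith
    have g2 : Real.log ((i : ℝ) + 2) ≤ 2 * Real.log V := by
      rw [show 2 * Real.log V = Real.log (V ^ 2) by rw [Real.log_pow]; norm_num]
      apply Real.log_le_log (by positivity)
      nlinarith
    have g3 : 0 ≤ Real.log ((i : ℝ) + 2) := Real.log_nonneg (by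
      have : (0 : ℝ) ≤ i := Nat.cast_nonneg i
      linarith)
    calc c * (√(i + 1) * Real.log (i + 2) ^ 2) ≤ c * ((2 * √V) * (2 * Real.log V) ^ 2) := by gcongr
      _ = _ := by ring
  have c1 := hbig j (by linarith)
  have c2 := hbig (j + 1) (by push_cast; linarith)
  have d1 := hT3 (j + 1)
  have d2 := hT1 j
  push_cast at d1
  have hone : 1 + C ≤ (1 + C) * (√V * Real.log V ^ 2) := by
    have : 1 ≤ √V * Real.log V ^ 2 := by nlinarith
    nlinarith
  have e1 : (8 * c + 1 + C) * (√V * Real.log V ^ 2) = 8 * c * (√V * Real.log V ^ 2) + (1 + C) * (√V * Real.log V ^ 2) := by ring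
  rw [e1]
  have f1 := (abs_le.1 (b1.trans c1)).1
  have f2 := (abs_le.1 (b2.trans c2)).2
  rw [abs_le]
  constructor
  · linarith
  · linarith

/-- **Gal-Koksma for nondecreasing sums.** -/
theorem gk {Ω : Type*} [MeasurableSpace Ω] {μ : Measure Ω} {A : ℕ → Ω → ℝ} {W : ℕ → ℝ} {K C : ℝ}
    (hA : ∀ N, Measurable (A N)) (hA0 : ∀ x, A 0 x = 0) (hmono : ∀ᵐ x ∂μ, ∀ N, A N x ≤ A (N + 1) x) (hW0 : W 0 = 0)
    (hW1 : ∀ N, W N ≤ W (N + 1)) (hW2 : ∀ N, W (N + 1) ≤ W N + C) (hW3 : Tendsto W atTop atTop) (hK : 0 ≤ K) (hC : 0 ≤ C)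
    (h2 : ∀ M N, M ≤ N → ∫⁻ x, ENNReal.ofReal ((A N x - A M x - (W N - W M)) ^ 2) ∂μ ≤ ENNReal.ofReal (K * (W N - W M))) :
    ∀ᵐ x ∂μ, ∃ c : ℝ, ∀ᶠ N in atTop, |A N x - W N| ≤ c * (√(W N) * Real.log (W N) ^ 2) := by
  refine gk2 (M := fun N _ => W N) hA (fun _ => measurable_const) hA0 (fun _ => hW0) ?_ hW0 hW1 hW2 hW3 hK hC h2
  filter_upwards [hmono] with x hx N
  exact ⟨hx N, hW1 N, by linarith⟩

end Pool.Agent.H40E9.GP
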