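import Pool.Agent.H40E9.GP.WFin2

/-!
# A positive proportion of the points of every short interval has a prime nearby
-/

set_option autoImplicit false

namespace Pool.Agent.H40E9.GP

open Finset Filter Topology MeasureTheory Pool.Agent.U26Z.DX
open scoped Classical
open Pool.Agent.H39x.LP (pc pcount)

/-- a point with a large density -/
theorem big_density {H : ℝ → ℝ} (hW : Win H) {lam : ℝ} (hlam : 0 < lam) (hlow : ∀ᶠ s in atTop, lam * s ≤ H s) :
    ∃ S₀ : ℝ, 10 ≤ S₀ ∧ ∀ s u : ℝ, S₀ ≤ s → 4 * u ≤ Fh H s →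
    ∃ H' : ℝ, lam * Real.log (⌊Real.exp s⌋₊ : ℕ) ≤ H' ∧ u ≤ Pool.Agent.U26Z.MX.density (⌊Real.exp s⌋₊ : ℕ) H' := by
  obtain ⟨Y₃, hY₃⟩ := eventually_atTop.1 hlow
  refine ⟨max 10 Y₃, le_max_left _ _, fun s u hs hu => ?_⟩
  have hs10 : 10 ≤ s := (le_max_left _ _).trans hs
  have hlow := hY₃ s ((le_max_right _ _).trans hs)
  have hs0 : 0 < s := by linarith
  obtain ⟨x, hx⟩ : ∃ x, x = Real.exp s := ⟨_, rfl⟩
  have hxb : 1000 ≤ x := by
    have e1 : Real.exp 10 ≤ x := by rw [hx]; exact Real.exp_le_exp.2 hs10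
    have e2 : (1000 : ℝ) ≤ Real.exp 10 := by
      have e3 : Real.exp 10 = (Real.exp 1) ^ 10 := by rw [← Real.exp_nat_mul]; norm_num
      have e4 : (2 : ℝ) ≤ Real.exp 1 := by
        have := Real.add_one_le_exp (1 : ℝ)
        linarith
      rw [e3]
      calc (1000 : ℝ) ≤ 2 ^ 10 := by norm_num
        _ ≤ _ := pow_le_pow_left₀ (by norm_num) e4 10
    linarith
  obtain ⟨n, hn⟩ : ∃ n, n = ⌊x⌋₊ := ⟨_, rfl⟩
  rw [← hx, ← hn]
  have hx0 : 0 < x := by linarith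
  have hn1 : (n : ℝ) ≤ x := by rw [hn]; exact Nat.floor_le hx0.le
  have hn2 : x < n + 1 := by rw [hn]; exact Nat.lt_floor_add_one x
  have hH1 := hW.one s hs0.le
  refine ⟨H s + 1, ?_, ?_⟩
  · have e1 : Real.log n ≤ s := by
      have : Real.log n ≤ Real.log x := Real.log_le_log (by linarith) hn1
      rwa [hx, Real.log_exp] at this
    have e2 : lam * Real.log n ≤ lam * s := by gcongr
    linarith
  · have e1 : s / 2 ≤ Real.log n := by
      have e2 : Real.log (x / 2) ≤ Real.log n := Real.log_le_log (by positivity) (by linarith)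
      rw [Real.log_div hx0.ne' (by norm_num), hx, Real.log_exp] at e2
      have := Real.log_two_lt_d9
      linarith
    have e3 : (primesIn x (H s) : ℝ) ≤ (Pool.Agent.U26Z.MX.primesIn n (H s + 1) : ℝ) := by
      have : primesIn x (H s) ≤ Pool.Agent.U26Z.MX.primesIn n (H s + 1) := by
        unfold primesIn Pool.Agent.U26Z.MX.primesIn
        apply card_le_card
        apply filter_subset_filter
        rw [Nat.floor_natCast]
        apply Ioc_subset_Ioc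
        · rw [hn]
        · exact Nat.floor_le_floor (by linarith)
      exact_mod_cast this
    rw [Fh_eq, ← hx] at hu
    unfold Pool.Agent.U26Z.MX.density
    obtain ⟨P, hP⟩ : ∃ P : ℝ, P = primesIn x (H s) := ⟨_, rfl⟩
    obtain ⟨P', hP'⟩ : ∃ P' : ℝ, P' = Pool.Agent.U26Z.MX.primesIn n (H s + 1) := ⟨_, rfl⟩
    rw [← hP] at hu e3
    rw [← hP'] at e3 ⊢
    have hP0 : 0 ≤ P := by rw [hP]; exact Nat.cast_nonneg _
    rw [le_div_iff₀ (by linarith)] at hu ⊢
    have e4 : P * (s / 2) ≤ P' * Real.log n := mul_le_mul e3 e1 (by linarith) (by linarith)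
    rcases le_or_gt u 0 with hu0 | hu0
    · have : 0 ≤ P * (s / 2) := by positivity
      nlinarith
    · nlinarith

theorem vol_loc {lam : ℝ} (hlam : 0 < lam) : ∃ C : ℝ, 0 < C ∧ ∀ H : ℝ → ℝ, Win H → (∀ᶠ s in atTop, lam * s ≤ H s) →
    ∃ S₀ : ℝ, 10 ≤ S₀ ∧ ∀ s₀ l : ℝ, S₀ ≤ s₀ →
    Real.exp (-(0.4 * s₀)) ≤ l → l ≤ 1 / (4 * s₀) → ∀ u : ℝ, 0 < u →
    volume.real ({s : ℝ | 4 * u ≤ Fh H s} ∩ Set.Ioc s₀ (s₀ + l)) ≤ C / u ^ 4 * l := by
  obtain ⟨C, hC, X₀, hweak⟩ := Pool.Agent.U26Z.MX.weak 4 (θ := 0.5) (K := lam) (by norm_num) hlam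
  obtain ⟨Z, hZ⟩ := eventually_atTop.1 (Real.tendsto_exp_atTop.eventually_ge_atTop ((X₀ : ℝ) + 3))
  refine ⟨10 * C, by positivity, fun H hW hlow => ?_⟩
  obtain ⟨S₀, hS₀, hin⟩ := big_density hW hlam hlow
  refine ⟨max S₀ Z, hS₀.trans (le_max_left _ _), fun s₀ l hs₀ hl1 hl2 u hu => ?_⟩
  have h1 := hZ s₀ ((le_max_right _ _).trans hs₀)
  have hsS : S₀ ≤ s₀ := (le_max_left _ _).trans hs₀
  have hs10 : 10 ≤ s₀ := hS₀.trans hsS
  have hl0 : 0 < l := (Real.exp_pos _).trans_le hl1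
  have hl40 : l ≤ 1 / 40 := hl2.trans (one_div_le_one_div_of_le (by norm_num) (by linarith))
  obtain ⟨x₀, hx₀⟩ : ∃ x₀, x₀ = Real.exp s₀ := ⟨_, rfl⟩
  have hx₀b : 1000 ≤ x₀ := by
    have e1 : Real.exp 10 ≤ x₀ := by rw [hx₀]; exact Real.exp_le_exp.2 hs10
    have e2 : (1000 : ℝ) ≤ Real.exp 10 := by
      have e3 : Real.exp 10 = (Real.exp 1) ^ 10 := by rw [← Real.exp_nat_mul]; norm_num
      have e4 : (2 : ℝ) ≤ Real.exp 1 := by
        have := Real.add_one_le_exp (1 : ℝ)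
        linarith
      rw [e3]
      calc (1000 : ℝ) ≤ 2 ^ 10 := by norm_num
        _ ≤ _ := pow_le_pow_left₀ (by norm_num) e4 10
    linarith
  have hx₀0 : 0 < x₀ := by linarith
  rw [← hx₀] at h1
  obtain ⟨X, hX⟩ : ∃ X, X = ⌊x₀⌋₊ - 1 := ⟨_, rfl⟩
  have hfl : X₀ + 2 ≤ ⌊x₀⌋₊ := Nat.le_floor (by push_cast; linarith)
  have hX0 : X₀ ≤ X := by omega
  have hX1 : 0 < X := by omega
  have hXx : (X : ℝ) ≤ x₀ - 1 := by
    rw [hX, Nat.cast_sub (by omega)]
    have := Nat.floor_le hx₀0.le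
    push_cast
    linarith
  have hXx2 : x₀ - 2 < X := by
    rw [hX, Nat.cast_sub (by omega)]
    have := Nat.lt_floor_add_one x₀
    push_cast
    linarith
  have hlx : Real.exp (0.6 * s₀) ≤ l * x₀ := by
    calc Real.exp (0.6 * s₀) = Real.exp (-(0.4 * s₀)) * x₀ := by rw [hx₀, ← Real.exp_add]; congr 1; ring
      _ ≤ l * x₀ := by gcongr
  have hlx3 : 3 ≤ l * x₀ := by
    refine le_trans ?_ hlx
    have := Real.add_one_le_exp (0.6 * s₀)
    linarith
  obtain ⟨Y, hY⟩ : ∃ Y : ℕ, Y = ⌈2 * l * x₀ + 2⌉₊ := ⟨_, rfl⟩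
  have hY1 : 2 * l * x₀ + 2 ≤ Y := by rw [hY]; exact Nat.le_ceil _
  have hY2 : (Y : ℝ) < 2 * l * x₀ + 3 := by rw [hY]; exact (Nat.ceil_lt_add_one (by positivity)).trans_le (by linarith)
  have hY5 : (Y : ℝ) ≤ 4 * (l * x₀) := by linarith
  have hYX : Y ≤ X := by
    have : (Y : ℝ) ≤ X := by nlinarith
    exact_mod_cast this
  have hw := hweak X hX0 Y (by
    calc (X : ℝ) ^ (0.5 : ℝ) ≤ x₀ ^ (0.5 : ℝ) := Real.rpow_le_rpow (by positivity) (by linarith) (by norm_num)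
      _ = Real.exp (0.5 * s₀) := by rw [hx₀, ← Real.exp_mul, mul_comm]
      _ ≤ Real.exp (0.6 * s₀) := Real.exp_le_exp.2 (by linarith)
      _ ≤ Y := by linarith) hYX u hu
  obtain ⟨E, hE⟩ : ∃ E, E = Pool.Agent.U26Z.MX.Ex lam u X Y := ⟨_, rfl⟩
  rw [← hE] at hw
  have hXr : (0 : ℝ) < X := by exact_mod_cast hX1
  have hsub : ({s : ℝ | 4 * u ≤ Fh H s} ∩ Set.Ioc s₀ (s₀ + l)) ⊆ ⋃ n ∈ E, Set.Ico (Real.log n) (Real.log n + 1 / X) := by
    rintro s ⟨g1, g2⟩
    have g3 := hin s u (by linarith [g2.1]) g1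
    obtain ⟨n, hn⟩ : ∃ n, n = ⌊Real.exp s⌋₊ := ⟨_, rfl⟩
    rw [← hn] at g3
    have hn1 : (n : ℝ) ≤ Real.exp s := by rw [hn]; exact Nat.floor_le (Real.exp_pos _).le
    have hn2 : Real.exp s < n + 1 := by rw [hn]; exact Nat.lt_floor_add_one _
    have hes : x₀ ≤ Real.exp s := by rw [hx₀]; exact Real.exp_le_exp.2 g2.1.le
    have hes2 : Real.exp s ≤ x₀ * (1 + 2 * l) := by
      have e1 : Real.exp s ≤ x₀ * Real.exp l := by
        rw [hx₀, ← Real.exp_add]
        exact Real.exp_le_exp.2 g2.2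
      have h3 := Real.abs_exp_sub_one_sub_id_le (show |l| ≤ 1 by rw [abs_of_pos hl0]; linarith)
      have h4 := (abs_le.1 h3).2
      have e2 : Real.exp l ≤ 1 + 2 * l := by nlinarith
      calc Real.exp s ≤ x₀ * Real.exp l := e1
        _ ≤ _ := by gcongr
    have hnX : X < n := by
      have : (X : ℝ) < n := by linarith
      exact_mod_cast this
    have hnE : n ∈ E := by
      rw [hE]
      unfold Pool.Agent.U26Z.MX.Ex
      rw [mem_filter, mem_Ioc]
      refine ⟨⟨hnX, ?_⟩, g3⟩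
      have : (n : ℝ) ≤ X + Y := by nlinarith
      exact_mod_cast this
    rw [Set.mem_iUnion₂]
    refine ⟨n, hnE, ?_⟩
    have hn0 : (0 : ℝ) < n := by
      have : 0 < n := by omega
      exact_mod_cast this
    constructor
    · have := Real.log_le_log hn0 hn1
      rwa [Real.log_exp] at this
    · have k1 : s < Real.log (n + 1) := by
        have := Real.log_lt_log (Real.exp_pos s) hn2
        rwa [Real.log_exp] at this
      have k2 : Real.log (n + 1) = Real.log n + Real.log (1 + 1 / n) := by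
        rw [← Real.log_mul hn0.ne' (by positivity)]
        congr 1
        field_simp
      have k3 : Real.log (1 + 1 / (n : ℝ)) ≤ 1 / n := by
        have := Real.log_le_sub_one_of_pos (show 0 < 1 + 1 / (n : ℝ) by positivity)
        linarith
      have k4 : 1 / (n : ℝ) ≤ 1 / X := by
        apply one_div_le_one_div_of_le hXr
        exact_mod_cast hnX.le
      linarith
  have h3 : volume ({s : ℝ | 4 * u ≤ Fh H s} ∩ Set.Ioc s₀ (s₀ + l)) ≤ ENNReal.ofReal (E.card * (1 / X)) := by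
    refine (measure_mono hsub).trans ((measure_biUnion_finset_le _ _).trans ?_)
    refine (sum_le_card_nsmul _ _ (ENNReal.ofReal (1 / X)) fun n _ => ?_).trans ?_
    · rw [Real.volume_Ico]
      apply ENNReal.ofReal_le_ofReal
      linarith
    · rw [← ENNReal.ofReal_nsmul, nsmul_eq_mul]
  have h4 : volume.real ({s : ℝ | 4 * u ≤ Fh H s} ∩ Set.Ioc s₀ (s₀ + l)) ≤ E.card * (1 / X) := by
    unfold Measure.real
    exact ENNReal.toReal_le_of_le_ofReal (by positivity) h3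
  refine h4.trans ?_
  have hXx3 : x₀ / 2 ≤ X := by linarith
  rw [mul_one_div, div_le_iff₀ hXr]
  have hCu : 0 < C / u ^ 4 := by positivity
  calc (E.card : ℝ) ≤ C / u ^ 4 * Y := hw
    _ ≤ C / u ^ 4 * (4 * (l * x₀)) := by gcongr
    _ = C / u ^ 4 * l * (8 * (x₀ / 2)) := by ring
    _ ≤ C / u ^ 4 * l * (10 * X) := by gcongr; norm_num
    _ = 10 * C / u ^ 4 * l * X := by ring

theorem mom_loc {lam : ℝ} (hlam : 0 < lam) : ∃ C : ℝ, 0 < C ∧ ∀ H : ℝ → ℝ, Win H → (∀ᶠ s in atTop, lam * s ≤ H s) →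
    ∃ S₀ : ℝ, 10 ≤ S₀ ∧ ∀ s₀ l : ℝ, S₀ ≤ s₀ →
    Real.exp (-(0.4 * s₀)) ≤ l → l ≤ 1 / (4 * s₀) → ∫ s in s₀..(s₀ + l), (Fh H s) ^ 2 ≤ C * l := by
  obtain ⟨C, hC, hvol⟩ := vol_loc hlam
  refine ⟨16 + 128 * C, by positivity, fun H hW hlow => ?_⟩
  obtain ⟨S₀, hS₀, hvol⟩ := hvol H hW hlow
  refine ⟨S₀, hS₀, fun s₀ l hs₀ hl1 hl2 => ?_⟩
  have hs0 : 0 < s₀ := by linarith
  have hl0 : 0 < l := (Real.exp_pos _).trans_le hl1
  have hl40 : l ≤ 1 / 40 := hl2.trans (one_div_le_one_div_of_le (by norm_num) (by linarith))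
  obtain ⟨J, hJ⟩ := pow_unbounded_of_one_lt (s₀ + 1) (show (1 : ℝ) < 2 by norm_num)
  have hm := Fh_meas hW.meas
  have hA : ∀ j : ℕ, MeasurableSet {s : ℝ | 4 * 2 ^ j ≤ Fh H s} := fun j => measurableSet_le measurable_const hm
  have hi1 : ∀ j : ℕ, IntervalIntegrable (fun s => if 4 * 2 ^ j ≤ Fh H s then (1 : ℝ) else 0) volume s₀ (s₀ + l) := by
    intro j
    apply ii_of_bdd (Measurable.ite (hA j) measurable_const measurable_const) (by linarith) (C := 1)
    intro x _ _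
    split_ifs <;> norm_num
  have hi2 : IntervalIntegrable (fun s => (Fh H s) ^ 2) volume s₀ (s₀ + l) := sq_ii hW hs0.le (by linarith)
  have hi3 : IntervalIntegrable (fun s => ∑ j ∈ range J, (4 : ℝ) ^ (j + 1) * (if 4 * 2 ^ j ≤ Fh H s then (1 : ℝ) else 0))
      volume s₀ (s₀ + l) := by
    have h := IntervalIntegrable.sum (range J) (f := fun (j : ℕ) s => (4 : ℝ) ^ (j + 1) * (if 4 * 2 ^ j ≤ Fh H s then (1 : ℝ) else 0))
      (fun j _ => (hi1 j).const_mul _)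
    have e : (fun s => ∑ j ∈ range J, (4 : ℝ) ^ (j + 1) * (if 4 * 2 ^ j ≤ Fh H s then (1 : ℝ) else 0)) =
        ∑ j ∈ range J, (fun s => (4 : ℝ) ^ (j + 1) * (if 4 * 2 ^ j ≤ Fh H s then (1 : ℝ) else 0)) := by
      ext s
      rw [Finset.sum_apply]
    rw [e]
    exact h
  have hi4 : IntervalIntegrable (fun s => 16 * (1 + ∑ j ∈ range J, (4 : ℝ) ^ (j + 1) * (if 4 * 2 ^ j ≤ Fh H s then (1 : ℝ) else 0)))
      volume s₀ (s₀ + l) := (_root_.intervalIntegrable_const.add hi3).const_mul 16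
  have h1 : ∫ s in s₀..(s₀ + l), (Fh H s) ^ 2 ≤
      ∫ s in s₀..(s₀ + l), 16 * (1 + ∑ j ∈ range J, (4 : ℝ) ^ (j + 1) * (if 4 * 2 ^ j ≤ Fh H s then (1 : ℝ) else 0)) := by
    apply intervalIntegral.integral_mono_on (by linarith) hi2 hi4
    intro s hs
    apply cake (Fh_nn hW (by linarith [hs.1]))
    have := Fh_triv hW (show 0 ≤ s by linarith [hs.1])
    linarith [hs.2]
  refine h1.trans ?_
  rw [intervalIntegral.integral_const_mul, intervalIntegral.integral_add _root_.intervalIntegrable_const hi3,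
    intervalIntegral.integral_finsetSum (fun j _ => (hi1 j).const_mul _)]
  have h2 : ∀ j ∈ range J, ∫ s in s₀..(s₀ + l), (4 : ℝ) ^ (j + 1) * (if 4 * 2 ^ j ≤ Fh H s then (1 : ℝ) else 0) ≤
      4 * C * l * (1 / 4) ^ j := by
    intro j _
    rw [intervalIntegral.integral_const_mul]
    have e1 : ∫ s in s₀..(s₀ + l), (if 4 * 2 ^ j ≤ Fh H s then (1 : ℝ) else 0) =
        volume.real ({s : ℝ | 4 * 2 ^ j ≤ Fh H s} ∩ Set.Ioc s₀ (s₀ + l)) := by
      rw [intervalIntegral.integral_of_le (by linarith)]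
      have e2 : (fun s => if 4 * 2 ^ j ≤ Fh H s then (1 : ℝ) else 0) = Set.indicator {s : ℝ | 4 * 2 ^ j ≤ Fh H s} 1 := by
        ext s
        rw [Set.indicator_apply]
        simp only [Set.mem_ofPred_eq, Pi.one_apply]
      rw [e2, integral_indicator_one (hA j)]
      unfold Measure.real
      rw [Measure.restrict_apply (hA j)]
    rw [e1]
    have e3 := hvol s₀ l hs₀ hl1 hl2 (2 ^ j) (by positivity)
    calc (4 : ℝ) ^ (j + 1) * volume.real ({s : ℝ | 4 * 2 ^ j ≤ Fh H s} ∩ Set.Ioc s₀ (s₀ + l))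
        ≤ 4 ^ (j + 1) * (C / (2 ^ j) ^ 4 * l) := by gcongr
      _ = 4 * C * l * (1 / 4) ^ j := by
          have e4 : ((2 : ℝ) ^ j) ^ 4 = 4 ^ j * 4 ^ j := by
            rw [← pow_mul, ← mul_pow, mul_comm j 4, pow_mul]
            norm_num
          rw [e4, pow_succ, one_div, inv_pow]
          field_simp
  have h3 : ∑ j ∈ range J, ∫ s in s₀..(s₀ + l), (4 : ℝ) ^ (j + 1) * (if 4 * 2 ^ j ≤ Fh H s then (1 : ℝ) else 0) ≤ 8 * C * l := by
    refine (sum_le_sum h2).trans ?_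
    rw [← mul_sum]
    have := (summable_geometric_of_lt_one (show (0 : ℝ) ≤ 1 / 4 by norm_num) (by norm_num)).sum_le_tsum (range J)
      (fun j _ => by positivity)
    rw [tsum_geometric_of_lt_one (by norm_num) (by norm_num)] at this
    have hCl : 0 < C * l := by positivity
    norm_num at this ⊢
    nlinarith
  rw [intervalIntegral.integral_const, smul_eq_mul]
  linarith

end Pool.Agent.H40E9.GP
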