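import Pool.Agent.H40E9.GP.PP1

/-!
# The indicator of a prime in the window, and its averages over cells
-/

set_option autoImplicit false

namespace Pool.Agent.H40E9.GP

open Finset Filter Topology MeasureTheory Pool.Agent.U26Z.DX
open Pool.Agent.H39x.LP (pc pcount)

/-- a nondecreasing threshold -/
structure Thr (H : ℝ → ℝ) (t : ℝ → ℕ) : Prop where
  W : Win H
  mono : ∀ s s', 0 ≤ s → s ≤ s' → t s ≤ t s'
  bd : ∀ s, 0 ≤ s → (t s : ℝ) ≤ H 0 * Real.exp s + 1
  meas : Measurable t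

/-- one if there are at least `t s` primes in the window after `e ^ s`, zero otherwise -/
noncomputable def hh (H : ℝ → ℝ) (t : ℝ → ℕ) (s : ℝ) : ℝ := if t s ≤ primesIn (Real.exp s) (H s) then 1 else 0

theorem pr_meas {H : ℝ → ℝ} (hH : Measurable H) : Measurable fun y : ℝ => primesIn (Real.exp y) (H y) := by
  have : (fun y : ℝ => primesIn (Real.exp y) (H y)) = (fun p : ℕ × ℕ => ((Ioc p.1 p.2).filter Nat.Prime).card) ∘
      (fun y : ℝ => (⌊Real.exp y⌋₊, ⌊Real.exp y + H y⌋₊)) := rfl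
  rw [this]
  exact (Measurable.of_discrete).comp ((Nat.measurable_floor.comp Real.measurable_exp).prodMk
    (Nat.measurable_floor.comp (Real.measurable_exp.add hH)))

section

variable {H : ℝ → ℝ} {t : ℝ → ℕ}

theorem hh_meas (hT : Thr H t) : Measurable (hh H t) := by
  unfold hh
  exact Measurable.ite (measurableSet_le hT.meas (pr_meas hT.W.meas)) measurable_const measurable_const

theorem hh_nn (H : ℝ → ℝ) (t : ℝ → ℕ) (s : ℝ) : 0 ≤ hh H t s := by unfold hh; split_ifs <;> norm_num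

theorem hh_le (H : ℝ → ℝ) (t : ℝ → ℕ) (s : ℝ) : hh H t s ≤ 1 := by unfold hh; split_ifs <;> norm_num

theorem hh_ii (hT : Thr H t) (a b : ℝ) : IntervalIntegrable (hh H t) volume a b := by
  rcases le_total a b with h | h
  · exact ii_of_bdd (hh_meas hT) h (C := 1) fun x _ _ => by rw [abs_of_nonneg (hh_nn H t x)]; exact hh_le H t x
  · exact (ii_of_bdd (hh_meas hT) h (C := 1) fun x _ _ => by rw [abs_of_nonneg (hh_nn H t x)]; exact hh_le H t x).symm

end

/-- **A positive proportion in every short interval.** -/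
theorem loc {lam δ : ℝ} (hlam : 0 < lam) (hδ : 0 < δ) (hδ1 : δ ≤ 1) : ∃ c : ℝ, 0 < c ∧ ∀ (H : ℝ → ℝ) (t : ℝ → ℕ), Thr H t →
    (∀ᶠ s in atTop, lam * s ≤ H s) → (∀ᶠ s in atTop, 1 - δ ≤ Fh H s → t s ≤ primesIn (Real.exp s) (H s)) →
    ∃ S₀ : ℝ, 10 ≤ S₀ ∧ ∀ s₀ l : ℝ, S₀ ≤ s₀ →
    Real.exp (-(0.4 * s₀)) ≤ l → l ≤ 1 / (4 * s₀) → c * l ≤ ∫ s in s₀..(s₀ + l), hh H t s := by
  obtain ⟨C₂, hC₂, hmom⟩ := mom_loc hlam
  refine ⟨δ ^ 2 / (2 * C₂), by positivity, fun H t hT hlow hthr => ?_⟩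
  have hW := hT.W
  obtain ⟨S₁, hS₁, hmom⟩ := hmom H hW hlow
  obtain ⟨C₁, Y₀, hC₁, hY₀, havg⟩ := avg hW
  obtain ⟨S₂, hS₂⟩ := eventually_atTop.1 hthr
  refine ⟨max (max S₁ S₂) (max Y₀ (4 * C₁ / δ)), hS₁.trans ((le_max_left _ _).trans (le_max_left _ _)), fun s₀ l hs₀ hl1 hl2 => ?_⟩
  have h1 : S₁ ≤ s₀ := (le_max_left _ _).trans ((le_max_left _ _).trans hs₀)
  have h1' : S₂ ≤ s₀ := (le_max_right _ _).trans ((le_max_left _ _).trans hs₀)
  have h2 : Y₀ ≤ s₀ := (le_max_left _ _).trans ((le_max_right _ _).trans hs₀)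
  have h3 : 4 * C₁ / δ ≤ s₀ := (le_max_right _ _).trans ((le_max_right _ _).trans hs₀)
  have hs0 : 0 < s₀ := by linarith
  have hl0 : 0 < l := (Real.exp_pos _).trans_le hl1
  have hm := hmom s₀ l h1 hl1 hl2
  have ha := (abs_le.1 (havg s₀ l h2 hl1 hl2)).1
  have hc : C₁ / s₀ * l ≤ δ / 4 * l := by
    have : C₁ / s₀ ≤ δ / 4 := by
      rw [div_le_iff₀ hδ] at h3
      rw [div_le_div_iff₀ hs0 (by norm_num)]
      linarith
    gcongr
  have hpt : ∀ s ∈ Set.Icc s₀ (s₀ + l), Fh H s ≤ (1 - δ) + (δ / (4 * C₂) * (Fh H s) ^ 2 + C₂ / δ * hh H t s) := by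
    intro s hs
    have h5 : 0 ≤ δ / (4 * C₂) * (Fh H s) ^ 2 := by positivity
    by_cases h : 1 - δ ≤ Fh H s
    · have h6 := hS₂ s (h1'.trans hs.1) h
      unfold hh
      rw [if_pos h6]
      have h4 : 0 ≤ (Fh H s * δ / (2 * C₂) - 1) ^ 2 * (C₂ / δ) := by positivity
      have h5 : (Fh H s * δ / (2 * C₂) - 1) ^ 2 * (C₂ / δ) = δ / (4 * C₂) * (Fh H s) ^ 2 + C₂ / δ * 1 - Fh H s := by
        field_simp
        ring
      linarith
    · have h6 : 0 ≤ C₂ / δ * hh H t s := mul_nonneg (by positivity) (hh_nn H t s)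
      linarith
  have hi1 := (sq_ii hW hs0.le (show s₀ ≤ s₀ + l by linarith)).const_mul (δ / (4 * C₂))
  have hi2 := (hh_ii hT s₀ (s₀ + l)).const_mul (C₂ / δ)
  have h4 : ∫ s in s₀..(s₀ + l), Fh H s ≤ ∫ s in s₀..(s₀ + l), ((1 - δ) + (δ / (4 * C₂) * (Fh H s) ^ 2 + C₂ / δ * hh H t s)) :=
    intervalIntegral.integral_mono_on (by linarith) (Fh_ii hW hs0.le (by linarith)) (_root_.intervalIntegrable_const.add (hi1.add hi2)) hpt
  rw [intervalIntegral.integral_add _root_.intervalIntegrable_const (hi1.add hi2), intervalIntegral.integral_add hi1 hi2,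
    intervalIntegral.integral_const_mul, intervalIntegral.integral_const_mul, intervalIntegral.integral_const, smul_eq_mul] at h4
  have h5 : δ / (4 * C₂) * ∫ s in s₀..(s₀ + l), (Fh H s) ^ 2 ≤ δ / 4 * l := by
    calc δ / (4 * C₂) * ∫ s in s₀..(s₀ + l), (Fh H s) ^ 2 ≤ δ / (4 * C₂) * (C₂ * l) := by gcongr
      _ = δ / 4 * l := by field_simp
  have h6 : δ / 2 * l ≤ C₂ / δ * ∫ s in s₀..(s₀ + l), hh H t s := by
    have e : (s₀ + l - s₀) * (1 - δ) = (1 - δ) * l := by ring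
    rw [e] at h4
    linarith
  calc δ ^ 2 / (2 * C₂) * l = δ / C₂ * (δ / 2 * l) := by ring
    _ ≤ δ / C₂ * (C₂ / δ * ∫ s in s₀..(s₀ + l), hh H t s) := by gcongr
    _ = _ := by field_simp

/-- the ends of the cells -/
noncomputable def cc (i : ℕ) : ℝ := Real.log i / 0.39

/-- the cell of `y` -/
noncomputable def ix (y : ℝ) : ℕ := ⌈Real.exp (0.39 * y)⌉₊ - 1

/-- the mean value over a cell -/
noncomputable def mv (H : ℝ → ℝ) (t : ℝ → ℕ) (i : ℕ) : ℝ := (∫ s in (cc i)..(cc (i + 1)), hh H t s) / (cc (i + 1) - cc i)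

/-- the mean value over the cell of `y` -/
noncomputable def mm (H : ℝ → ℝ) (t : ℝ → ℕ) (y : ℝ) : ℝ := mv H t (ix y)

/-- the centered indicator -/
noncomputable def PH (H : ℝ → ℝ) (t : ℝ → ℕ) (y : ℝ) : ℝ := hh H t y - mm H t y

theorem cc_lt {i : ℕ} (hi : 1 ≤ i) : cc i < cc (i + 1) := by
  unfold cc
  have h1 : (0 : ℝ) < i := by exact_mod_cast hi
  have h2 : Real.log i < Real.log ((i + 1 : ℕ) : ℝ) := Real.log_lt_log h1 (by push_cast; linarith)
  exact div_lt_div_of_pos_right h2 (by norm_num)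

theorem cc_one : cc 1 = 0 := by unfold cc; simp

theorem cc_zero : cc 0 = 0 := by unfold cc; simp

theorem cc_nn {i : ℕ} (hi : 1 ≤ i) : 0 ≤ cc i := by
  unfold cc
  have h1 : (1 : ℝ) ≤ i := by exact_mod_cast hi
  exact div_nonneg (Real.log_nonneg h1) (by norm_num)

theorem ix_eq {i : ℕ} (hi : 1 ≤ i) {y : ℝ} (h1 : cc i < y) (h2 : y ≤ cc (i + 1)) : ix y = i := by
  have hi0 : (0 : ℝ) < i := by exact_mod_cast hi
  have g1 : (i : ℝ) < Real.exp (0.39 * y) := by
    rw [← Real.exp_log hi0]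
    apply Real.exp_lt_exp.2
    unfold cc at h1
    rw [div_lt_iff₀ (by norm_num)] at h1
    linarith
  have g2 : Real.exp (0.39 * y) ≤ ((i + 1 : ℕ) : ℝ) := by
    have hi1 : (0 : ℝ) < ((i + 1 : ℕ) : ℝ) := by positivity
    rw [← Real.exp_log hi1]
    apply Real.exp_le_exp.2
    unfold cc at h2
    rw [le_div_iff₀ (by norm_num)] at h2
    linarith
  have g3 : ⌈Real.exp (0.39 * y)⌉₊ = i + 1 := by
    rw [Nat.ceil_eq_iff (by omega)]
    exact ⟨by simpa using g1, g2⟩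
  unfold ix
  omega

theorem ix_spec {y : ℝ} (hy : 0 < y) : 1 ≤ ix y ∧ cc (ix y) < y ∧ y ≤ cc (ix y + 1) := by
  obtain ⟨E, hE⟩ : ∃ E, E = Real.exp (0.39 * y) := ⟨_, rfl⟩
  have hE1 : 1 < E := by rw [hE]; exact Real.one_lt_exp_iff.2 (by positivity)
  have h1 : 1 < ⌈E⌉₊ := by
    have := hE1.trans_le (Nat.le_ceil E)
    exact_mod_cast this
  have hix : ix y = ⌈E⌉₊ - 1 := by rw [hE]; rfl
  have h2 : ix y + 1 = ⌈E⌉₊ := by omega
  have h3 : 1 ≤ ix y := by omega
  have h4 : (0 : ℝ) < ix y := by exact_mod_cast h3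
  have hlog : Real.log E = 0.39 * y := by rw [hE, Real.log_exp]
  refine ⟨h3, ?_, ?_⟩
  · unfold cc
    rw [div_lt_iff₀ (by norm_num)]
    have h5 : (ix y : ℝ) < E := by
      have := Nat.ceil_lt_add_one (show 0 ≤ E by linarith)
      have h6 : ((ix y + 1 : ℕ) : ℝ) = ⌈E⌉₊ := by rw [h2]
      push_cast at h6
      linarith
    have := Real.log_lt_log h4 h5
    linarith
  · unfold cc
    rw [le_div_iff₀ (by norm_num), h2]
    have := Real.log_le_log (by linarith) (Nat.le_ceil E)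
    linarith

theorem mv_nn (H : ℝ → ℝ) (t : ℝ → ℕ) (i : ℕ) : 0 ≤ mv H t i := by
  rcases Nat.eq_zero_or_pos i with h | h
  · rw [h]; unfold mv; rw [zero_add, cc_zero, cc_one]; simp
  · have := cc_lt h
    unfold mv
    exact div_nonneg (intervalIntegral.integral_nonneg this.le fun s _ => hh_nn H t s) (by linarith)

theorem mv_le {H : ℝ → ℝ} {t : ℝ → ℕ} (hT : Thr H t) (i : ℕ) : mv H t i ≤ 1 := by
  rcases Nat.eq_zero_or_pos i with h | h
  · rw [h]; unfold mv; rw [zero_add, cc_zero, cc_one]; simp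
  · have h1 := cc_lt h
    unfold mv
    rw [div_le_one (by linarith)]
    have h2 : ∫ s in (cc i)..(cc (i + 1)), hh H t s ≤ ∫ s in (cc i)..(cc (i + 1)), (1 : ℝ) :=
      intervalIntegral.integral_mono_on h1.le (hh_ii hT _ _) _root_.intervalIntegrable_const fun s _ => hh_le H t s
    rw [intervalIntegral.integral_const, smul_eq_mul, mul_one] at h2
    exact h2

theorem mm_meas (H : ℝ → ℝ) (t : ℝ → ℕ) : Measurable (mm H t) := by
  have h1 : Measurable fun y : ℝ => ⌈Real.exp (0.39 * y)⌉₊ - 1 :=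
    (Measurable.of_discrete (f := fun n : ℕ => n - 1)).comp
      (Nat.measurable_ceil.comp (Real.measurable_exp.comp (measurable_id.const_mul 0.39)))
  exact (Measurable.of_discrete (f := mv H t)).comp h1

theorem PH_meas {H : ℝ → ℝ} {t : ℝ → ℕ} (hT : Thr H t) : Measurable (PH H t) := (hh_meas hT).sub (mm_meas H t)

theorem PH_abs {H : ℝ → ℝ} {t : ℝ → ℕ} (hT : Thr H t) (y : ℝ) : |PH H t y| ≤ 1 := by
  unfold PH mm
  have h1 := hh_nn H t y
  have h2 := hh_le H t y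
  have h3 := mv_nn H t (ix y)
  have h4 := mv_le hT (ix y)
  rw [abs_le]
  constructor <;> linarith

theorem PH_ii {H : ℝ → ℝ} {t : ℝ → ℕ} (hT : Thr H t) (a b : ℝ) : IntervalIntegrable (PH H t) volume a b := by
  rcases le_total a b with h | h
  · exact ii_of_bdd (PH_meas hT) h (C := 1) fun x _ _ => PH_abs hT x
  · exact (ii_of_bdd (PH_meas hT) h (C := 1) fun x _ _ => PH_abs hT x).symm

theorem int_cell {H : ℝ → ℝ} {t : ℝ → ℕ} (hT : Thr H t) {i : ℕ} (hi : 1 ≤ i) : ∫ s in (cc i)..(cc (i + 1)), PH H t s = 0 := by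
  have h1 := cc_lt hi
  have e1 : ∫ s in (cc i)..(cc (i + 1)), PH H t s = ∫ s in (cc i)..(cc (i + 1)), (hh H t s - mv H t i) := by
    rw [intervalIntegral.integral_of_le h1.le, intervalIntegral.integral_of_le h1.le]
    apply setIntegral_congr_fun measurableSet_Ioc
    intro s hs
    show hh H t s - mv H t (ix s) = hh H t s - mv H t i
    rw [ix_eq hi hs.1 hs.2]
  rw [e1, intervalIntegral.integral_sub (hh_ii hT _ _) _root_.intervalIntegrable_const, intervalIntegral.integral_const,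
    smul_eq_mul]
  unfold mv
  have : cc (i + 1) - cc i ≠ 0 := by linarith
  field_simp
  ring

theorem int_prefix {H : ℝ → ℝ} {t : ℝ → ℕ} (hT : Thr H t) {i : ℕ} (hi : 1 ≤ i) : ∫ s in (0 : ℝ)..(cc i), PH H t s = 0 := by
  induction i, hi using Nat.le_induction with
  | base => rw [cc_one]; simp
  | succ i hi ih =>
    rw [← intervalIntegral.integral_add_adjacent_intervals (PH_ii hT 0 (cc i)) (PH_ii hT (cc i) (cc (i + 1))), ih, int_cell hT hi,
      add_zero]

theorem int_zero {H : ℝ → ℝ} {t : ℝ → ℕ} (hT : Thr H t) {z : ℝ} (hz : 0 < z) :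
    |∫ s in (0 : ℝ)..z, PH H t s| ≤ cc (ix z + 1) - cc (ix z) := by
  obtain ⟨h1, h2, h3⟩ := ix_spec hz
  rw [← intervalIntegral.integral_add_adjacent_intervals (PH_ii hT 0 (cc (ix z))) (PH_ii hT (cc (ix z)) z), int_prefix hT h1,
    zero_add]
  have h4 := intervalIntegral.norm_integral_le_of_norm_le_const (a := cc (ix z)) (b := z) (f := PH H t) (C := 1)
    (fun x _ => by rw [Real.norm_eq_abs]; exact PH_abs hT x)
  rw [Real.norm_eq_abs, abs_of_nonneg (show 0 ≤ z - cc (ix z) by linarith), one_mul] at h4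
  linarith

theorem len_le {y : ℝ} (hy : 2 ≤ y) : cc (ix y + 1) - cc (ix y) ≤ 6 * Real.exp (-(0.39 * y)) := by
  obtain ⟨h1, h2, h3⟩ := ix_spec (show 0 < y by linarith)
  obtain ⟨j, hj⟩ : ∃ j, j = ix y := ⟨_, rfl⟩
  rw [← hj] at h1 h2 h3 ⊢
  have hj0 : (0 : ℝ) < j := by exact_mod_cast h1
  have e1 : cc (j + 1) - cc j = Real.log (1 + 1 / j) / 0.39 := by
    unfold cc
    rw [← sub_div, ← Real.log_div (by positivity) (by positivity)]
    congr 2
    push_cast
    field_simp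
  have e2 : Real.log (1 + 1 / (j : ℝ)) ≤ 1 / j := by
    have := Real.log_le_sub_one_of_pos (show 0 < 1 + 1 / (j : ℝ) by positivity)
    linarith
  have e3 : Real.exp (0.39 * y) ≤ 2 * j := by
    have g1 : Real.exp (0.39 * y) ≤ j + 1 := by
      unfold cc at h3
      rw [le_div_iff₀ (by norm_num)] at h3
      have hpos : (0 : ℝ) < ((j + 1 : ℕ) : ℝ) := by positivity
      have := Real.exp_le_exp.2 h3
      rw [Real.exp_log hpos] at this
      push_cast at this
      rw [mul_comm]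
      exact this
    have g2 : (1 : ℝ) ≤ j := by exact_mod_cast h1
    linarith
  rw [e1, div_le_iff₀ (by norm_num)]
  refine e2.trans ?_
  rw [Real.exp_neg, div_le_iff₀ hj0]
  have hE := Real.exp_pos (0.39 * y)
  calc (1 : ℝ) = (Real.exp (0.39 * y))⁻¹ * Real.exp (0.39 * y) := by field_simp
    _ ≤ (Real.exp (0.39 * y))⁻¹ * (2 * j) := by gcongr
    _ ≤ 6 * (Real.exp (0.39 * y))⁻¹ * 0.39 * j := by
        have : 0 < (Real.exp (0.39 * y))⁻¹ * j := by positivity
        linarith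

theorem int_any {H : ℝ → ℝ} {t : ℝ → ℕ} (hT : Thr H t) {y z : ℝ} (hy : 2 ≤ y) (hyz : y ≤ z) :
    |∫ s in y..z, PH H t s| ≤ 12 * Real.exp (-(0.39 * y)) := by
  have e1 : ∫ s in y..z, PH H t s = (∫ s in (0 : ℝ)..z, PH H t s) - ∫ s in (0 : ℝ)..y, PH H t s := by
    rw [← intervalIntegral.integral_add_adjacent_intervals (PH_ii hT 0 y) (PH_ii hT y z)]
    ring
  rw [e1]
  refine (abs_sub _ _).trans ?_
  have h1 := int_zero hT (show 0 < z by linarith)
  have h2 := int_zero hT (show 0 < y by linarith)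
  have h3 := len_le hy
  have h4 := len_le (hy.trans hyz)
  have h5 : Real.exp (-(0.39 * z)) ≤ Real.exp (-(0.39 * y)) := Real.exp_le_exp.2 (by linarith)
  linarith

/-- the mean values over the cells are bounded below -/
theorem mm_ge {lam δ : ℝ} (hlam : 0 < lam) (hδ : 0 < δ) (hδ1 : δ ≤ 1) : ∃ c : ℝ, 0 < c ∧ ∀ (H : ℝ → ℝ) (t : ℝ → ℕ), Thr H t →
    (∀ᶠ s in atTop, lam * s ≤ H s) → (∀ᶠ s in atTop, 1 - δ ≤ Fh H s → t s ≤ primesIn (Real.exp s) (H s)) →
    ∃ Y₁ : ℝ, ∀ y : ℝ, Y₁ ≤ y → c ≤ mm H t y := by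
  obtain ⟨c, hc, hloc⟩ := loc hlam hδ hδ1
  refine ⟨c, hc, fun H t hT hlow hthr => ?_⟩
  obtain ⟨S₀, hS₀, hloc⟩ := hloc H t hT hlow hthr
  have hev : ∀ᶠ i : ℕ in atTop, S₀ ≤ cc i ∧ 1 / (0.39 * (i : ℝ)) ≤ 1 / (4 * cc i) := by
    have h1 : Tendsto (fun i : ℕ => cc i) atTop atTop :=
      (Real.tendsto_log_atTop.comp tendsto_natCast_atTop_atTop).atTop_div_const (by norm_num)
    have h2 : ∀ᶠ i : ℕ in atTop, 4 * cc i ≤ 0.39 * (i : ℝ) := by
      have h3 := (Real.isLittleO_log_id_atTop.def (show (0 : ℝ) < 0.03 by norm_num))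
      have h4 := tendsto_natCast_atTop_atTop.eventually h3
      filter_upwards [h4, eventually_ge_atTop 1] with i hi hi1
      have hi1' : (1 : ℝ) ≤ i := by exact_mod_cast hi1
      rw [id, Real.norm_eq_abs, Real.norm_eq_abs, abs_of_nonneg (Real.log_nonneg hi1'), abs_of_nonneg (by linarith)] at hi
      unfold cc
      rw [← mul_div_assoc, div_le_iff₀ (by norm_num)]
      nlinarith
    filter_upwards [h1.eventually_ge_atTop S₀, h2] with i g1 g2
    refine ⟨g1, one_div_le_one_div_of_le (by linarith) g2⟩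
  obtain ⟨i₀, hi₀⟩ := eventually_atTop.1 hev
  refine ⟨max 1 (cc (i₀ + 1) + 1), fun y hy => ?_⟩
  have hy1 : 1 ≤ y := (le_max_left _ _).trans hy
  have hy2 : cc (i₀ + 1) + 1 ≤ y := (le_max_right _ _).trans hy
  obtain ⟨h1, h2, h3⟩ := ix_spec (show 0 < y by linarith)
  unfold mm
  obtain ⟨j, hj⟩ : ∃ j, j = ix y := ⟨_, rfl⟩
  rw [← hj] at h1 h2 h3 ⊢
  have hj0 : (0 : ℝ) < j := by exact_mod_cast h1
  have hji : i₀ ≤ j := by
    by_contra hcon
    push Not at hcon
    have : cc (j + 1) ≤ cc (i₀ + 1) := by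
      unfold cc
      apply div_le_div_of_nonneg_right _ (by norm_num)
      apply Real.log_le_log (by positivity)
      have : j + 1 ≤ i₀ + 1 := by omega
      exact_mod_cast this
    linarith
  obtain ⟨g1, g2⟩ := hi₀ j hji
  have hlen : cc (j + 1) - cc j = Real.log (1 + 1 / j) / 0.39 := by
    unfold cc
    rw [← sub_div, ← Real.log_div (by positivity) (by positivity)]
    congr 2
    push_cast
    field_simp
  have hl1 : Real.exp (-(0.4 * cc j)) ≤ cc (j + 1) - cc j := by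
    rw [hlen]
    have e1 : Real.exp (-(0.4 * cc j)) ≤ 1 / j := by
      have e2 : -(0.4 * cc j) ≤ -Real.log j := by
        unfold cc
        have e3 : 0 ≤ Real.log j := Real.log_nonneg (by exact_mod_cast h1)
        have e4 : 0.4 * (Real.log j / 0.39) = (0.4 / 0.39) * Real.log j := by ring
        rw [e4]
        have e5 : (1 : ℝ) ≤ 0.4 / 0.39 := by norm_num
        nlinarith
      refine (Real.exp_le_exp.2 e2).trans (le_of_eq ?_)
      rw [Real.exp_neg, Real.exp_log hj0, one_div]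
    refine e1.trans ?_
    rw [le_div_iff₀ (by norm_num)]
    have e6 : 1 / ((j : ℝ) + 1) ≤ Real.log (1 + 1 / j) := by
      have := Real.one_sub_inv_le_log_of_pos (show 0 < 1 + 1 / (j : ℝ) by positivity)
      have e7 : 1 - (1 + 1 / (j : ℝ))⁻¹ = 1 / ((j : ℝ) + 1) := by field_simp; ring
      rw [e7] at this
      exact this
    refine le_trans ?_ e6
    rw [one_div_mul_eq_div, div_le_div_iff₀ hj0 (by positivity)]
    have : (1 : ℝ) ≤ j := by exact_mod_cast h1
    linarith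
  have hl2 : cc (j + 1) - cc j ≤ 1 / (4 * cc j) := by
    refine le_trans ?_ g2
    rw [hlen, div_le_iff₀ (by norm_num)]
    have e2 : Real.log (1 + 1 / (j : ℝ)) ≤ 1 / j := by
      have := Real.log_le_sub_one_of_pos (show 0 < 1 + 1 / (j : ℝ) by positivity)
      linarith
    refine e2.trans (le_of_eq ?_)
    field_simp
  have h5 := hloc (cc j) (cc (j + 1) - cc j) g1 hl1 hl2
  have e : cc j + (cc (j + 1) - cc j) = cc (j + 1) := by ring
  rw [e] at h5
  unfold mv
  rw [le_div_iff₀ (by linarith [cc_lt h1])]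
  exact h5

end Pool.Agent.H40E9.GP
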