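import Pool.Agent.H40E9.GP.PP2

/-!
# The covariance of the centered indicators
-/

set_option autoImplicit false

namespace Pool.Agent.H40E9.GP

open Finset Filter Topology MeasureTheory Pool.Agent.U26Z.DX
open Pool.Agent.H39x.LP (pc pcount)

/-- the increasing part -/
noncomputable def P1 (H : ℝ → ℝ) (t : ℝ → ℕ) (s : ℝ) : ℝ := min (AA H s) (QQ s + t s) + 1 + ix s

/-- the decreasing part -/
noncomputable def P2 (H : ℝ → ℝ) (t : ℝ → ℕ) (s : ℝ) : ℝ := min (AA H s) (QQ s + t s - 1) + 1 + (ix s + mm H t s)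

theorem P12 {H : ℝ → ℝ} {t : ℝ → ℕ} (hT : Thr H t) {s : ℝ} (hs : 0 ≤ s) : PH H t s = P1 H t s - P2 H t s := by
  have h1 := hT.W.one s hs
  obtain ⟨P, hP⟩ : ∃ P : ℕ, P = primesIn (Real.exp s) (H s) := ⟨_, rfl⟩
  have e1 : (P : ℝ) = AA H s - QQ s := by
    rw [hP, primesIn_pc, pc_split (Nat.floor_le_floor (by linarith))]
    rfl
  have e2 : hh H t s = min (AA H s) (QQ s + t s) - min (AA H s) (QQ s + t s - 1) := by
    unfold hh
    rw [← hP]
    split_ifs with h
    · have h2 : (t s : ℝ) ≤ P := by exact_mod_cast h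
      rw [min_eq_right (by linarith), min_eq_right (by linarith)]
      ring
    · have h2 : (P : ℝ) + 1 ≤ t s := by
        have : P + 1 ≤ t s := by omega
        exact_mod_cast this
      rw [min_eq_left (by linarith), min_eq_left (by linarith)]
      ring
  unfold PH P1 P2
  rw [e2]
  ring

theorem ix_mono {s t : ℝ} (hst : s ≤ t) : ix s ≤ ix t := by
  unfold ix
  have : ⌈Real.exp (0.39 * s)⌉₊ ≤ ⌈Real.exp (0.39 * t)⌉₊ := Nat.ceil_le_ceil (Real.exp_le_exp.2 (by linarith))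
  omega

theorem ix_le {s : ℝ} (hs : 0 ≤ s) : (ix s : ℝ) ≤ Real.exp s := by
  have h1 := Nat.ceil_lt_add_one (Real.exp_pos (0.39 * s)).le
  have h2 : 1 ≤ ⌈Real.exp (0.39 * s)⌉₊ := Nat.ceil_pos.2 (Real.exp_pos _)
  unfold ix
  rw [Nat.cast_sub h2]
  push_cast
  have : Real.exp (0.39 * s) ≤ Real.exp s := Real.exp_le_exp.2 (by linarith)
  linarith

theorem P1_mono {H : ℝ → ℝ} {t : ℝ → ℕ} (hT : Thr H t) {s s' : ℝ} (hs : 0 ≤ s) (hst : s ≤ s') : P1 H t s ≤ P1 H t s' := by
  unfold P1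
  have a1 := AA_mono hT.W hs hst
  have a2 := QQ_mono hst
  have a3 : (ix s : ℝ) ≤ ix s' := by exact_mod_cast ix_mono hst
  have a5 : (t s : ℝ) ≤ t s' := by exact_mod_cast hT.mono s s' hs hst
  have a4 : min (AA H s) (QQ s + t s) ≤ min (AA H s') (QQ s' + t s') := min_le_min a1 (by linarith)
  linarith

theorem P2_mono {H : ℝ → ℝ} {t : ℝ → ℕ} (hT : Thr H t) {s s' : ℝ} (hs : 0 ≤ s) (hst : s ≤ s') : P2 H t s ≤ P2 H t s' := by
  unfold P2 mm
  have a1 := AA_mono hT.W hs hst
  have a2 := QQ_mono hst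
  have a3 := ix_mono hst
  have a5 : (t s : ℝ) ≤ t s' := by exact_mod_cast hT.mono s s' hs hst
  have a4 : min (AA H s) (QQ s + t s - 1) ≤ min (AA H s') (QQ s' + t s' - 1) := min_le_min a1 (by linarith)
  rcases Nat.eq_or_lt_of_le a3 with h | h
  · rw [h]
    linarith
  · have h1 : ((ix s : ℕ) : ℝ) + 1 ≤ ix s' := by exact_mod_cast h
    have h2 := mv_le hT (ix s)
    have h3 := mv_nn H t (ix s')
    linarith

theorem P1_nn (H : ℝ → ℝ) (t : ℝ → ℕ) (s : ℝ) : 0 ≤ P1 H t s := by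
  unfold P1
  have := AA_nn H s
  have := QQ_nn s
  have : (0 : ℝ) ≤ ix s := Nat.cast_nonneg _
  have : (0 : ℝ) ≤ t s := Nat.cast_nonneg _
  positivity

theorem P2_nn (H : ℝ → ℝ) (t : ℝ → ℕ) (s : ℝ) : 0 ≤ P2 H t s := by
  unfold P2 mm
  have h1 := AA_nn H s
  have h2 := QQ_nn s
  have h3 := mv_nn H t (ix s)
  have h4 : (0 : ℝ) ≤ t s := Nat.cast_nonneg _
  have h5 : (0 : ℝ) ≤ ix s := Nat.cast_nonneg _
  have h6 : -1 ≤ min (AA H s) (QQ s + t s - 1) := le_min (by linarith) (by linarith)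
  linarith

theorem P1_le {H : ℝ → ℝ} {t : ℝ → ℕ} (hT : Thr H t) {s : ℝ} (hs : 0 ≤ s) : P1 H t s ≤ 4 * (1 + H 0) * Real.exp s := by
  unfold P1
  have a1 := QQ_le hT.W (s := s)
  have a2 := ix_le hs
  have a3 := min_le_right (AA H s) (QQ s + t s)
  have a4 := Real.one_le_exp hs
  have a5 := hT.W.one 0 le_rfl
  have a6 := hT.bd s hs
  nlinarith

theorem P2_le {H : ℝ → ℝ} {t : ℝ → ℕ} (hT : Thr H t) {s : ℝ} (hs : 0 ≤ s) : P2 H t s ≤ 4 * (1 + H 0) * Real.exp s := by
  unfold P2 mm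
  have a1 := QQ_le hT.W (s := s)
  have a2 := ix_le hs
  have a3 := mv_le hT (ix s)
  have a4 := Real.one_le_exp hs
  have a5 := hT.W.one 0 le_rfl
  have a6 := hT.bd s hs
  have a7 := min_le_right (AA H s) (QQ s + t s - 1)
  nlinarith

theorem PH_prod_ii {H : ℝ → ℝ} {t : ℝ → ℕ} (hT : Thr H t) (α k β k' β' : ℝ) :
    IntervalIntegrable (fun u => PH H t (k * u + β) * PH H t (k' * u + β')) volume α (α + 1) := by
  have hmeas : ∀ k β : ℝ, Measurable (fun u => PH H t (k * u + β)) := fun k β =>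
    (PH_meas hT).comp ((measurable_id.const_mul k).add_const β)
  apply ii_of_bdd ((hmeas k β).mul (hmeas k' β')) (by linarith) (C := 1 * 1)
  intro x h1 h2
  rw [Pi.mul_apply, abs_mul]
  exact mul_le_mul (PH_abs hT _) (PH_abs hT _) (abs_nonneg _) (by norm_num)

theorem PH_prod {H : ℝ → ℝ} {t : ℝ → ℕ} (hT : Thr H t) (α k β k' β' : ℝ) :
    |∫ u in α..(α + 1), PH H t (k * u + β) * PH H t (k' * u + β')| ≤ 1 := by
  have h := intervalIntegral.norm_integral_le_of_norm_le_const (a := α) (b := α + 1)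
    (f := fun u => PH H t (k * u + β) * PH H t (k' * u + β')) (C := 1) (by
      intro x _
      rw [norm_mul, Real.norm_eq_abs, Real.norm_eq_abs]
      have h1 := PH_abs hT (k * x + β)
      have h2 := PH_abs hT (k' * x + β')
      nlinarith [abs_nonneg (PH H t (k * x + β)), abs_nonneg (PH H t (k' * x + β'))])
  rwa [Real.norm_eq_abs, add_sub_cancel_left, abs_one, mul_one] at h

/-- **Covariance.** -/
theorem covP {H : ℝ → ℝ} {t : ℝ → ℕ} (hT : Thr H t) {α : ℝ} (hα : 0 < α) : ∃ C R : ℝ, 0 < C ∧ 1 ≤ R ∧ ∀ k β k' β' : ℝ,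
    1 ≤ k → 0 ≤ β → 1 ≤ k' → 0 ≤ β' → R * (k + β) ≤ k' + β' →
    |∫ u in α..(α + 1), PH H t (k * u + β) * PH H t (k' * u + β')| ≤ C / (k + β) := by
  obtain ⟨τ, hτ⟩ : ∃ τ, τ = min α 1 := ⟨_, rfl⟩
  have hτ0 : 0 < τ := by rw [hτ]; positivity
  have hτα : τ ≤ α := by rw [hτ]; exact min_le_left _ _
  have hτ1 : τ ≤ 1 := by rw [hτ]; exact min_le_right _ _
  obtain ⟨R, hR⟩ : ∃ R, R = (α + 2) / (0.19 * τ) + 1 := ⟨_, rfl⟩
  have hR1 : 1 ≤ R := by
    rw [hR]
    have : 0 ≤ (α + 2) / (0.19 * τ) := by positivity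
    linarith
  obtain ⟨A₁, hA₁⟩ : ∃ A₁, A₁ = max (2 / τ) 1 := ⟨_, rfl⟩
  have hA₁1 : 1 ≤ A₁ := by rw [hA₁]; exact le_max_right _ _
  have hH0 : 1 ≤ H 0 := hT.W.one 0 le_rfl
  obtain ⟨K₀, hK₀⟩ : ∃ K₀, K₀ = 4 * (1 + H 0) := ⟨_, rfl⟩
  have hK₀0 : 0 < K₀ := by rw [hK₀]; positivity
  refine ⟨max A₁ (12 * (1 + 4 * K₀) + 4 * K₀), R, lt_of_lt_of_le (by positivity) (le_max_left _ _), hR1,
    fun k β k' β' hk hβ hk' hβ' hab => ?_⟩
  have hk0 : 0 < k := by linarith
  have hk'0 : 0 < k' := by linarith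
  obtain ⟨a, haa⟩ : ∃ a, a = k + β := ⟨_, rfl⟩
  obtain ⟨b, hbb⟩ : ∃ b, b = k' + β' := ⟨_, rfl⟩
  rw [← haa, ← hbb] at hab
  rw [← haa]
  have ha : 1 ≤ a := by linarith
  have ha0 : 0 < a := by linarith
  have hb1 : 1 ≤ b := by nlinarith
  have hab' : a ≤ b := by nlinarith
  have hb0 : 0 < b := by linarith
  rcases le_or_gt a A₁ with hc | hc
  · refine le_trans ?_ (div_le_div_of_nonneg_right (le_max_left _ _) ha0.le)
    refine (PH_prod hT α k β k' β').trans ?_
    rw [le_div_iff₀ ha0]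
    linarith
  · refine le_trans ?_ (div_le_div_of_nonneg_right (le_max_right _ _) ha0.le)
    have hbτ : 2 ≤ b * τ := by
      have h1 : 2 / τ ≤ A₁ := by rw [hA₁]; exact le_max_left _ _
      have h2 : 2 / τ ≤ b := by linarith
      rwa [div_le_iff₀ hτ0] at h2
    -- sizes
    have hlow : ∀ κ ρ : ℝ, 0 ≤ κ → 0 ≤ ρ → ∀ u, α ≤ u → (κ + ρ) * τ ≤ κ * u + ρ := by
      intro κ ρ hκ hρ u hu
      have h1 : κ * τ ≤ κ * u := by gcongr; linarith
      have h2 : ρ * τ ≤ ρ * 1 := by gcongr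
      linarith
    have hupp : ∀ κ ρ : ℝ, 0 ≤ κ → 0 ≤ ρ → ∀ u, u ≤ α + 1 → κ * u + ρ ≤ (κ + ρ) * (α + 1) := by
      intro κ ρ hκ hρ u hu
      have h1 : κ * u ≤ κ * (α + 1) := by gcongr
      have h2 : 0 ≤ ρ * α := by positivity
      linarith
    -- the number of cells
    obtain ⟨E, hE⟩ : ∃ E, E = Real.exp (0.2 * τ * b) := ⟨_, rfl⟩
    have hE1 : 1 ≤ E := by rw [hE]; exact Real.one_le_exp (by positivity)
    have hE0 : 0 < E := by linarith
    obtain ⟨q, hq⟩ : ∃ q : ℕ, q = ⌊k' * E⌋₊ := ⟨_, rfl⟩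
    have hbE : 1 ≤ k' * E := by nlinarith
    have hq1 : (q : ℝ) ≤ k' * E := by rw [hq]; exact Nat.floor_le (by positivity)
    have hq2 : k' * E / 2 ≤ q := by
      have := Nat.lt_floor_add_one (k' * E)
      have h3 : 1 ≤ ⌊k' * E⌋₊ := Nat.le_floor (by exact_mod_cast hbE)
      have h4 : (1 : ℝ) ≤ ⌊k' * E⌋₊ := by exact_mod_cast h3
      rw [hq]
      linarith
    have hq0 : (0 : ℝ) < q := lt_of_lt_of_le (by positivity) hq2
    have hqn : 0 < q := by exact_mod_cast hq0
    have hbq1 : 1 / E ≤ k' / q := by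
      rw [div_le_div_iff₀ hE0 hq0]
      linarith
    have hbq2 : k' / q ≤ 2 * (1 / E) := by
      rw [div_le_iff₀ hq0]
      calc k' = 2 * (1 / E) * (k' * E / 2) := by field_simp
        _ ≤ _ := by gcongr
    obtain ⟨V, hV⟩ : ∃ V, V = K₀ * Real.exp (a * (α + 1)) := ⟨_, rfl⟩
    have hV0 : 0 < V := by rw [hV]; positivity
    have hexpa : Real.exp (-a) ≤ 1 / a := by
      rw [Real.exp_neg, ← one_div]
      apply one_div_le_one_div_of_le ha0
      have := Real.add_one_le_exp a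
      linarith
    have e5 : a * (α + 2) ≤ 0.19 * τ * b := by
      have e6 : R * (0.19 * τ) = (α + 2) + 0.19 * τ := by
        rw [hR]
        field_simp
      have e7 : R * a * (0.19 * τ) ≤ b * (0.19 * τ) := by gcongr
      nlinarith
    have hVE : V * (1 / E) ≤ K₀ / a := by
      have e6 : 1 / E ≤ Real.exp (-(a * (α + 2))) := by
        rw [hE, one_div, ← Real.exp_neg]
        apply Real.exp_le_exp.2
        have : 0 < τ * b := by positivity
        linarith
      have e7 : Real.exp (a * (α + 1)) * Real.exp (-(a * (α + 2))) = Real.exp (-a) := by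
        rw [← Real.exp_add]; congr 1; ring
      calc V * (1 / E) ≤ V * Real.exp (-(a * (α + 2))) := by gcongr
        _ = K₀ * (Real.exp (a * (α + 1)) * Real.exp (-(a * (α + 2)))) := by rw [hV]; ring
        _ = K₀ * Real.exp (-a) := by rw [e7]
        _ ≤ K₀ * (1 / a) := by gcongr
        _ = K₀ / a := by ring
    have hKa : K₀ / a ≤ K₀ := div_le_self hK₀0.le ha
    obtain ⟨κ, hκ⟩ : ∃ κ, κ = 12 * Real.exp (-(0.19 * τ * b)) := ⟨_, rfl⟩
    have hκ0 : 0 < κ := by rw [hκ]; positivity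
    have hκa : κ ≤ 12 / a := by
      have e6 : Real.exp (-(0.19 * τ * b)) ≤ Real.exp (-a) := by
        apply Real.exp_le_exp.2
        nlinarith
      rw [hκ]
      calc 12 * Real.exp (-(0.19 * τ * b)) ≤ 12 * (1 / a) := by
            have := e6.trans hexpa
            gcongr
        _ = 12 / a := by ring
    have hVF : ∀ F : ℝ → ℝ, (∀ s, 0 ≤ s → 0 ≤ F s) → (∀ s, 0 ≤ s → F s ≤ 4 * (1 + H 0) * Real.exp s) →
        F (k * (α + 1) + β) - F (k * α + β) ≤ V := by
      intro F h1 h2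
      have h3 := h1 (k * α + β) (by positivity)
      have h4 := h2 (k * (α + 1) + β) (by positivity)
      have h5 : k * (α + 1) + β ≤ a * (α + 1) := by rw [haa]; exact hupp k β hk0.le hβ (α + 1) le_rfl
      have h6 : 4 * (1 + H 0) * Real.exp (k * (α + 1) + β) ≤ V := by
        calc 4 * (1 + H 0) * Real.exp (k * (α + 1) + β) ≤ 4 * (1 + H 0) * Real.exp (a * (α + 1)) := by gcongr
          _ = V := by rw [hV, hK₀]
      linarith
    have hfin := cut (f := fun u => PH H t (k * u + β)) (g := fun u => PH H t (k' * u + β')) (f₁ := fun u => P1 H t (k * u + β))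
      (f₂ := fun u => P2 H t (k * u + β)) (α := α) (M := 1) (V := V)
      (κ := κ) (q := q) ((PH_meas hT).comp ((measurable_id.const_mul k).add_const β))
      ((PH_meas hT).comp ((measurable_id.const_mul k').add_const β')) hqn
      (fun u _ _ => PH_abs hT _) (fun u _ _ => PH_abs hT _) (fun u h1 h2 => by
        have hu : 0 < u := by linarith
        exact P12 hT (by positivity)) (fun u v h1 h2 h3 => by
        have hu : 0 < u := by linarith
        exact P1_mono hT (by positivity) (by gcongr)) (fun u v h1 h2 h3 => by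
        have hu : 0 < u := by linarith
        exact P2_mono hT (by positivity) (by gcongr))
      (hVF (P1 H t) (fun s _ => P1_nn H t s) (fun s hs => P1_le hT hs))
      (hVF (P2 H t) (fun s _ => P2_nn H t s) (fun s hs => P2_le hT hs)) ?_ (by norm_num) hκ0.le
    · refine hfin.trans ?_
      have m1 : ∫ u in α..(α + 1), |PH H t (k * u + β)| ≤ 1 := by
        have hm : Measurable fun u => PH H t (k * u + β) := (PH_meas hT).comp ((measurable_id.const_mul k).add_const β)
        have h1 : ∫ u in α..(α + 1), |PH H t (k * u + β)| ≤ ∫ u in α..(α + 1), (1 : ℝ) :=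
          intervalIntegral.integral_mono_on (by linarith) (ii_of_bdd hm (by linarith) (C := 1) fun x _ _ => PH_abs hT _).abs
            _root_.intervalIntegrable_const fun u _ => PH_abs hT _
        rw [intervalIntegral.integral_const, smul_eq_mul] at h1
        linarith
      have hqk : 1 / (q : ℝ) ≤ k' / q := by gcongr
      have hqE : 1 / (q : ℝ) ≤ 2 * (1 / E) := hqk.trans hbq2
      have q1 : 2 * V * (1 / q) ≤ 4 * (K₀ / a) := by
        calc 2 * V * (1 / q) ≤ 2 * V * (2 * (1 / E)) := by gcongr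
          _ = 4 * (V * (1 / E)) := by ring
          _ ≤ 4 * (K₀ / a) := by gcongr
      calc κ * ((∫ u in α..(α + 1), |PH H t (k * u + β)|) + 2 * V * (1 / q)) + 2 * V * (1 * (1 / q))
          ≤ 12 / a * (1 + 4 * K₀) + 4 * (K₀ / a) := by
            have h1 : 2 * V * (1 / q) ≤ 4 * K₀ := by linarith
            have m0 : 0 ≤ ∫ u in α..(α + 1), |PH H t (k * u + β)| :=
              intervalIntegral.integral_nonneg (by linarith) fun u _ => abs_nonneg _
            have h2 : 0 ≤ 2 * V * (1 / (q : ℝ)) := by positivity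
            have h3 : 0 ≤ (∫ u in α..(α + 1), |PH H t (k * u + β)|) + 2 * V * (1 / q) := add_nonneg m0 h2
            rw [one_mul]
            gcongr
        _ = _ := by ring
    · -- mean values
      intro u h1 h2
      have hu0 : 0 < u := by linarith
      have hqpos : 0 < 1 / (q : ℝ) := by positivity
      obtain ⟨y, hy⟩ : ∃ y, y = k' * u + β' := ⟨_, rfl⟩
      have hyl : b * τ ≤ y := by rw [hy, hbb]; exact hlow k' β' hk'0.le hβ' u h1
      have hy0 : 0 < y := by linarith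
      have hkq : 0 ≤ k' * (1 / (q : ℝ)) := by positivity
      have g2 := int_any hT (y := y) (z := y + k' * (1 / q)) (by linarith) (by linarith)
      have e1 : ∫ v in u..(u + 1 / q), PH H t (k' * v + β') = k'⁻¹ * ∫ s in y..(y + k' * (1 / q)), PH H t s := by
        rw [intervalIntegral.integral_comp_mul_add (fun s => PH H t s) hk'0.ne', smul_eq_mul, hy]
        congr 2
        ring
      show |∫ v in u..(u + 1 / q), PH H t (k' * v + β')| ≤ _
      rw [e1, abs_mul, abs_of_pos (by positivity : 0 < k'⁻¹)]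
      have e2 : Real.exp (-(0.39 * y)) ≤ Real.exp (-(0.19 * τ * b)) * (1 / E) := by
        rw [hE, one_div, ← Real.exp_neg, ← Real.exp_add]
        exact Real.exp_le_exp.2 (by linarith)
      calc k'⁻¹ * |∫ s in y..(y + k' * (1 / q)), PH H t s| ≤ k'⁻¹ * (12 * Real.exp (-(0.39 * y))) := by gcongr
        _ ≤ k'⁻¹ * (12 * (Real.exp (-(0.19 * τ * b)) * (1 / E))) := by gcongr
        _ = κ * (1 / E) * k'⁻¹ := by rw [hκ]; ring
        _ ≤ κ * (k' / q) * k'⁻¹ := by gcongr
        _ = κ * (1 / q) := by field_simp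

open Classical in
/-- the second moment -/
theorem secondP {H : ℝ → ℝ} {t : ℝ → ℕ} (hT : Thr H t) {k β : ℕ → ℝ} {C : ℝ} (hk : ∀ n, 1 ≤ k n) (hβ : ∀ n, 0 ≤ β n) (hC : 0 ≤ C)
    {α : ℝ} (hα : 0 < α) : ∃ K : ℝ, 0 < K ∧ ∀ w : ℕ → ℝ, (∀ n, 0 ≤ w n) → Blocks (fun n => k n + β n) w C → ∀ N : ℕ,
      ∫ u in α..(α + 1), (∑ n ∈ range N, w n * PH H t (k n * u + β n)) ^ 2 ≤ K * ∑ n ∈ range N, w n := by
  obtain ⟨C₁, R, hC₁, hR, hcov⟩ := covP hT hα
  obtain ⟨L, hL⟩ := pow_unbounded_of_one_lt (R * R) (show (1 : ℝ) < 2 by norm_num)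
  obtain ⟨C₃, hC₃d⟩ : ∃ C₃, C₃ = (L : ℝ) * C := ⟨_, rfl⟩
  have hC₃ : 0 ≤ C₃ := by rw [hC₃d]; positivity
  refine ⟨C₃ + 2 * (C₁ * (2 * C)) + 1, by positivity, fun w hw hB N => ?_⟩
  obtain ⟨v, hvd⟩ : ∃ v : ℕ → ℝ, v = fun n => k n + β n := ⟨_, rfl⟩
  have hvn : ∀ n, v n = k n + β n := fun n => by rw [hvd]
  rw [← hvd] at hB
  have hv : ∀ n, 1 ≤ v n := fun n => by rw [hvn]; linarith [hk n, hβ n]
  have hnear : ∀ N m : ℕ, ∑ n ∈ (range N).filter (fun n => v n ≤ R * v m ∧ v m ≤ R * v n), w n ≤ C₃ := by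
    intro N m
    rw [hC₃d]
    exact hB.near hv hw hR hL N m
  have hii : ∀ n m, IntervalIntegrable (fun u => PH H t (k n * u + β n) * PH H t (k m * u + β m)) volume α (α + 1) := fun n m =>
    PH_prod_ii hT α _ _ _ _
  have hI : ∀ n m, |∫ u in α..(α + 1), PH H t (k n * u + β n) * PH H t (k m * u + β m)| ≤
      (if v n ≤ R * v m ∧ v m ≤ R * v n then 1 else 0) + (C₁ / v n + C₁ / v m) := by
    intro n m
    have h1 := hv n
    have h2 := hv m
    have p1 : 0 < C₁ / v n := by positivity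
    have p2 : 0 < C₁ / v m := by positivity
    split_ifs with h
    · have h3 := PH_prod hT α (k n) (β n) (k m) (β m)
      linarith
    · rw [not_and_or, not_le, not_le] at h
      rw [zero_add]
      rcases h with h | h
      · have := hcov (k m) (β m) (k n) (β n) (hk m) (hβ m) (hk n) (hβ n) (by rw [← hvn, ← hvn]; exact h.le)
        rw [← hvn] at this
        have e : ∫ u in α..(α + 1), PH H t (k n * u + β n) * PH H t (k m * u + β m) =
            ∫ u in α..(α + 1), PH H t (k m * u + β m) * PH H t (k n * u + β n) := by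
          congr 1
          ext u
          ring
        rw [e]
        linarith
      · have := hcov (k n) (β n) (k m) (β m) (hk n) (hβ n) (hk m) (hβ m) (by rw [← hvn, ← hvn]; exact h.le)
        rw [← hvn] at this
        linarith
  have e1 : ∫ u in α..(α + 1), (∑ n ∈ range N, w n * PH H t (k n * u + β n)) ^ 2 =
      ∑ n ∈ range N, ∑ m ∈ range N, w n * w m * ∫ u in α..(α + 1), PH H t (k n * u + β n) * PH H t (k m * u + β m) := by
    have e2 : ∀ u : ℝ, (∑ n ∈ range N, w n * PH H t (k n * u + β n)) ^ 2 =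
        ∑ n ∈ range N, ∑ m ∈ range N, w n * w m * (PH H t (k n * u + β n) * PH H t (k m * u + β m)) := by
      intro u
      rw [sq, sum_mul_sum]
      apply sum_congr rfl
      intro n _
      apply sum_congr rfl
      intro m _
      ring
    simp_rw [e2]
    have hs : ∀ n, IntervalIntegrable (fun u => ∑ m ∈ range N, w n * w m * (PH H t (k n * u + β n) * PH H t (k m * u + β m)))
        volume α (α + 1) := by
      intro n
      have h := IntervalIntegrable.sum (range N) (f := fun m u => w n * w m * (PH H t (k n * u + β n) * PH H t (k m * u + β m)))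
        (fun m _ => (hii n m).const_mul _)
      have e : (fun u => ∑ m ∈ range N, w n * w m * (PH H t (k n * u + β n) * PH H t (k m * u + β m))) =
          ∑ m ∈ range N, (fun u => w n * w m * (PH H t (k n * u + β n) * PH H t (k m * u + β m))) := by
        ext u
        rw [Finset.sum_apply]
      rw [e]
      exact h
    rw [intervalIntegral.integral_finsetSum (fun n _ => hs n)]
    apply sum_congr rfl
    intro n _
    rw [intervalIntegral.integral_finsetSum (fun m _ => (hii n m).const_mul _)]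
    apply sum_congr rfl
    intro m _
    rw [intervalIntegral.integral_const_mul]
  rw [e1]
  have e3 : ∀ n ∈ range N, ∀ m ∈ range N, w n * w m * ∫ u in α..(α + 1), PH H t (k n * u + β n) * PH H t (k m * u + β m) ≤
      w n * (if v m ≤ R * v n ∧ v n ≤ R * v m then w m else 0) + (w n / v n * (C₁ * w m) + w m / v m * (C₁ * w n)) := by
    intro n _ m _
    have h1 : 0 ≤ w n * w m := mul_nonneg (hw n) (hw m)
    have h2 := (le_abs_self _).trans (hI n m)
    have hn := hv n
    have hm := hv m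
    refine (mul_le_mul_of_nonneg_left h2 h1).trans (le_of_eq ?_)
    by_cases h : v n ≤ R * v m ∧ v m ≤ R * v n
    · rw [if_pos h, if_pos ⟨h.2, h.1⟩]
      field_simp
    · rw [if_neg h, if_neg (fun h' => h ⟨h'.2, h'.1⟩)]
      field_simp
      ring
  refine (sum_le_sum fun n hn => sum_le_sum fun m hm => e3 n hn m hm).trans ?_
  obtain ⟨S, hS⟩ : ∃ S, S = ∑ n ∈ range N, w n := ⟨_, rfl⟩
  have hS0 : 0 ≤ S := by rw [hS]; exact sum_nonneg fun n _ => hw n
  obtain ⟨T, hT⟩ : ∃ T, T = ∑ n ∈ range N, w n / v n := ⟨_, rfl⟩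
  have hTC : T ≤ 2 * C := by rw [hT]; exact hB.div hv hw N
  have e4 : ∑ n ∈ range N, ∑ m ∈ range N, (w n * (if v m ≤ R * v n ∧ v n ≤ R * v m then w m else 0) +
      (w n / v n * (C₁ * w m) + w m / v m * (C₁ * w n))) =
      ∑ n ∈ range N, (w n * (∑ m ∈ (range N).filter (fun m => v m ≤ R * v n ∧ v n ≤ R * v m), w m) +
        (w n / v n * (C₁ * S) + T * (C₁ * w n))) := by
    apply sum_congr rfl
    intro n _
    rw [sum_add_distrib, sum_add_distrib, ← mul_sum, ← mul_sum, ← mul_sum, ← sum_mul, ← hS, ← hT, sum_filter]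
  rw [e4]
  have e5 : ∀ n ∈ range N, w n * (∑ m ∈ (range N).filter (fun m => v m ≤ R * v n ∧ v n ≤ R * v m), w m) +
        (w n / v n * (C₁ * S) + T * (C₁ * w n)) ≤ w n * C₃ + (w n / v n * (C₁ * S) + T * (C₁ * w n)) := by
    intro n _
    have := hnear N n
    have := hw n
    gcongr
  refine (sum_le_sum e5).trans ?_
  rw [sum_add_distrib, sum_add_distrib, ← sum_mul, ← sum_mul, ← mul_sum, ← mul_sum, ← hS, ← hT]
  have e6 : T * (C₁ * S) ≤ 2 * C * (C₁ * S) := by gcongr
  nlinarith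

end Pool.Agent.H40E9.GP
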