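import Pool.Agent.H40E9.GP.PP3

/-!
# A positive proportion of generic points has a prime nearby
-/

set_option autoImplicit false

namespace Pool.Agent.H40E9.GP

open Finset Filter Topology MeasureTheory Pool.Agent.U26Z.DX
open scoped ENNReal NNReal

theorem ppiece {H : ℝ → ℝ} {t : ℝ → ℕ} (hT : Thr H t) {k β w : ℕ → ℝ} {C : ℝ} (hk : ∀ n, 1 ≤ k n)
    (hβ : ∀ n, 0 ≤ β n) (hw : ∀ n, 0 ≤ w n) (hB : Blocks (fun n => k n + β n) w C)
    (hW : Tendsto (fun N => ∑ n ∈ range N, w n) atTop atTop) {α : ℝ} (hα : 0 < α) :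
    ∀ᵐ u : ℝ, u ∈ Set.Ioc α (α + 1) → ∃ c : ℝ, ∀ᶠ N : ℕ in atTop,
      |∑ n ∈ range N, w n * hh H t (k n * u + β n) - ∑ n ∈ range N, w n * mm H t (k n * u + β n)| ≤
        c * (√(∑ n ∈ range N, w n) * Real.log (∑ n ∈ range N, w n) ^ 2) := by
  obtain ⟨K, hK, h2⟩ := secondP hT hk hβ hB.nonneg hα
  rw [← ae_restrict_iff' measurableSet_Ioc]
  refine gk2 (A := fun N u => ∑ n ∈ range N, w n * hh H t (k n * u + β n))
    (M := fun N u => ∑ n ∈ range N, w n * mm H t (k n * u + β n)) (W := fun N => ∑ n ∈ range N, w n) (K := K) (C := C)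
    ?_ ?_ (by simp) (by simp) ?_ (by simp) ?_ ?_ hW hK.le hB.nonneg ?_
  · intro N
    exact Finset.measurable_sum _ fun n _ => ((hh_meas hT).comp ((measurable_id.const_mul _).add_const _)).const_mul _
  · intro N
    exact Finset.measurable_sum _ fun n _ => ((mm_meas H t).comp ((measurable_id.const_mul _).add_const _)).const_mul _
  · filter_upwards with u N
    rw [sum_range_succ, sum_range_succ, sum_range_succ]
    have h3 := mul_nonneg (hw N) (hh_nn H t (k N * u + β N))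
    have h4 := mul_nonneg (hw N) (mv_nn H t (ix (k N * u + β N)))
    have h5 := mul_le_mul_of_nonneg_left (mv_le hT (ix (k N * u + β N))) (hw N)
    refine ⟨by linarith, ?_, ?_⟩
    · unfold mm
      linarith
    · unfold mm
      linarith
  · intro N
    rw [sum_range_succ]
    linarith [hw N]
  · intro N
    rw [sum_range_succ]
    linarith [hB.le (fun n => by linarith [hk n, hβ n]) hw N]
  · intro M N hMN
    obtain ⟨w', hw'⟩ : ∃ w' : ℕ → ℝ, w' = fun n => if M ≤ n then w n else 0 := ⟨_, rfl⟩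
    have hw'0 : ∀ n, 0 ≤ w' n := by
      intro n
      rw [hw']
      show 0 ≤ if M ≤ n then w n else 0
      split_ifs
      · exact hw n
      · exact le_rfl
    have hw'le : ∀ n, w' n ≤ w n := by
      intro n
      rw [hw']
      show (if M ≤ n then w n else 0) ≤ w n
      split_ifs
      · exact le_rfl
      · exact hw n
    have hB' : Blocks (fun n => k n + β n) w' C := fun V hV N => (sum_le_sum fun n _ => hw'le n).trans (hB V hV N)
    have hs : ∑ n ∈ range N, w' n = ∑ n ∈ range N, w n - ∑ n ∈ range M, w n := by rw [hw']; exact sum_cut hMN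
    have e1 : ∀ u : ℝ, (∑ n ∈ range N, w n * hh H t (k n * u + β n)) - (∑ n ∈ range M, w n * hh H t (k n * u + β n)) -
        ((∑ n ∈ range N, w n * mm H t (k n * u + β n)) - ∑ n ∈ range M, w n * mm H t (k n * u + β n)) =
        ∑ n ∈ range N, w' n * PH H t (k n * u + β n) := by
      intro u
      rw [← sum_cut hMN, ← sum_cut hMN, ← sum_sub_distrib, hw']
      apply sum_congr rfl
      intro n _
      show (if M ≤ n then w n * hh H t (k n * u + β n) else 0) - (if M ≤ n then w n * mm H t (k n * u + β n) else 0) =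
        (if M ≤ n then w n else 0) * PH H t (k n * u + β n)
      unfold PH
      split_ifs
      · ring
      · ring
    simp_rw [e1]
    have hmeas : Measurable fun u => ∑ n ∈ range N, w' n * PH H t (k n * u + β n) :=
      Finset.measurable_sum _ fun n _ => ((PH_meas hT).comp ((measurable_id.const_mul _).add_const _)).const_mul _
    have hb : ∀ u : ℝ, |∑ n ∈ range N, w' n * PH H t (k n * u + β n)| ≤ ∑ n ∈ range N, w' n * 1 := by
      intro u
      refine (abs_sum_le_sum_abs _ _).trans ?_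
      apply sum_le_sum
      intro n _
      rw [abs_mul, abs_of_nonneg (hw'0 n)]
      exact mul_le_mul_of_nonneg_left (PH_abs hT _) (hw'0 n)
    have hint : IntegrableOn (fun u => (∑ n ∈ range N, w' n * PH H t (k n * u + β n)) ^ 2) (Set.Ioc α (α + 1)) := by
      apply Measure.integrableOn_of_bounded (M := (∑ n ∈ range N, w' n * 1) ^ 2) measure_Ioc_lt_top.ne
        (hmeas.pow_const 2).aestronglyMeasurable
      rw [ae_restrict_iff' measurableSet_Ioc]
      filter_upwards with u hu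
      rw [Real.norm_eq_abs, abs_pow]
      exact pow_le_pow_left₀ (abs_nonneg _) (hb u) 2
    rw [← ofReal_integral_eq_lintegral_ofReal hint (by
      filter_upwards with u
      positivity)]
    apply ENNReal.ofReal_le_ofReal
    rw [← intervalIntegral.integral_of_le (by linarith), ← hs]
    exact h2 w' hw'0 hB' N

theorem plog {H : ℝ → ℝ} {t : ℝ → ℕ} (hT : Thr H t) {k β w : ℕ → ℝ} {C : ℝ} (hk : ∀ n, 1 ≤ k n)
    (hβ : ∀ n, 0 ≤ β n) (hw : ∀ n, 0 ≤ w n) (hB : Blocks (fun n => k n + β n) w C)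
    (hW : Tendsto (fun N => ∑ n ∈ range N, w n) atTop atTop) :
    ∀ᵐ u : ℝ, 0 < u → ∃ c : ℝ, ∀ᶠ N : ℕ in atTop,
      |∑ n ∈ range N, w n * hh H t (k n * u + β n) - ∑ n ∈ range N, w n * mm H t (k n * u + β n)| ≤
        c * (√(∑ n ∈ range N, w n) * Real.log (∑ n ∈ range N, w n) ^ 2) := by
  have h : ∀ᵐ u : ℝ, ∀ m i : ℕ, u ∈ Set.Ioc ((i : ℝ) + 1 / ((m : ℝ) + 1)) ((i : ℝ) + 1 / ((m : ℝ) + 1) + 1) →
      ∃ c : ℝ, ∀ᶠ N : ℕ in atTop,
      |∑ n ∈ range N, w n * hh H t (k n * u + β n) - ∑ n ∈ range N, w n * mm H t (k n * u + β n)| ≤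
        c * (√(∑ n ∈ range N, w n) * Real.log (∑ n ∈ range N, w n) ^ 2) := by
    rw [ae_all_iff]
    intro m
    rw [ae_all_iff]
    intro i
    exact ppiece hT hk hβ hw hB hW (by positivity)
  filter_upwards [h] with u hu h0
  obtain ⟨m, hm⟩ := exists_nat_one_div_lt h0
  obtain ⟨i, hi⟩ : ∃ i : ℕ, i = ⌈u - 1 / ((m : ℝ) + 1)⌉₊ - 1 := ⟨_, rfl⟩
  have hpos : 0 < u - 1 / ((m : ℝ) + 1) := by linarith
  have h1 : 1 ≤ ⌈u - 1 / ((m : ℝ) + 1)⌉₊ := Nat.ceil_pos.2 hpos
  have h2 : ((i : ℕ) : ℝ) + 1 = ⌈u - 1 / ((m : ℝ) + 1)⌉₊ := by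
    rw [hi, Nat.cast_sub h1]
    push_cast
    ring
  have h3 := Nat.le_ceil (u - 1 / ((m : ℝ) + 1))
  have h4 := Nat.ceil_lt_add_one hpos.le
  exact hu m i ⟨by linarith, by linarith⟩

/-- there is a prime strictly between `x` and `x + K log x` -/
def Hit (K x : ℝ) : Prop := ∃ p : ℕ, p.Prime ∧ x < p ∧ (p : ℝ) < x + K * Real.log x

theorem hit_of {K x : ℝ} (hK : 0 < K) (hx : 1 < x) (h : 0 < primesIn x (K / 2 * Real.log x)) : Hit K x := by
  unfold primesIn at h
  rw [card_pos] at h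
  obtain ⟨p, hp⟩ := h
  rw [mem_filter, mem_Ioc] at hp
  obtain ⟨⟨h1, h2⟩, h3⟩ := hp
  have hlog : 0 < Real.log x := Real.log_pos hx
  refine ⟨p, h3, (Nat.floor_lt (by linarith)).1 h1, ?_⟩
  have h4 : (p : ℝ) ≤ x + K / 2 * Real.log x := (Nat.le_floor_iff (by positivity)).1 h2
  have h5 : 0 < K * Real.log x := by positivity
  linarith

/-- the lengths of the second kind: `g x / log x` nondecreasing, `g x / x` nonincreasing, `lam log x ≤ g x ≤ x ^ 0.59`,
for all large `x` -/
def Window2 (lam : ℝ) (g : ℝ → ℝ) : Prop :=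
  ∃ x₀ : ℝ, ∀ x y : ℝ, x₀ ≤ x → x ≤ y →
    g x / Real.log x ≤ g y / Real.log y ∧ g y / y ≤ g x / x ∧ lam * Real.log x ≤ g x ∧ g x ≤ x ^ (0.59 : ℝ)

theorem window_of {lam : ℝ} (hlam : 0 < lam) {g : ℝ → ℝ} (h : Window2 lam g) : Window g := by
  obtain ⟨x₀, hx⟩ := h
  refine ⟨lam, max x₀ (Real.exp 1), hlam, fun x y h1 h2 => ?_⟩
  have hxe : Real.exp 1 ≤ x := (le_max_right _ _).trans h1
  have hx0 : 0 < x := (Real.exp_pos 1).trans_le hxe
  obtain ⟨g1, g2, g3, g4⟩ := hx x y ((le_max_left _ _).trans h1) h2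
  have hlx : 1 ≤ Real.log x := by rw [Real.le_log_iff_exp_le hx0]; exact hxe
  have hly : Real.log x ≤ Real.log y := Real.log_le_log hx0 h2
  refine ⟨?_, g2, g3, g4⟩
  have hg : 0 ≤ g x / Real.log x := div_nonneg (by nlinarith) (by linarith)
  calc g x = g x / Real.log x * Real.log x := by field_simp
    _ ≤ g y / Real.log y * Real.log y := mul_le_mul g1 hly (by linarith) (hg.trans g1)
    _ = g y := by
        have : Real.log y ≠ 0 := by linarith
        field_simp

/-- the threshold -/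
noncomputable def th (δ : ℝ) (g : ℝ → ℝ) (x₁ s : ℝ) : ℕ := ⌈(1 - δ) * (g (max (Real.exp s) x₁) / Real.log (max (Real.exp s) x₁))⌉₊

theorem thr {lam δ : ℝ} (hδ : 0 < δ) (hδ1 : δ ≤ 1) {g : ℝ → ℝ} {x₀ x₁ : ℝ}
    (hx : ∀ x y : ℝ, x₀ ≤ x → x ≤ y → g x / Real.log x ≤ g y / Real.log y ∧ g y / y ≤ g x / x ∧ lam * Real.log x ≤ g x ∧
      g x ≤ x ^ (0.59 : ℝ)) (h01 : x₀ ≤ x₁) (he : Real.exp 1 ≤ x₁) (hW : Win (fun s => g (max (Real.exp s) x₁))) :
    Thr (fun s => g (max (Real.exp s) x₁)) (th δ g x₁) := by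
  have hge : ∀ s, x₁ ≤ max (Real.exp s) x₁ := fun s => le_max_right _ _
  have hlog : ∀ s, 1 ≤ Real.log (max (Real.exp s) x₁) := fun s => by
    rw [Real.le_log_iff_exp_le ((Real.exp_pos 1).trans_le (he.trans (hge s)))]
    exact he.trans (hge s)
  have hmono : Monotone fun s => (1 - δ) * (g (max (Real.exp s) x₁) / Real.log (max (Real.exp s) x₁)) := by
    intro s s' hss
    apply mul_le_mul_of_nonneg_left _ (by linarith)
    exact (hx _ _ (h01.trans (hge s)) (max_le_max (Real.exp_le_exp.2 hss) le_rfl)).1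
  refine ⟨hW, fun s s' _ hss => Nat.ceil_le_ceil (hmono hss), fun s hs => ?_, ?_⟩
  · have h1 := hW.one s hs
    have h2 := hW.lip 0 s le_rfl hs
    rw [sub_zero] at h2
    have hl := hlog s
    obtain ⟨G, hG⟩ : ∃ G, G = g (max (Real.exp s) x₁) := ⟨_, rfl⟩
    obtain ⟨l, hl'⟩ : ∃ l, l = Real.log (max (Real.exp s) x₁) := ⟨_, rfl⟩
    unfold th
    rw [← hG, ← hl']
    rw [← hG] at h1 h2
    rw [← hl'] at hl
    have h3 : 0 ≤ (1 - δ) * (G / l) := mul_nonneg (by linarith) (div_nonneg (by linarith) (by linarith))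
    have h4 := Nat.ceil_lt_add_one h3
    have h5 : (1 - δ) * (G / l) ≤ G := by
      have h6 : G / l ≤ G := div_le_self (by linarith) hl
      have h7 : 0 ≤ G / l := div_nonneg (by linarith) (by linarith)
      nlinarith
    have h8 : Real.exp s * g (max (Real.exp 0) x₁) = g (max (Real.exp 0) x₁) * Real.exp s := mul_comm _ _
    linarith
  · exact Nat.measurable_ceil.comp hmono.measurable

/-- at least `(1 - δ) g x / log x` primes in `(x, x + g x]` -/
def Many (δ : ℝ) (g : ℝ → ℝ) (x : ℝ) : Prop := (1 - δ) * (g x / Real.log x) ≤ (primesIn x (g x) : ℝ)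

open Classical in
/-- **A positive proportion of generic points.** -/
theorem pp {lam δ : ℝ} (hlam : 0 < lam) (hδ : 0 < δ) (hδ1 : δ ≤ 1) : ∃ c : ℝ, 0 < c ∧ ∀ g : ℝ → ℝ, Window2 lam g →
    ∀ (k b w : ℕ → ℝ) (C : ℝ), (∀ n, 1 ≤ k n) → (∀ n, 1 ≤ b n) →
    (∀ n, 0 ≤ w n) → Tendsto (fun n => k n + Real.log (b n)) atTop atTop → Blocks (fun n => k n + Real.log (b n)) w C →
    Tendsto (fun N => ∑ n ∈ range N, w n) atTop atTop →
    ∀ᵐ a : ℝ, 1 < a → ∀ᶠ N : ℕ in atTop,
      c * ∑ n ∈ range N, w n ≤ ∑ n ∈ (range N).filter (fun n => Many δ g (b n * a ^ k n)), w n := by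
  obtain ⟨c₀, hc₀, hmm⟩ := mm_ge hlam hδ hδ1
  refine ⟨c₀ / 4, by positivity, fun g hg k b w C hk hb hw hs hB hW => ?_⟩
  have hwin := window_of hlam hg
  obtain ⟨x₀, hx⟩ := hg
  obtain ⟨x₁, hx₁, h01, hH⟩ := win hwin x₀
  have hT := thr hδ hδ1 hx h01 hx₁ hH
  obtain ⟨H, hHd⟩ : ∃ H : ℝ → ℝ, H = fun s => g (max (Real.exp s) x₁) := ⟨_, rfl⟩
  obtain ⟨t, htd⟩ : ∃ t : ℝ → ℕ, t = th δ g x₁ := ⟨_, rfl⟩
  rw [← hHd, ← htd] at hT
  have hx₁0 : 0 < x₁ := (Real.exp_pos 1).trans_le hx₁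
  have hexp : ∀ s, Real.log x₁ ≤ s → max (Real.exp s) x₁ = Real.exp s := by
    intro s hs
    apply max_eq_left
    rw [← Real.exp_log hx₁0]
    exact Real.exp_le_exp.2 hs
  have hkey : ∀ s, Real.log x₁ ≤ s → (t s ≤ primesIn (Real.exp s) (H s) ↔ Many δ g (Real.exp s)) := by
    intro s hs
    unfold Many
    rw [htd, hHd]
    unfold th
    simp only [hexp s hs]
    rw [Nat.ceil_le]
  have hlow2 : ∀ᶠ s in atTop, lam * s ≤ H s := by
    filter_upwards [eventually_ge_atTop (Real.log x₁)] with s hs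
    have h1 : x₁ ≤ Real.exp s := by
      rw [← Real.exp_log hx₁0]
      exact Real.exp_le_exp.2 hs
    rw [hHd]
    simp only [hexp s hs]
    have := (hx (Real.exp s) (Real.exp s) (h01.trans h1) le_rfl).2.2.1
    rwa [Real.log_exp] at this
  have hthr : ∀ᶠ s in atTop, 1 - δ ≤ Fh H s → t s ≤ primesIn (Real.exp s) (H s) := by
    filter_upwards [eventually_ge_atTop (Real.log x₁), eventually_ge_atTop (1 : ℝ)] with s hs hs1 hF
    rw [hkey s hs]
    unfold Many
    have h1 := hT.W.one s (by linarith)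
    rw [Fh_eq, le_div_iff₀ (by linarith)] at hF
    have e : H s = g (Real.exp s) := by rw [hHd]; simp only [hexp s hs]
    rw [e] at hF
    rw [Real.log_exp, ← mul_div_assoc, div_le_iff₀ (by linarith)]
    exact hF
  obtain ⟨Y₁, hmm⟩ := hmm H t hT hlow2 hthr
  have hβ : ∀ n, 0 ≤ Real.log (b n) := fun n => Real.log_nonneg (hb n)
  have h := plog hT hk hβ hw hB hW
  rw [ae_iff] at h ⊢
  have himg := MeasureTheory.addHaar_image_eq_zero_of_differentiableOn_of_addHaar_eq_zero (μ := (volume : Measure ℝ))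
    (f := Real.exp) (Real.differentiable_exp.differentiableOn) h
  refine measure_mono_null ?_ himg
  intro a ha
  simp only [Set.mem_ofPred_eq, Classical.not_imp] at ha
  obtain ⟨ha1, ha2⟩ := ha
  have ha0 : 0 < a := by linarith
  have hla : 0 < Real.log a := Real.log_pos ha1
  refine ⟨Real.log a, ?_, Real.exp_log ha0⟩
  simp only [Set.mem_ofPred_eq, Classical.not_imp]
  refine ⟨hla, fun hcon => ha2 ?_⟩
  obtain ⟨cst, hcst⟩ := hcon
  obtain ⟨y, hy⟩ : ∃ y : ℕ → ℝ, y = fun n => k n * Real.log a + Real.log (b n) := ⟨_, rfl⟩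
  have hyn : ∀ n, y n = k n * Real.log a + Real.log (b n) := fun n => by rw [hy]
  have e1 : ∀ n, b n * a ^ k n = Real.exp (y n) := fun n => by
    rw [hyn, Real.rpow_def_of_pos ha0, Real.exp_add, Real.exp_log (by linarith [hb n]), mul_comm (k n), mul_comm]
  have hytop : Tendsto y atTop atTop := by
    rw [hy]
    have h2 : Tendsto (fun n => min (Real.log a) 1 * (k n + Real.log (b n))) atTop atTop :=
      hs.const_mul_atTop (lt_min hla one_pos)
    refine tendsto_atTop_mono (fun n => ?_) h2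
    have g1 : min (Real.log a) 1 * k n ≤ Real.log a * k n := by
      apply mul_le_mul_of_nonneg_right (min_le_left _ _)
      linarith [hk n]
    have g2 : min (Real.log a) 1 * Real.log (b n) ≤ 1 * Real.log (b n) := mul_le_mul_of_nonneg_right (min_le_right _ _) (hβ n)
    linarith
  obtain ⟨n₀, hn₀⟩ := eventually_atTop.1 ((hytop.eventually_ge_atTop Y₁).and (hytop.eventually_ge_atTop (Real.log x₁)))
  -- the lower bound for the mean values
  obtain ⟨W₀, hW₀⟩ : ∃ W₀, W₀ = ∑ n ∈ range n₀, w n := ⟨_, rfl⟩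
  have hlow : ∀ N, n₀ ≤ N → c₀ * (∑ n ∈ range N, w n - W₀) ≤ ∑ n ∈ range N, w n * mm H t (y n) := by
    intro N hN
    have h1 : c₀ * (∑ n ∈ range N, w n - W₀) = ∑ n ∈ range N, (if n₀ ≤ n then c₀ * w n else 0) := by
      rw [sum_cut hN, ← mul_sum, ← mul_sum, hW₀]
      ring
    rw [h1]
    apply sum_le_sum
    intro n _
    split_ifs with h2
    · have := hmm (y n) (hn₀ n h2).1
      rw [mul_comm]
      exact mul_le_mul_of_nonneg_left this (hw n)
    · exact mul_nonneg (hw n) (mv_nn H t _)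
  -- the indicators
  have hupp : ∀ N, n₀ ≤ N → ∑ n ∈ range N, w n * hh H t (y n) ≤
      ∑ n ∈ (range N).filter (fun n => Many δ g (b n * a ^ k n)), w n + W₀ := by
    intro N hN
    have h1 : ∑ n ∈ range N, w n * hh H t (y n) ≤
        ∑ n ∈ range N, ((if Many δ g (b n * a ^ k n) then w n else 0) + (if n₀ ≤ n then 0 else w n)) := by
      apply sum_le_sum
      intro n _
      have h2 := hw n
      have h3 : w n * hh H t (y n) ≤ w n := by
        calc w n * hh H t (y n) ≤ w n * 1 := mul_le_mul_of_nonneg_left (hh_le H t _) h2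
          _ = w n := mul_one _
      by_cases h4 : n₀ ≤ n
      · rw [if_pos h4, add_zero]
        split_ifs with h5
        · exact h3
        · have h6 : hh H t (y n) = 0 := by
            unfold hh
            rw [if_neg]
            intro h7
            apply h5
            rw [e1]
            exact (hkey (y n) (hn₀ n h4).2).1 h7
          rw [h6, mul_zero]
      · rw [if_neg h4]
        split_ifs
        · linarith
        · linarith
    refine h1.trans (le_of_eq ?_)
    rw [sum_add_distrib, sum_filter]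
    congr 1
    have h2 : ∀ n, (if n₀ ≤ n then 0 else w n) = w n - (if n₀ ≤ n then w n else 0) := by
      intro n
      split_ifs <;> ring
    simp_rw [h2]
    rw [sum_sub_distrib, sum_cut hN, hW₀]
    ring
  have hsmall : ∀ᶠ V : ℝ in atTop, cst * (√V * Real.log V ^ 2) + c₀ * W₀ + W₀ ≤ c₀ / 4 * V := by
    have h3 := (isLittleO_log_rpow_rpow_atTop (2 : ℝ) (show (0 : ℝ) < 1 / 2 by norm_num)).tendsto_div_nhds_zero
    have h4 := h3.const_mul |cst|
    rw [mul_zero] at h4
    have h5 := h4.eventually_le_const (show (0 : ℝ) < c₀ / 8 by positivity)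
    filter_upwards [h5, eventually_ge_atTop (1 : ℝ), eventually_ge_atTop ((c₀ * W₀ + W₀) / (c₀ / 8))] with V g1 g2 g3
    have hV0 : 0 < V := by linarith
    rw [div_le_iff₀ (by positivity)] at g3
    have e3 : 0 < V ^ (1 / 2 : ℝ) := by positivity
    have e2 : V = V ^ (1 / 2 : ℝ) * V ^ (1 / 2 : ℝ) := by
      rw [← Real.rpow_add hV0]
      norm_num
    have e4 : Real.log V ^ (2 : ℝ) = Real.log V ^ 2 := by
      rw [show (2 : ℝ) = ((2 : ℕ) : ℝ) by norm_num, Real.rpow_natCast]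
    rw [e4, ← mul_div_assoc, div_le_iff₀ e3] at g1
    have g4 : cst * (√V * Real.log V ^ 2) ≤ c₀ / 8 * V := by
      have g5 : √V = V ^ (1 / 2 : ℝ) := Real.sqrt_eq_rpow V
      calc cst * (√V * Real.log V ^ 2) ≤ |cst| * (√V * Real.log V ^ 2) := by
            apply mul_le_mul_of_nonneg_right (le_abs_self _) (by positivity)
        _ = V ^ (1 / 2 : ℝ) * (|cst| * Real.log V ^ 2) := by rw [g5]; ring
        _ ≤ V ^ (1 / 2 : ℝ) * (c₀ / 8 * V ^ (1 / 2 : ℝ)) := by gcongr
        _ = c₀ / 8 * (V ^ (1 / 2 : ℝ) * V ^ (1 / 2 : ℝ)) := by ring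
        _ = c₀ / 8 * V := by rw [← e2]
    linarith
  filter_upwards [hcst, eventually_ge_atTop n₀, hW.eventually hsmall] with N g1 g2 g3
  have g4 := hlow N g2
  have g5 := hupp N g2
  have g6 := (abs_le.1 g1).1
  have e5 : ∑ n ∈ range N, w n * hh H t (k n * Real.log a + Real.log (b n)) = ∑ n ∈ range N, w n * hh H t (y n) := by
    apply sum_congr rfl
    intro n _
    rw [hyn]
  have e6 : ∑ n ∈ range N, w n * mm H t (k n * Real.log a + Real.log (b n)) = ∑ n ∈ range N, w n * mm H t (y n) := by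
    apply sum_congr rfl
    intro n _
    rw [hyn]
  rw [e5, e6] at g6
  have hWN : 0 ≤ ∑ n ∈ range N, w n := sum_nonneg fun n _ => hw n
  nlinarith

end Pool.Agent.H40E9.GP
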