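import Pool.Agent.H40E9.GP.PP4

/-!
# The intervals `(x, x + (log x) ^ 2)`
-/

set_option autoImplicit false

namespace Pool.Agent.H40E9.GP

open Finset Filter Topology MeasureTheory Pool.Agent.U26Z.DX
open scoped ENNReal NNReal

theorem window2_log2 (lam : ℝ) : Window2 lam (fun x => Real.log x ^ 2) := by
  have h1 : ∀ᶠ x : ℝ in atTop, Real.log x ^ 2 ≤ x ^ (0.59 : ℝ) := by
    have h := (isLittleO_log_rpow_rpow_atTop (2 : ℝ) (show (0 : ℝ) < 0.59 by norm_num)).def (show (0 : ℝ) < 1 by norm_num)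
    filter_upwards [h, eventually_ge_atTop (1 : ℝ)] with x hx hx1
    have e4 : Real.log x ^ (2 : ℝ) = Real.log x ^ 2 := by
      rw [show (2 : ℝ) = ((2 : ℕ) : ℝ) by norm_num, Real.rpow_natCast]
    rw [e4, Real.norm_eq_abs, Real.norm_eq_abs, abs_of_nonneg (by positivity), abs_of_nonneg (by positivity), one_mul] at hx
    exact hx
  obtain ⟨x₁, hx₁⟩ := eventually_atTop.1 h1
  refine ⟨max x₁ (max (Real.exp 2) (Real.exp lam)), fun x y hx hxy => ?_⟩
  have hx2 : Real.exp 2 ≤ x := (le_max_left _ _).trans ((le_max_right _ _).trans hx)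
  have hxl : Real.exp lam ≤ x := (le_max_right _ _).trans ((le_max_right _ _).trans hx)
  have hx0 : 0 < x := (Real.exp_pos 2).trans_le hx2
  have hy0 : 0 < y := hx0.trans_le hxy
  have hlog : Real.log x ≤ Real.log y := Real.log_le_log hx0 hxy
  have hl2 : 2 ≤ Real.log x := by rw [Real.le_log_iff_exp_le hx0]; exact hx2
  have hll : lam ≤ Real.log x := by rw [Real.le_log_iff_exp_le hx0]; exact hxl
  have e : ∀ z : ℝ, 2 ≤ Real.log z → Real.log z ^ 2 / Real.log z = Real.log z := by
    intro z hz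
    rw [sq, mul_div_assoc, div_self (by linarith), mul_one]
  refine ⟨?_, ?_, ?_, hx₁ x ((le_max_left _ _).trans hx)⟩
  · show Real.log x ^ 2 / Real.log x ≤ Real.log y ^ 2 / Real.log y
    rw [e x hl2, e y (hl2.trans hlog)]
    exact hlog
  · show Real.log y ^ 2 / y ≤ Real.log x ^ 2 / x
    have h2 := Real.log_div_sqrt_antitoneOn (show x ∈ {x : ℝ | Real.exp 2 ≤ x} from hx2)
      (show y ∈ {x : ℝ | Real.exp 2 ≤ x} from hx2.trans hxy) hxy
    have h3 : ∀ z : ℝ, 0 < z → Real.log z ^ 2 / z = (Real.log z / √z) ^ 2 := by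
      intro z hz
      rw [div_pow, Real.sq_sqrt hz.le]
    rw [h3 x hx0, h3 y hy0]
    apply pow_le_pow_left₀ _ h2
    exact div_nonneg (by linarith) (Real.sqrt_nonneg _)
  · show lam * Real.log x ≤ Real.log x ^ 2
    rw [sq]
    exact mul_le_mul_of_nonneg_right hll (by linarith)

/-- the number of primes strictly between `x` and `x + H` -/
noncomputable def between (x H : ℝ) : ℕ := {p : ℕ | p.Prime ∧ x < p ∧ (p : ℝ) < x + H}.ncard

theorem between_le {x H : ℝ} (hx : 0 ≤ x) (hH : 0 ≤ H) : between x H ≤ primesIn x H := by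
  unfold between primesIn
  rw [← Set.ncard_coe_finset]
  apply Set.ncard_le_ncard _ (Finset.finite_toSet _)
  rintro p ⟨h1, h2, h3⟩
  rw [Finset.mem_coe, mem_filter, mem_Ioc]
  exact ⟨⟨(Nat.floor_lt hx).2 h2, Nat.le_floor h3.le⟩, h1⟩

theorem le_between {x H : ℝ} (hx : 0 ≤ x) (hH : 0 ≤ H) : primesIn x H ≤ between x H + 1 := by
  classical
  have hfin : {p : ℕ | p.Prime ∧ x < p ∧ (p : ℝ) < x + H}.Finite := by
    apply (Set.finite_le_nat ⌊x + H⌋₊).subset
    rintro p ⟨h1, h2, h3⟩
    exact Nat.le_floor h3.le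
  have h : ((((Ioc ⌊x⌋₊ ⌊x + H⌋₊).filter Nat.Prime : Finset ℕ)) : Set ℕ) ⊆
      {p : ℕ | p.Prime ∧ x < p ∧ (p : ℝ) < x + H} ∪ {⌊x + H⌋₊} := by
    intro p hp
    rw [Finset.mem_coe, mem_filter, mem_Ioc] at hp
    obtain ⟨⟨h1, h2⟩, h3⟩ := hp
    have h4 : x < p := (Nat.floor_lt hx).1 h1
    have h5 : (p : ℝ) ≤ x + H := (Nat.le_floor_iff (by positivity)).1 h2
    rcases lt_or_eq_of_le h5 with h6 | h6
    · left
      exact ⟨h3, h4, h6⟩
    · right
      rw [Set.mem_singleton_iff, ← h6, Nat.floor_natCast]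
  unfold between primesIn
  rw [← Set.ncard_coe_finset]
  refine (Set.ncard_le_ncard h (hfin.union (Set.finite_singleton _))).trans ?_
  refine (Set.ncard_union_le _ _).trans ?_
  rw [Set.ncard_singleton]

/-- the sequences and the weights -/
def Adm (k b w : ℕ → ℝ) (C : ℝ) : Prop :=
  (∀ n, 1 ≤ k n) ∧ (∀ n, 1 ≤ b n) ∧ (∀ n, 0 ≤ w n) ∧ Tendsto (fun n => k n + Real.log (b n)) atTop atTop ∧
    Blocks (fun n => k n + Real.log (b n)) w C ∧ Tendsto (fun N => ∑ n ∈ range N, w n) atTop atTop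

/-- the mean number of the primes in the intervals `(x, x + (log x) ^ 2)` -/
theorem mean_I {k b w : ℕ → ℝ} {C : ℝ} (h : Adm k b w C) : ∀ᵐ a : ℝ, 1 < a →
    Mean (fun n => (between (b n * a ^ k n) (Real.log (b n * a ^ k n) ^ 2) : ℝ) / Real.log (b n * a ^ k n)) w := by
  obtain ⟨hk, hb, hw, hs, hB, hW⟩ := h
  have hlln := lln (window_of one_pos (window2_log2 1)) hk hb hs hw hB hW
  filter_upwards [hlln] with a ha h1
  obtain ⟨c, hc⟩ := ha h1
  have hla : 0 < Real.log a := Real.log_pos h1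
  have ha0 : 0 < a := by linarith
  obtain ⟨m, hm⟩ : ∃ m, m = min (Real.log a) 1 := ⟨_, rfl⟩
  have hm0 : 0 < m := by rw [hm]; exact lt_min hla one_pos
  have hv : ∀ n, 1 ≤ k n + Real.log (b n) := fun n => by
    have := Real.log_nonneg (hb n)
    linarith [hk n]
  have hx1 : ∀ n, 1 < b n * a ^ k n := fun n => by
    have h2 : 1 < a ^ k n := Real.one_lt_rpow h1 (by linarith [hk n])
    nlinarith [hb n]
  have hlog : ∀ n, m * (k n + Real.log (b n)) ≤ Real.log (b n * a ^ k n) := fun n => by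
    rw [Real.log_mul (by linarith [hb n]) (by positivity), Real.log_rpow ha0]
    have g1 : m * k n ≤ Real.log a * k n := by
      apply mul_le_mul_of_nonneg_right _ (by linarith [hk n])
      rw [hm]; exact min_le_left _ _
    have g2 : m * Real.log (b n) ≤ 1 * Real.log (b n) := by
      apply mul_le_mul_of_nonneg_right _ (Real.log_nonneg (hb n))
      rw [hm]; exact min_le_right _ _
    linarith
  have hdiff : ∀ N : ℕ, |∑ n ∈ range N, w n * ((between (b n * a ^ k n) (Real.log (b n * a ^ k n) ^ 2) : ℝ) / Real.log (b n * a ^ k n)) -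
      ∑ n ∈ range N, w n * density (b n * a ^ k n) (Real.log (b n * a ^ k n) ^ 2)| ≤ 2 * C / m := by
    intro N
    rw [← sum_sub_distrib]
    refine (abs_sum_le_sum_abs _ _).trans ?_
    have h3 : ∀ n ∈ range N, |w n * ((between (b n * a ^ k n) (Real.log (b n * a ^ k n) ^ 2) : ℝ) / Real.log (b n * a ^ k n)) -
        w n * density (b n * a ^ k n) (Real.log (b n * a ^ k n) ^ 2)| ≤ w n / (k n + Real.log (b n)) * (1 / m) := by
      intro n _
      obtain ⟨x, hx⟩ : ∃ x, x = b n * a ^ k n := ⟨_, rfl⟩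
      rw [← hx]
      have hx1 : 1 < x := by rw [hx]; exact hx1 n
      have hl := hlog n
      rw [← hx] at hl
      have hl0 : 0 < Real.log x := Real.log_pos hx1
      have hv0 : 0 < k n + Real.log (b n) := by linarith [hv n]
      have b1 := between_le (x := x) (H := Real.log x ^ 2) (by linarith) (by positivity)
      have b2 := le_between (x := x) (H := Real.log x ^ 2) (by linarith) (by positivity)
      have b1' : (between x (Real.log x ^ 2) : ℝ) ≤ primesIn x (Real.log x ^ 2) := by exact_mod_cast b1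
      have b2' : (primesIn x (Real.log x ^ 2) : ℝ) ≤ between x (Real.log x ^ 2) + 1 := by exact_mod_cast b2
      have e1 : density x (Real.log x ^ 2) = primesIn x (Real.log x ^ 2) / Real.log x := by
        unfold density
        field_simp
      rw [e1, ← mul_sub, abs_mul, abs_of_nonneg (hw n), ← sub_div, abs_div, abs_of_pos hl0]
      have b3 : |(between x (Real.log x ^ 2) : ℝ) - primesIn x (Real.log x ^ 2)| ≤ 1 := by
        rw [abs_le]
        constructor <;> linarith
      calc w n * (|(between x (Real.log x ^ 2) : ℝ) - primesIn x (Real.log x ^ 2)| / Real.log x)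
          ≤ w n * (1 / (m * (k n + Real.log (b n)))) := by
            apply mul_le_mul_of_nonneg_left _ (hw n)
            exact div_le_div₀ (by norm_num) b3 (by positivity) hl
        _ = w n / (k n + Real.log (b n)) * (1 / m) := by field_simp
    refine (sum_le_sum h3).trans ?_
    rw [← sum_mul]
    have h4 := hB.div hv hw N
    calc (∑ n ∈ range N, w n / (k n + Real.log (b n))) * (1 / m) ≤ 2 * C * (1 / m) := by gcongr
      _ = 2 * C / m := by ring
  have hC := hB.nonneg
  refine ⟨c + 2 * C / m, ?_⟩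
  filter_upwards [hc, hW.eventually_ge_atTop 3] with N h2 h3
  obtain ⟨V, hV⟩ : ∃ V, V = ∑ n ∈ range N, w n := ⟨_, rfl⟩
  have h4 := hdiff N
  rw [← hV] at h2 h3 ⊢
  have hlogV : 1 ≤ Real.log V := by
    rw [Real.le_log_iff_exp_le (by linarith)]
    have := Real.exp_one_lt_d9
    linarith
  have hsq : 1 ≤ √V := by rw [Real.one_le_sqrt]; linarith
  have hone : 2 * C / m ≤ 2 * C / m * (√V * Real.log V ^ 2) := by
    have : 1 ≤ √V * Real.log V ^ 2 := by nlinarith
    exact le_mul_of_one_le_right (by positivity) this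
  have e2 : (c + 2 * C / m) * (√V * Real.log V ^ 2) = c * (√V * Real.log V ^ 2) + 2 * C / m * (√V * Real.log V ^ 2) := by ring
  rw [e2]
  have h5 := abs_sub_le (∑ n ∈ range N, w n * ((between (b n * a ^ k n) (Real.log (b n * a ^ k n) ^ 2) : ℝ) / Real.log (b n * a ^ k n)))
    (∑ n ∈ range N, w n * density (b n * a ^ k n) (Real.log (b n * a ^ k n) ^ 2)) V
  linarith

open Classical in
/-- a positive proportion of the intervals `(x, x + (log x) ^ 2)` contains at least `(1 - δ) log x` primes -/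
theorem many_I {δ : ℝ} (hδ : 0 < δ) (hδ1 : δ ≤ 1) : ∃ c : ℝ, 0 < c ∧ ∀ (k b w : ℕ → ℝ) (C : ℝ), Adm k b w C →
    ∀ᵐ a : ℝ, 1 < a → ∀ᶠ N : ℕ in atTop, c * ∑ n ∈ range N, w n ≤
      ∑ n ∈ (range N).filter (fun n => (1 - δ) * Real.log (b n * a ^ k n) ≤
        (between (b n * a ^ k n) (Real.log (b n * a ^ k n) ^ 2) : ℝ)), w n := by
  obtain ⟨c, hc, h⟩ := pp (lam := 1) (δ := δ / 2) one_pos (by positivity) (by linarith)
  refine ⟨c / 2, by positivity, fun k b w C hA => ?_⟩
  obtain ⟨hk, hb, hw, hs, hB, hW⟩ := hA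
  filter_upwards [h _ (window2_log2 1) k b w C hk hb hw hs hB hW] with a ha h1
  have hla : 0 < Real.log a := Real.log_pos h1
  have ha0 : 0 < a := by linarith
  have hx1 : ∀ n, 1 < b n * a ^ k n := fun n => by
    have h2 : 1 < a ^ k n := Real.one_lt_rpow h1 (by linarith [hk n])
    nlinarith [hb n]
  have htop : Tendsto (fun n => Real.log (b n * a ^ k n)) atTop atTop := by
    have h2 : Tendsto (fun n => min (Real.log a) 1 * (k n + Real.log (b n))) atTop atTop :=
      hs.const_mul_atTop (lt_min hla one_pos)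
    refine tendsto_atTop_mono (fun n => ?_) h2
    rw [Real.log_mul (by linarith [hb n]) (by positivity), Real.log_rpow ha0]
    have g1 : min (Real.log a) 1 * k n ≤ Real.log a * k n := by
      apply mul_le_mul_of_nonneg_right (min_le_left _ _)
      linarith [hk n]
    have g2 : min (Real.log a) 1 * Real.log (b n) ≤ 1 * Real.log (b n) :=
      mul_le_mul_of_nonneg_right (min_le_right _ _) (Real.log_nonneg (hb n))
    linarith
  obtain ⟨n₀, hn₀⟩ := eventually_atTop.1 (htop.eventually_ge_atTop (2 / δ))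
  obtain ⟨W₀, hW₀⟩ : ∃ W₀, W₀ = ∑ n ∈ range n₀, w n := ⟨_, rfl⟩
  filter_upwards [ha h1, eventually_ge_atTop n₀, hW.eventually_ge_atTop (2 * W₀ / c)] with N h2 h3 h4
  have h5 : ∑ n ∈ (range N).filter (fun n => Many (δ / 2) (fun x => Real.log x ^ 2) (b n * a ^ k n)), w n ≤
      ∑ n ∈ (range N).filter (fun n => (1 - δ) * Real.log (b n * a ^ k n) ≤
        (between (b n * a ^ k n) (Real.log (b n * a ^ k n) ^ 2) : ℝ)), w n + W₀ := by
    rw [sum_filter, sum_filter]
    have h6 : W₀ = ∑ n ∈ range N, (w n - (if n₀ ≤ n then w n else 0)) := by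
      rw [sum_sub_distrib, sum_cut h3, hW₀]
      ring
    rw [h6, ← sum_add_distrib]
    apply sum_le_sum
    intro n _
    have h7 := hw n
    by_cases h8 : n₀ ≤ n
    · rw [if_pos h8, sub_self, add_zero]
      by_cases h9 : Many (δ / 2) (fun x => Real.log x ^ 2) (b n * a ^ k n)
      · rw [if_pos h9, if_pos]
        obtain ⟨x, hx⟩ : ∃ x, x = b n * a ^ k n := ⟨_, rfl⟩
        have hx1' := hx1 n
        have hxl := hn₀ n h8
        rw [← hx] at h9 hx1' hxl ⊢
        unfold Many at h9
        have b2 := le_between (x := x) (H := Real.log x ^ 2) (by linarith) (by positivity)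
        have b2' : (primesIn x (Real.log x ^ 2) : ℝ) ≤ between x (Real.log x ^ 2) + 1 := by exact_mod_cast b2
        have hl0 : 0 < Real.log x := Real.log_pos hx1'
        have e3 : Real.log x ^ 2 / Real.log x = Real.log x := by rw [sq, mul_div_assoc, div_self hl0.ne', mul_one]
        rw [e3] at h9
        rw [div_le_iff₀ hδ] at hxl
        linarith
      · rw [if_neg h9]
        split_ifs
        · exact h7
        · exact le_rfl
    · rw [if_neg h8, sub_zero]
      split_ifs <;> linarith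
  rw [div_le_iff₀ hc] at h4
  linarith

open Classical in
/-- a positive proportion of the intervals `(x, x + K log x)` contains a prime -/
theorem hit_K {K : ℝ} (hK : 0 < K) : ∃ c : ℝ, 0 < c ∧ ∀ (k b w : ℕ → ℝ) (C : ℝ), Adm k b w C →
    ∀ᵐ a : ℝ, 1 < a → ∀ᶠ N : ℕ in atTop, c * ∑ n ∈ range N, w n ≤
      ∑ n ∈ (range N).filter (fun n => ∃ p : ℕ, p.Prime ∧ b n * a ^ k n < p ∧
        (p : ℝ) < b n * a ^ k n + K * Real.log (b n * a ^ k n)), w n := by
  have hW2 : Window2 (K / 2) (fun x => K / 2 * Real.log x) := by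
    obtain ⟨lam, x₀, hlam, hx⟩ := window_log (show 0 < K / 2 by positivity)
    refine ⟨max x₀ (Real.exp 1), fun x y h1 h2 => ?_⟩
    obtain ⟨g1, g2, g3, g4⟩ := hx x y ((le_max_left _ _).trans h1) h2
    have hxe : Real.exp 1 ≤ x := (le_max_right _ _).trans h1
    have hx0 : 0 < x := (Real.exp_pos 1).trans_le hxe
    have hlx : 1 ≤ Real.log x := by rw [Real.le_log_iff_exp_le hx0]; exact hxe
    have hly : Real.log x ≤ Real.log y := Real.log_le_log hx0 h2
    refine ⟨le_of_eq ?_, g2, le_rfl, g4⟩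
    have e1 : Real.log x ≠ 0 := by linarith
    have e2 : Real.log y ≠ 0 := by linarith
    field_simp
  obtain ⟨c, hc, h⟩ := pp (lam := K / 2) (δ := 1 / 2) (by positivity) (by norm_num) (by norm_num)
  refine ⟨c, hc, fun k b w C hA => ?_⟩
  obtain ⟨hk, hb, hw, hs, hB, hW⟩ := hA
  filter_upwards [h _ hW2 k b w C hk hb hw hs hB hW] with a ha h1
  have hx1 : ∀ n, 1 < b n * a ^ k n := fun n => by
    have h2 : 1 < a ^ k n := Real.one_lt_rpow h1 (by linarith [hk n])
    nlinarith [hb n]
  filter_upwards [ha h1] with N h2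
  refine h2.trans ?_
  apply sum_le_sum_of_subset_of_nonneg
  · intro n hn
    rw [mem_filter] at hn ⊢
    refine ⟨hn.1, ?_⟩
    have h3 := hn.2
    unfold Many at h3
    have hl : 0 < Real.log (b n * a ^ k n) := Real.log_pos (hx1 n)
    apply hit_of hK (hx1 n)
    have h4 : (0 : ℝ) < (1 - 1 / 2) * (K / 2 * Real.log (b n * a ^ k n) / Real.log (b n * a ^ k n)) := by positivity
    have h5 := h4.trans_le h3
    exact_mod_cast h5
  · intro n _ _
    exact hw n

end Pool.Agent.H40E9.GP
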