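import Pool.Agent.H40E9.GP.Avg

/-!
# General windows: the mean value of the density over short intervals of `y`
-/

set_option autoImplicit false

namespace Pool.Agent.H40E9.GP

open Finset Filter Topology MeasureTheory Pool.Agent.U26Z.DX
open Pool.Agent.H39x.LP (pc pcount)

/-- the windows, as functions of `s = log x` -/
structure Win (H : ℝ → ℝ) : Prop where
  mono : ∀ s t, 0 ≤ s → s ≤ t → H s ≤ H t
  lip : ∀ s t, 0 ≤ s → s ≤ t → H t ≤ Real.exp (t - s) * H s
  one : ∀ s, 0 ≤ s → 1 ≤ H s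
  low : ∃ lam : ℝ, 0 < lam ∧ ∀ᶠ s in atTop, lam * s ≤ H s
  up : ∀ᶠ s in atTop, H s ≤ Real.exp (0.59 * s)
  meas : Measurable H

/-- the density of the primes after `e ^ s` in the interval of length `H s` -/
noncomputable def Fh (H : ℝ → ℝ) (s : ℝ) : ℝ := density (Real.exp s) (H s)

theorem Fh_meas {H : ℝ → ℝ} (hH : Measurable H) : Measurable (Fh H) := by
  have h1 : Measurable fun y : ℝ => primesIn (Real.exp y) (H y) := by
    have : (fun y : ℝ => primesIn (Real.exp y) (H y)) = (fun p : ℕ × ℕ => ((Ioc p.1 p.2).filter Nat.Prime).card) ∘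
        (fun y : ℝ => (⌊Real.exp y⌋₊, ⌊Real.exp y + H y⌋₊)) := rfl
    rw [this]
    exact (Measurable.of_discrete).comp ((Nat.measurable_floor.comp Real.measurable_exp).prodMk
      (Nat.measurable_floor.comp (Real.measurable_exp.add hH)))
  have h2 : Measurable fun y : ℝ => (primesIn (Real.exp y) (H y) : ℝ) := measurable_from_top.comp h1
  unfold Fh density
  exact (h2.mul (Real.measurable_log.comp Real.measurable_exp)).div hH

theorem Fh_eq (H : ℝ → ℝ) (y : ℝ) : Fh H y = (primesIn (Real.exp y) (H y) : ℝ) * y / H y := by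
  unfold Fh density
  rw [Real.log_exp]

theorem Fh_nn {H : ℝ → ℝ} (hW : Win H) {y : ℝ} (hy : 0 ≤ y) : 0 ≤ Fh H y := by
  rw [Fh_eq]
  have := hW.one y hy
  have : 0 < H y := by linarith
  positivity

/-- trivial bound -/
theorem primesIn_triv {x H : ℝ} (hx : 0 ≤ x) (hH : 0 ≤ H) : (primesIn x H : ℝ) ≤ H + 1 := by
  rw [primesIn_pc]
  refine (pc_le (Nat.floor_le_floor (by linarith))).trans ?_
  have h1 := Nat.floor_le (show 0 ≤ x + H by linarith)
  have h2 := Nat.lt_floor_add_one x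
  linarith

theorem Fh_triv {H : ℝ → ℝ} (hW : Win H) {y : ℝ} (hy : 0 ≤ y) : Fh H y ≤ 2 * y := by
  rw [Fh_eq]
  have h1 := hW.one y hy
  have h0 : 0 < H y := by linarith
  have h2 := primesIn_triv (Real.exp_pos y).le h0.le
  rw [div_le_iff₀ h0]
  nlinarith

theorem ii_of_bdd {f : ℝ → ℝ} (hf : Measurable f) {a b C : ℝ} (hab : a ≤ b) (h : ∀ x, a ≤ x → x ≤ b → |f x| ≤ C) :
    IntervalIntegrable f volume a b := by
  rw [intervalIntegrable_iff_integrableOn_Ioc_of_le hab]
  apply Measure.integrableOn_of_bounded (M := C) measure_Ioc_lt_top.ne hf.aestronglyMeasurable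
  rw [ae_restrict_iff' measurableSet_Ioc]
  filter_upwards with y hy
  rw [Real.norm_eq_abs]
  exact h y hy.1.le hy.2

theorem Fh_ii {H : ℝ → ℝ} (hW : Win H) {a b : ℝ} (ha : 0 ≤ a) (hab : a ≤ b) : IntervalIntegrable (Fh H) volume a b := by
  apply ii_of_bdd (Fh_meas hW.meas) hab (C := 2 * b)
  intro x h1 h2
  rw [abs_of_nonneg (Fh_nn hW (by linarith))]
  exact (Fh_triv hW (by linarith)).trans (by linarith)

/-- the setting of the mean value theorem -/
structure Sit (H : ℝ → ℝ) (C y l t X h₀ h₁ : ℝ) : Prop where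
  W : Win H
  C0 : 0 < C
  y0 : 0 < y
  l0 : 0 < l
  t0 : 0 < t
  t1 : t ≤ 1 / 10
  tC : t * (16 * (C + 1)) ≤ 1
  ty : t * y = 1
  lt : l ≤ t / 4
  hX : X = Real.exp y
  hh : ∀ s, y ≤ s → s ≤ y + l → h₀ ≤ H s ∧ H s ≤ h₁
  h₀1 : 1 ≤ h₀
  h12 : h₁ ≤ (1 + t) * h₀
  small : h₀ / X ≤ t ^ 2 * l / 16

namespace Sit

variable {H : ℝ → ℝ} {C y l t X h₀ h₁ : ℝ}

theorem X0 (S : Sit H C y l t X h₀ h₁) : 0 < X := by rw [S.hX]; exact Real.exp_pos _
theorem h₀0 (S : Sit H C y l t X h₀ h₁) : 0 < h₀ := by linarith [S.h₀1]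
theorem h₁0 (S : Sit H C y l t X h₀ h₁) : 0 < h₁ := by
  have h := S.hh y le_rfl (by linarith [S.l0])
  linarith [S.h₀0]

theorem up (S : Sit H C y l t X h₀ h₁)
    (hcnt : ∀ l' : ℝ, l ≤ l' → l' ≤ t / 2 → QQ (y + l') - QQ y ≤ X * l' * t * (1 + C * t)) :
    ∫ s in y..(y + l), Fh H s ≤ l * (1 + t) ^ 4 * (1 + C * t) := by
  have hX0 := S.X0
  have hh₀0 := S.h₀0
  have hh₁0 := S.h₁0
  have hy0 := S.y0
  have hl0 := S.l0
  have ht0 := S.t0
  have ht1 := S.t1
  have hC := S.C0
  have hh12 := S.h12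
  obtain ⟨k, hk⟩ : ∃ k, k = h₁ / X := ⟨_, rfl⟩
  have hk0 : 0 < k := by rw [hk]; positivity
  have ht2 : t ^ 2 ≤ t := by nlinarith
  have hk2 : k ≤ t ^ 2 * l / 8 := by
    rw [hk]
    calc h₁ / X ≤ (1 + t) * h₀ / X := by gcongr
      _ = (1 + t) * (h₀ / X) := by ring
      _ ≤ 2 * (t ^ 2 * l / 16) := mul_le_mul (by linarith) S.small (by positivity) (by norm_num)
      _ = _ := by ring
  have hk3 : k ≤ t * l := by
    have : t ^ 2 * l ≤ t * l := mul_le_mul_of_nonneg_right ht2 hl0.le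
    have : 0 < t * l := by positivity
    linarith
  have hii := Fh_ii S.W hy0.le (show y ≤ y + l by linarith)
  have hQi : IntervalIntegrable (fun s => QQ (s + k) - QQ s) volume y (y + l) :=
    (Monotone.intervalIntegrable fun a b hab => QQ_mono (by linarith)).sub QQ_mono.intervalIntegrable
  have up1 : ∀ s ∈ Set.Icc y (y + l), Fh H s ≤ (y + l) / h₀ * (QQ (s + k) - QQ s) := by
    rintro s ⟨s1, s2⟩
    rw [Fh_eq]
    have hs0 : 0 < s := by linarith
    have e1 : (primesIn (Real.exp s) (H s) : ℝ) ≤ QQ (s + k) - QQ s := by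
      apply primesIn_le _ hk0.le
      rw [Real.exp_add]
      have g1 : H s ≤ h₁ := (S.hh s s1 s2).2
      have g2 : X ≤ Real.exp s := by rw [S.hX]; exact Real.exp_le_exp.2 s1
      have g3 : h₁ ≤ Real.exp s * k := by
        rw [hk]
        calc h₁ = X * (h₁ / X) := by field_simp
          _ ≤ _ := by gcongr
      have g4 := Real.add_one_le_exp k
      have g5 : Real.exp s * (k + 1) ≤ Real.exp s * Real.exp k := by gcongr
      linarith
    have e2 : h₀ ≤ H s := (S.hh s s1 s2).1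
    have e3 : 0 ≤ (primesIn (Real.exp s) (H s) : ℝ) := Nat.cast_nonneg _
    calc (primesIn (Real.exp s) (H s) : ℝ) * s / H s
        ≤ (QQ (s + k) - QQ s) * (y + l) / h₀ := by
          apply div_le_div₀
          · exact mul_nonneg (e3.trans e1) (by linarith)
          · exact mul_le_mul e1 s2 hs0.le (e3.trans e1)
          · exact hh₀0
          · exact e2
      _ = _ := by ring
  have up2 : ∫ s in y..(y + l), Fh H s ≤ (y + l) / h₀ * (k * (QQ (y + l + k) - QQ y)) := by
    calc ∫ s in y..(y + l), Fh H s ≤ ∫ s in y..(y + l), (y + l) / h₀ * (QQ (s + k) - QQ s) :=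
          intervalIntegral.integral_mono_on (by linarith) hii (hQi.const_mul _) up1
      _ = (y + l) / h₀ * ∫ s in y..(y + l), (QQ (s + k) - QQ s) := by rw [intervalIntegral.integral_const_mul]
      _ ≤ _ := by
          apply mul_le_mul_of_nonneg_left _ (by positivity)
          exact (shift QQ_mono (by linarith) hk0.le).2
  have hlt := S.lt
  have hk4 : t * l ≤ l := by
    calc t * l ≤ 1 * l := mul_le_mul_of_nonneg_right (by linarith) hl0.le
      _ = l := one_mul l
  have up4 := hcnt (l + k) (by linarith) (by linarith)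
  rw [← add_assoc] at up4
  refine up2.trans ?_
  have e1 : (y + l) / h₀ * (k * (QQ (y + l + k) - QQ y)) ≤ (y + l) / h₀ * (k * (X * (l + k) * t * (1 + C * t))) := by
    gcongr
  refine e1.trans ?_
  have e2 : (y + l) / h₀ * (k * (X * (l + k) * t * (1 + C * t))) = ((y + l) * t) * (h₁ / h₀) * (l + k) * (1 + C * t) := by
    rw [hk]
    field_simp
  rw [e2]
  have hl1 : l ≤ 1 := by linarith
  have e3 : (y + l) * t ≤ 1 + t := by
    have h5 : l * t ≤ 1 * t := mul_le_mul_of_nonneg_right hl1 ht0.le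
    have := S.ty
    linarith
  have e4 : h₁ / h₀ ≤ 1 + t := by
    rw [div_le_iff₀ hh₀0]
    exact hh12
  have e5 : l + k ≤ l * (1 + t) := by linarith
  calc ((y + l) * t) * (h₁ / h₀) * (l + k) * (1 + C * t)
      ≤ (1 + t) * (1 + t) * (l * (1 + t)) * (1 + C * t) := by gcongr
    _ = l * (1 + t) ^ 3 * (1 + C * t) := by ring
    _ ≤ l * (1 + t) ^ 4 * (1 + C * t) := by
        have : (1 + t) ^ 3 ≤ (1 + t) ^ 4 := pow_le_pow_right₀ (by linarith) (by norm_num)
        gcongr

theorem lo (S : Sit H C y l t X h₀ h₁) (hcnt : X * l * t * (1 - C * t) ≤ QQ (y + l) - QQ y) :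
    l * (1 - t) ^ 4 * (1 - (C + 1) * t) ≤ ∫ s in y..(y + l), Fh H s := by
  have hX0 := S.X0
  have hh₀0 := S.h₀0
  have hh₁0 := S.h₁0
  have hy0 := S.y0
  have hl0 := S.l0
  have ht0 := S.t0
  have ht1 := S.t1
  have hC := S.C0
  have hh12 := S.h12
  obtain ⟨X₁, hX₁⟩ : ∃ X₁, X₁ = Real.exp (y + l) := ⟨_, rfl⟩
  have hX₁0 : 0 < X₁ := by rw [hX₁]; exact Real.exp_pos _
  have hXX : X ≤ X₁ := by rw [S.hX, hX₁]; exact Real.exp_le_exp.2 (by linarith)
  obtain ⟨r, hr⟩ : ∃ r, r = h₀ / X₁ := ⟨_, rfl⟩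
  have hr0 : 0 < r := by rw [hr]; positivity
  have hr1 : r ≤ t ^ 2 * l / 16 := by
    rw [hr]
    refine le_trans ?_ S.small
    gcongr
  have ht2 : t ^ 2 ≤ t := by nlinarith
  have hl1 : l ≤ 1 := by linarith [S.lt]
  have htl : t ^ 2 * l ≤ t * 1 := mul_le_mul ht2 hl1 hl0.le ht0.le
  obtain ⟨k', hk'⟩ : ∃ k', k' = Real.log (1 + r) := ⟨_, rfl⟩
  have hk'0 : 0 ≤ k' := by rw [hk']; exact Real.log_nonneg (by linarith)
  have hrt : r ≤ t := by linarith
  have hk'2 : r * (1 - t) ≤ k' := by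
    rw [hk']
    have h1 := Real.one_sub_inv_le_log_of_pos (show 0 < 1 + r by linarith)
    have h2 : r * (1 - r) ≤ 1 - (1 + r)⁻¹ := by
      have : 1 - (1 + r)⁻¹ = r / (1 + r) := by field_simp; ring
      rw [this, le_div_iff₀ (by linarith)]
      nlinarith [mul_pos hr0 hr0, mul_pos (mul_pos hr0 hr0) hr0]
    have h3 : r * (1 - t) ≤ r * (1 - r) := by gcongr
    linarith
  have hekk : Real.exp k' = 1 + r := by rw [hk', Real.exp_log (by linarith)]
  have hii := Fh_ii S.W hy0.le (show y ≤ y + l by linarith)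
  have hQi : IntervalIntegrable (fun s => QQ (s + k') - QQ s) volume y (y + l) :=
    (Monotone.intervalIntegrable fun a b hab => QQ_mono (by linarith)).sub QQ_mono.intervalIntegrable
  have lo1 : ∀ s ∈ Set.Icc y (y + l), y / h₁ * (QQ (s + k') - QQ s) ≤ Fh H s := by
    rintro s ⟨s1, s2⟩
    rw [Fh_eq]
    have hs0 : 0 < s := by linarith
    have e1 : QQ (s + k') - QQ s ≤ (primesIn (Real.exp s) (H s) : ℝ) := by
      apply le_primesIn _ hk'0
      rw [Real.exp_add, hekk]
      have g1 : h₀ ≤ H s := (S.hh s s1 s2).1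
      have g2 : Real.exp s ≤ X₁ := by rw [hX₁]; exact Real.exp_le_exp.2 s2
      have g3 : Real.exp s * r ≤ h₀ := by
        rw [hr]
        calc Real.exp s * (h₀ / X₁) ≤ X₁ * (h₀ / X₁) := by gcongr
          _ = h₀ := by field_simp
      linarith
    have e2 : H s ≤ h₁ := (S.hh s s1 s2).2
    calc y / h₁ * (QQ (s + k') - QQ s) = (QQ (s + k') - QQ s) * y / h₁ := by ring
      _ ≤ _ := by
          apply div_le_div₀
          · exact mul_nonneg (Nat.cast_nonneg _) hs0.le
          · exact mul_le_mul e1 s1 hy0.le (Nat.cast_nonneg _)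
          · linarith [(S.hh s s1 s2).1]
          · exact e2
  have lo2 : y / h₁ * (k' * (QQ (y + l) - QQ (y + k'))) ≤ ∫ s in y..(y + l), Fh H s := by
    calc y / h₁ * (k' * (QQ (y + l) - QQ (y + k'))) ≤ y / h₁ * ∫ s in y..(y + l), (QQ (s + k') - QQ s) := by
          apply mul_le_mul_of_nonneg_left _ (by positivity)
          exact (shift QQ_mono (by linarith) hk'0).1
      _ = ∫ s in y..(y + l), y / h₁ * (QQ (s + k') - QQ s) := by rw [intervalIntegral.integral_const_mul]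
      _ ≤ _ := intervalIntegral.integral_mono_on (by linarith) (hQi.const_mul _) hii lo1
  have lo4 : QQ (y + k') - QQ y ≤ X * l * t ^ 2 := by
    have e1 : QQ (y + k') - QQ y ≤ (primesIn (Real.exp y) (X * r) : ℝ) := by
      apply le_primesIn _ hk'0
      rw [Real.exp_add, hekk, S.hX]
      linarith
    have e2 := primesIn_triv (Real.exp_pos y).le (show 0 ≤ X * r by positivity)
    have e3 : X * r ≤ X * (t ^ 2 * l / 16) := by gcongr
    have e4 : 1 ≤ X * (t ^ 2 * l / 16) := by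
      refine le_trans ?_ (mul_le_mul_of_nonneg_left S.small hX0.le)
      rw [mul_div_cancel₀ _ hX0.ne']
      exact S.h₀1
    have e5 : 0 < X * (t ^ 2 * l) := by positivity
    have e6 : X * (t ^ 2 * l / 16) = X * (t ^ 2 * l) / 16 := by ring
    have e7 : X * l * t ^ 2 = X * (t ^ 2 * l) := by ring
    rw [e6] at e3 e4
    rw [e7]
    linarith
  have lo5 : X * l * t * (1 - (C + 1) * t) ≤ QQ (y + l) - QQ (y + k') := by
    have e : X * l * t * (1 - (C + 1) * t) = X * l * t * (1 - C * t) - X * l * t ^ 2 := by ring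
    rw [e]
    linarith
  have hCt : 0 ≤ 1 - (C + 1) * t := by
    have := S.tC
    have : 0 < (C + 1) * t := by positivity
    linarith
  refine le_trans ?_ lo2
  have e0 : 0 ≤ X * l * t * (1 - (C + 1) * t) := mul_nonneg (by positivity) hCt
  have e1 : y / h₁ * ((r * (1 - t)) * (X * l * t * (1 - (C + 1) * t))) ≤ y / h₁ * (k' * (QQ (y + l) - QQ (y + k'))) := by
    have : 0 ≤ r * (1 - t) := mul_nonneg hr0.le (by linarith)
    gcongr
  refine le_trans ?_ e1
  have e2 : y / h₁ * ((r * (1 - t)) * (X * l * t * (1 - (C + 1) * t))) =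
      (t * y) * (h₀ / h₁) * (X / X₁) * (1 - t) * l * (1 - (C + 1) * t) := by
    rw [hr]
    field_simp
  rw [e2, S.ty]
  have e3 : 1 - t ≤ h₀ / h₁ := by
    rw [le_div_iff₀ hh₁0]
    calc (1 - t) * h₁ ≤ (1 - t) * ((1 + t) * h₀) := mul_le_mul_of_nonneg_left hh12 (by linarith)
      _ = (1 - t ^ 2) * h₀ := by ring
      _ ≤ 1 * h₀ := by
          apply mul_le_mul_of_nonneg_right _ hh₀0.le
          have : 0 < t ^ 2 := by positivity
          linarith
      _ = h₀ := one_mul _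
  have e4 : 1 - t ≤ X / X₁ := by
    rw [S.hX, hX₁, ← Real.exp_sub]
    have := Real.add_one_le_exp (y - (y + l))
    linarith [S.lt]
  have e5 : 0 ≤ 1 - t := by linarith
  calc l * (1 - t) ^ 4 * (1 - (C + 1) * t) ≤ l * (1 - t) ^ 3 * (1 - (C + 1) * t) := by
        have : (1 - t) ^ 4 ≤ (1 - t) ^ 3 := pow_le_pow_of_le_one e5 (by linarith) (by norm_num)
        gcongr
    _ = 1 * (1 - t) * (1 - t) * (1 - t) * l * (1 - (C + 1) * t) := by ring
    _ ≤ 1 * (h₀ / h₁) * (X / X₁) * (1 - t) * l * (1 - (C + 1) * t) := by gcongr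

end Sit

/-- the mean value of the density over the interval `(y, y + l)` is `1 + O (1 / y)` for `e ^ (-0.4 y) ≤ l ≤ 1 / (4 y)` -/
theorem avg {H : ℝ → ℝ} (hW : Win H) : ∃ C Y₀ : ℝ, 0 < C ∧ 1 ≤ Y₀ ∧ ∀ y l : ℝ, Y₀ ≤ y →
    Real.exp (-(0.4 * y)) ≤ l → l ≤ 1 / (4 * y) → |(∫ s in y..(y + l), Fh H s) - l| ≤ C / y * l := by
  obtain ⟨C, Y₀, hC, hcnt⟩ := cnt
  obtain ⟨Y₁, hY₁⟩ := eventually_atTop.1 (Pool.Agent.Q278.KS.ev_poly 16 2 (show (0 : ℝ) < 0.01 by norm_num))
  obtain ⟨Y₂, hY₂⟩ := eventually_atTop.1 hW.up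
  refine ⟨16 + 2 * (C + 1), max (max (max Y₀ Y₁) Y₂) (10 + 16 * (C + 1)), by positivity, ?_, fun y l hy hl1 hl2 => ?_⟩
  · refine le_trans ?_ (le_max_right _ _)
    linarith
  have hyY : Y₀ ≤ y := (le_max_left _ _).trans ((le_max_left _ _).trans ((le_max_left _ _).trans hy))
  have hy1 := hY₁ y ((le_max_right _ _).trans ((le_max_left _ _).trans ((le_max_left _ _).trans hy)))
  have hy2 : 10 + 16 * (C + 1) ≤ y := (le_max_right _ _).trans hy
  have hy5 := hY₂ y ((le_max_right _ _).trans ((le_max_left _ _).trans hy))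
  have hy3 : 10 ≤ y := by linarith
  have hy0 : 0 < y := by linarith
  have hl0 : 0 < l := (Real.exp_pos _).trans_le hl1
  obtain ⟨t, ht⟩ : ∃ t, t = 1 / y := ⟨_, rfl⟩
  have ht0 : 0 < t := by rw [ht]; positivity
  have ht1 : t ≤ 1 / 10 := by rw [ht]; exact one_div_le_one_div_of_le (by norm_num) hy3
  obtain ⟨X, hX⟩ : ∃ X, X = Real.exp y := ⟨_, rfl⟩
  obtain ⟨h₀, hh₀⟩ : ∃ h₀, h₀ = H y := ⟨_, rfl⟩
  obtain ⟨h₁, hh₁⟩ : ∃ h₁, h₁ = H (y + l) := ⟨_, rfl⟩
  have S : Sit H C y l t X h₀ h₁ := by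
    refine ⟨hW, hC, hy0, hl0, ht0, ht1, ?_, ?_, ?_, hX, ?_, ?_, ?_, ?_⟩
    · rw [ht, one_div_mul_eq_div, div_le_one hy0]
      linarith
    · rw [ht]; field_simp
    · refine hl2.trans (le_of_eq ?_)
      rw [ht]
      field_simp
    · intro s s1 s2
      rw [hh₀, hh₁]
      exact ⟨hW.mono y s hy0.le s1, hW.mono s (y + l) (by linarith) s2⟩
    · rw [hh₀]
      exact hW.one y hy0.le
    · rw [hh₀, hh₁]
      have e1 := hW.lip y (y + l) hy0.le (by linarith)
      rw [add_sub_cancel_left] at e1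
      have e3 : l ≤ t / 4 := by
        refine hl2.trans (le_of_eq ?_)
        rw [ht]
        field_simp
      have e2 : Real.exp l ≤ 1 + t := by
        have h2 : Real.exp l ≤ Real.exp (t / 4) := Real.exp_le_exp.2 e3
        have h3 := Real.abs_exp_sub_one_sub_id_le (show |t / 4| ≤ 1 by rw [abs_of_pos (by positivity)]; linarith)
        have h4 := (abs_le.1 h3).2
        have h5 : (t / 4) ^ 2 ≤ t / 4 := by nlinarith
        linarith
      have e4 := hW.one y hy0.le
      exact e1.trans (mul_le_mul_of_nonneg_right e2 (by linarith))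
    · have e1 : h₀ / X ≤ Real.exp (-(0.41 * y)) := by
        have e0 : Real.exp (-(0.41 * y)) = Real.exp (0.59 * y) / X := by
          rw [hX, ← Real.exp_sub]
          congr 1
          ring
        rw [e0, hh₀]
        exact div_le_div_of_nonneg_right hy5 (by rw [hX]; exact (Real.exp_pos _).le)
      have e2 : Real.exp (-(0.41 * y)) = Real.exp (-(0.4 * y)) * Real.exp (-(0.01 * y)) := by
        rw [← Real.exp_add]; congr 1; ring
      have e3 : Real.exp (-(0.01 * y)) ≤ t ^ 2 / 16 := by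
        rw [Real.exp_neg, inv_le_comm₀ (Real.exp_pos _) (by positivity)]
        refine le_trans (le_of_eq ?_) hy1
        rw [ht]
        field_simp
      calc h₀ / X ≤ Real.exp (-(0.4 * y)) * Real.exp (-(0.01 * y)) := by rw [← e2]; exact e1
        _ ≤ l * (t ^ 2 / 16) := by gcongr
        _ = _ := by ring
  have hc : ∀ l' : ℝ, l ≤ l' → l' ≤ t / 2 → |QQ (y + l') - QQ y - X * l' * t| ≤ C * (X * l' * t ^ 2) := by
    intro l' g1 g2
    have h3 := hcnt y l' hyY (hl1.trans g1) (g2.trans (le_of_eq (by rw [ht]; field_simp)))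
    rw [← hX] at h3
    have e1 : X * l' / y = X * l' * t := by rw [ht]; ring
    have e2 : X * l' / y ^ 2 = X * l' * t ^ 2 := by rw [ht]; field_simp
    rwa [e1, e2] at h3
  have hup := S.up (fun l' g1 g2 => by
    have := (abs_le.1 (hc l' g1 g2)).2
    have e : X * l' * t * (1 + C * t) = X * l' * t + C * (X * l' * t ^ 2) := by ring
    rw [e]
    linarith)
  have hlo := S.lo (by
    have := (abs_le.1 (hc l le_rfl (by linarith [S.lt]))).1
    have e : X * l * t * (1 - C * t) = X * l * t - C * (X * l * t ^ 2) := by ring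
    rw [e]
    linarith)
  have hCt1 : (C + 1) * t ≤ 1 := by
    have := S.tC
    have : 0 < (C + 1) * t := by positivity
    linarith
  have hd2 : (16 + 2 * (C + 1)) / y * l = l * ((16 + 2 * (C + 1)) * t) := by rw [ht]; ring
  have p1 : (1 + t) ^ 4 ≤ 1 + 8 * t := by
    have a1 : (1 + t) ^ 2 ≤ 1 + 3 * t := by nlinarith
    have a2 : (1 + t) ^ 4 = ((1 + t) ^ 2) ^ 2 := by ring
    rw [a2]
    calc ((1 + t) ^ 2) ^ 2 ≤ (1 + 3 * t) ^ 2 := by gcongr
      _ ≤ 1 + 8 * t := by nlinarith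
  have p2 : 1 - 4 * t ≤ (1 - t) ^ 4 := by
    have := one_add_mul_le_pow (show (-2 : ℝ) ≤ -t by linarith) 4
    have e : (1 + -t) ^ 4 = (1 - t) ^ 4 := by ring
    rw [e] at this
    push_cast at this
    linarith
  have q1 : (1 + t) ^ 4 * (1 + C * t) ≤ 1 + (16 + 2 * (C + 1)) * t := by
    have a1 : C * t ≤ 1 := by
      have e : (C + 1) * t = C * t + t := by ring
      linarith
    have a0 : 0 ≤ C * t := by positivity
    calc (1 + t) ^ 4 * (1 + C * t) ≤ (1 + 8 * t) * (1 + C * t) := by gcongr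
      _ = 1 + 8 * t + C * t + 8 * t * (C * t) := by ring
      _ ≤ 1 + 8 * t + C * t + 8 * t * 1 := by gcongr
      _ ≤ _ := by
          have e : (16 + 2 * (C + 1)) * t = 16 * t + C * t + (C * t + 2 * t) := by ring
          rw [e]
          linarith
  have q2 : 1 - (16 + 2 * (C + 1)) * t ≤ (1 - t) ^ 4 * (1 - (C + 1) * t) := by
    have a2 : 0 ≤ 1 - (C + 1) * t := by linarith
    calc 1 - (16 + 2 * (C + 1)) * t ≤ (1 - 4 * t) * (1 - (C + 1) * t) := by
          have e : (1 - 4 * t) * (1 - (C + 1) * t) = 1 - 4 * t - (C + 1) * t + 4 * (t * ((C + 1) * t)) := by ring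
          have e' : (16 + 2 * (C + 1)) * t = 16 * t + 2 * ((C + 1) * t) := by ring
          have : 0 ≤ t * ((C + 1) * t) := by positivity
          have : 0 ≤ (C + 1) * t := by positivity
          rw [e, e']
          linarith
      _ ≤ _ := by gcongr
  rw [hd2, abs_le]
  have r1 := mul_le_mul_of_nonneg_left q1 hl0.le
  have r2 := mul_le_mul_of_nonneg_left q2 hl0.le
  constructor
  · calc -(l * ((16 + 2 * (C + 1)) * t)) = l * (1 - (16 + 2 * (C + 1)) * t) - l := by ring
      _ ≤ l * ((1 - t) ^ 4 * (1 - (C + 1) * t)) - l := by linarith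
      _ = l * (1 - t) ^ 4 * (1 - (C + 1) * t) - l := by ring
      _ ≤ _ := by linarith
  · calc (∫ s in y..(y + l), Fh H s) - l ≤ l * (1 + t) ^ 4 * (1 + C * t) - l := by linarith
      _ = l * ((1 + t) ^ 4 * (1 + C * t)) - l := by ring
      _ ≤ l * (1 + (16 + 2 * (C + 1)) * t) - l := by linarith
      _ = _ := by ring

end Pool.Agent.H40E9.GP
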