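import Pool.Agent.H40E9.GP.WMom

/-!
# General windows: the covariance of the densities at `e ^ (a u)` and `e ^ (b u)`
-/

set_option autoImplicit false

namespace Pool.Agent.H40E9.GP

open Finset Filter Topology MeasureTheory Pool.Agent.U26Z.DX

/-- the density minus one -/
noncomputable def G (H : ℝ → ℝ) (y : ℝ) : ℝ := Fh H y - 1

theorem G_meas {H : ℝ → ℝ} (hW : Win H) : Measurable (G H) := (Fh_meas hW.meas).sub_const 1

theorem G_triv {H : ℝ → ℝ} (hW : Win H) {y : ℝ} (hy : 0 ≤ y) : |G H y| ≤ 2 * y + 1 := by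
  have h1 := Fh_triv hW hy
  have h2 := Fh_nn hW hy
  unfold G
  rw [abs_le]
  constructor <;> linarith

theorem G_abs_le {H : ℝ → ℝ} (hW : Win H) {y : ℝ} (hy : 0 ≤ y) : |G H y| ≤ 2 + (Fh H y) ^ 2 := by
  have h2 := Fh_nn hW hy
  unfold G
  rw [abs_le]
  constructor <;> nlinarith [sq_nonneg (Fh H y - 1), sq_nonneg (Fh H y)]

theorem G_sq_le {H : ℝ → ℝ} (hW : Win H) {y : ℝ} (hy : 0 ≤ y) : (G H y) ^ 2 ≤ 1 + (Fh H y) ^ 2 := by
  have h2 := Fh_nn hW hy
  unfold G
  nlinarith

/-- the integral over one cell -/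
theorem cell {f g : ℝ → ℝ} (hf : Measurable f) (hg : Measurable g) {s t M ρ κ : ℝ} (hst : s ≤ t)
    (hfM : ∀ u, s ≤ u → u ≤ t → |f u| ≤ M)
    (hfρ : ∀ u, s ≤ u → u ≤ t → |f u - f s| ≤ ρ) (hgM : ∀ u, s ≤ u → u ≤ t → |g u| ≤ M)
    (hgκ : |∫ u in s..t, g u| ≤ κ * (t - s)) (hM : 0 ≤ M) (hκ : 0 ≤ κ) (hρ : 0 ≤ ρ) :
    |∫ u in s..t, f u * g u| ≤ κ * ((∫ u in s..t, |f u|) + ρ * (t - s)) + ρ * ∫ u in s..t, |g u| := by
  have hgi : IntervalIntegrable g volume s t := ii_of_bdd hg hst hgM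
  have hfa : IntervalIntegrable (fun u => |f u|) volume s t := (ii_of_bdd hf hst hfM).abs
  have hga : IntervalIntegrable (fun u => |g u|) volume s t := hgi.abs
  have hfi : IntervalIntegrable (fun u => (f u - f s) * g u) volume s t := by
    apply ii_of_bdd ((hf.sub_const _).mul hg) hst (C := ρ * M)
    intro x h1 h2
    rw [Pi.mul_apply, abs_mul]
    exact mul_le_mul (hfρ x h1 h2) (hgM x h1 h2) (abs_nonneg _) hρ
  have e1 : ∫ u in s..t, f u * g u = f s * (∫ u in s..t, g u) + ∫ u in s..t, (f u - f s) * g u := by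
    rw [← intervalIntegral.integral_const_mul, ← intervalIntegral.integral_add (hgi.const_mul _) hfi]
    congr 1
    ext u
    ring
  have e2 : |f s| * (t - s) ≤ (∫ u in s..t, |f u|) + ρ * (t - s) := by
    have h1 : ∫ u in s..t, |f s| ≤ ∫ u in s..t, (|f u| + ρ) := by
      apply intervalIntegral.integral_mono_on hst _root_.intervalIntegrable_const (hfa.add _root_.intervalIntegrable_const)
      intro u hu
      have h2 := hfρ u hu.1 hu.2
      have h3 : |f s| ≤ |f u| + |f u - f s| := by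
        have : f s = f u - (f u - f s) := by ring
        calc |f s| = |f u - (f u - f s)| := by rw [← this]
          _ ≤ |f u| + |f u - f s| := abs_sub _ _
      linarith
    rw [intervalIntegral.integral_const, intervalIntegral.integral_add hfa _root_.intervalIntegrable_const,
      intervalIntegral.integral_const, smul_eq_mul, smul_eq_mul] at h1
    linarith
  rw [e1]
  refine (abs_add_le _ _).trans ?_
  have h1 : |f s * (∫ u in s..t, g u)| ≤ κ * ((∫ u in s..t, |f u|) + ρ * (t - s)) := by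
    rw [abs_mul]
    calc |f s| * |∫ u in s..t, g u| ≤ |f s| * (κ * (t - s)) := by gcongr
      _ = κ * (|f s| * (t - s)) := by ring
      _ ≤ _ := by gcongr
  have h2 : |∫ u in s..t, (f u - f s) * g u| ≤ ρ * ∫ u in s..t, |g u| := by
    rw [← intervalIntegral.integral_const_mul]
    have h3 := intervalIntegral.norm_integral_le_integral_norm (f := fun u => (f u - f s) * g u) (μ := volume) hst
    rw [Real.norm_eq_abs] at h3
    refine h3.trans ?_
    apply intervalIntegral.integral_mono_on hst hfi.norm (hga.const_mul _)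
    intro u hu
    rw [norm_mul, Real.norm_eq_abs, Real.norm_eq_abs]
    exact mul_le_mul_of_nonneg_right (hfρ u hu.1 hu.2) (abs_nonneg _)
  linarith

/-- cutting `[s, s + 1]` into `q` cells -/
theorem cut {f g f₁ f₂ : ℝ → ℝ} (hf : Measurable f) (hg : Measurable g) {α M V κ : ℝ} {q : ℕ} (hq : 0 < q)
    (hfM : ∀ u, α ≤ u → u ≤ α + 1 → |f u| ≤ M) (hgM : ∀ u, α ≤ u → u ≤ α + 1 → |g u| ≤ M)
    (hf12 : ∀ u, α ≤ u → u ≤ α + 1 → f u = f₁ u - f₂ u)
    (hm₁ : ∀ u v, α ≤ u → u ≤ v → v ≤ α + 1 → f₁ u ≤ f₁ v) (hm₂ : ∀ u v, α ≤ u → u ≤ v → v ≤ α + 1 → f₂ u ≤ f₂ v)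
    (hV₁ : f₁ (α + 1) - f₁ α ≤ V) (hV₂ : f₂ (α + 1) - f₂ α ≤ V)
    (hgκ : ∀ u, α ≤ u → u + 1 / q ≤ α + 1 → |∫ v in u..(u + 1 / q), g v| ≤ κ * (1 / q)) (hM : 0 ≤ M) (hκ : 0 ≤ κ) :
    |∫ u in α..(α + 1), f u * g u| ≤ κ * ((∫ u in α..(α + 1), |f u|) + 2 * V * (1 / q)) + 2 * V * (M * (1 / q)) := by
  have hq0 : (0 : ℝ) < q := by exact_mod_cast hq
  obtain ⟨p, hp⟩ : ∃ p : ℕ → ℝ, p = fun i : ℕ => α + (i : ℝ) * (1 / q) := ⟨_, rfl⟩
  have hp0 : p 0 = α := by rw [hp]; simp
  have hpq : p q = α + 1 := by rw [hp]; field_simp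
  have hps : ∀ i, p (i + 1) = p i + 1 / q := by intro i; rw [hp]; push_cast; ring
  have hple : ∀ i, i ≤ q → α ≤ p i ∧ p i ≤ α + 1 := by
    intro i hi
    rw [hp]
    have : (i : ℝ) ≤ q := by exact_mod_cast hi
    have h0 : (0 : ℝ) ≤ i := Nat.cast_nonneg _
    constructor
    · have : 0 ≤ (i : ℝ) * (1 / q) := by positivity
      linarith
    · have : (i : ℝ) * (1 / q) ≤ 1 := by
        rw [mul_one_div, div_le_one hq0]
        exact this
      linarith
  have hsubI : ∀ {F : ℝ → ℝ}, IntervalIntegrable F volume α (α + 1) → ∀ i < q, IntervalIntegrable F volume (p i) (p (i + 1)) := by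
    intro F hF i hi
    apply hF.mono_set
    have h1 := hple i hi.le
    have h2 := hple (i + 1) hi
    have h3 : p i ≤ p (i + 1) := by
      rw [hps]
      have : 0 < 1 / (q : ℝ) := by positivity
      linarith
    rw [Set.uIcc_of_le h3, Set.uIcc_of_le (by linarith)]
    exact Set.Icc_subset_Icc h1.1 h2.2
  have hii : IntervalIntegrable (fun u => f u * g u) volume α (α + 1) := by
    apply ii_of_bdd (hf.mul hg) (by linarith) (C := M * M)
    intro x h1 h2
    rw [Pi.mul_apply, abs_mul]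
    exact mul_le_mul (hfM x h1 h2) (hgM x h1 h2) (abs_nonneg _) hM
  have hfa : IntervalIntegrable (fun u => |f u|) volume α (α + 1) := (ii_of_bdd hf (by linarith) hfM).abs
  have hsum := intervalIntegral.sum_integral_adjacent_intervals (hsubI hii)
  have hsumf := intervalIntegral.sum_integral_adjacent_intervals (hsubI hfa)
  rw [hp0, hpq] at hsum hsumf
  rw [← hsum, ← hsumf]
  refine (abs_sum_le_sum_abs _ _).trans ?_
  have hone : ∀ i ∈ range q, |∫ u in (p i)..(p (i + 1)), f u * g u| ≤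
      κ * ((∫ u in (p i)..(p (i + 1)), |f u|) + ((f₁ (p (i + 1)) - f₁ (p i)) + (f₂ (p (i + 1)) - f₂ (p i))) * (1 / q)) +
        ((f₁ (p (i + 1)) - f₁ (p i)) + (f₂ (p (i + 1)) - f₂ (p i))) * (M * (1 / q)) := by
    intro i hi
    rw [mem_range] at hi
    have h1 := hple i hi.le
    have h2 := hple (i + 1) hi
    have h3 : 0 < 1 / (q : ℝ) := by positivity
    have h4 : p (i + 1) - p i = 1 / q := by rw [hps]; ring
    have h5 : p i ≤ p (i + 1) := by linarith
    have h6 := hm₁ (p i) (p (i + 1)) h1.1 h5 h2.2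
    have h7 := hm₂ (p i) (p (i + 1)) h1.1 h5 h2.2
    obtain ⟨ρ, hρ⟩ : ∃ ρ, ρ = (f₁ (p (i + 1)) - f₁ (p i)) + (f₂ (p (i + 1)) - f₂ (p i)) := ⟨_, rfl⟩
    have hρ0 : 0 ≤ ρ := by linarith
    have := cell hf hg (s := p i) (t := p (i + 1)) (M := M) (ρ := ρ) (κ := κ) h5
      (fun u g1 g2 => hfM u (by linarith) (by linarith)) (fun u g1 g2 => by
        have a1 := hm₁ (p i) u h1.1 g1 (by linarith)
        have a2 := hm₁ u (p (i + 1)) (by linarith) g2 h2.2
        have a3 := hm₂ (p i) u h1.1 g1 (by linarith)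
        have a4 := hm₂ u (p (i + 1)) (by linarith) g2 h2.2
        rw [hf12 u (by linarith) (by linarith), hf12 (p i) h1.1 h1.2, hρ, abs_le]
        constructor <;> linarith)
      (fun u g1 g2 => hgM u (by linarith) (by linarith)) (by
        rw [hps, add_sub_cancel_left]
        apply hgκ _ h1.1
        rw [hps] at h2
        exact h2.2) hM hκ hρ0
    rw [h4] at this
    rw [← hρ]
    refine this.trans ?_
    have h8 : ∫ u in (p i)..(p (i + 1)), |g u| ≤ M * (1 / q) := by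
      have hga : IntervalIntegrable (fun u => |g u|) volume α (α + 1) := (ii_of_bdd hg (by linarith) hgM).abs
      have h9 : ∫ u in (p i)..(p (i + 1)), |g u| ≤ ∫ u in (p i)..(p (i + 1)), M :=
        intervalIntegral.integral_mono_on h5 (hsubI hga i hi) _root_.intervalIntegrable_const
          (fun u hu => hgM u (by linarith [hu.1]) (by linarith [hu.2]))
      rw [intervalIntegral.integral_const, smul_eq_mul, h4] at h9
      linarith
    have h10 := mul_le_mul_of_nonneg_left h8 hρ0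
    linarith
  refine (sum_le_sum hone).trans ?_
  have t1 : ∑ i ∈ range q, (f₁ (p (i + 1)) - f₁ (p i)) = f₁ (α + 1) - f₁ α := by
    rw [Finset.sum_range_sub (fun i => f₁ (p i)), hp0, hpq]
  have t2 : ∑ i ∈ range q, (f₂ (p (i + 1)) - f₂ (p i)) = f₂ (α + 1) - f₂ α := by
    rw [Finset.sum_range_sub (fun i => f₂ (p i)), hp0, hpq]
  rw [sum_add_distrib, ← mul_sum, sum_add_distrib, ← sum_mul, ← sum_mul, sum_add_distrib, t1, t2]
  have t3 : f₁ (α + 1) - f₁ α + (f₂ (α + 1) - f₂ α) ≤ 2 * V := by linarith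
  gcongr

/-- the number of the primes up to `e ^ s + H s` -/
noncomputable def AA (H : ℝ → ℝ) (s : ℝ) : ℝ := Pool.Agent.H39x.LP.pc 0 ⌊Real.exp s + H s⌋₊

theorem AA_nn (H : ℝ → ℝ) (s : ℝ) : 0 ≤ AA H s := Nat.cast_nonneg _

theorem QQ_nn (s : ℝ) : 0 ≤ QQ s := Nat.cast_nonneg _

theorem pc_zero_le (n : ℕ) : Pool.Agent.H39x.LP.pc 0 n ≤ n := by
  have h := pc_le (A := 0) (B := n) (Nat.zero_le _)
  simpa using h

theorem AA_mono {H : ℝ → ℝ} (hW : Win H) {s t : ℝ} (hs : 0 ≤ s) (hst : s ≤ t) : AA H s ≤ AA H t := by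
  unfold AA
  apply pc_mono
  apply Nat.floor_le_floor
  have := hW.mono s t hs hst
  have := Real.exp_le_exp.2 hst
  linarith

theorem AA_le {H : ℝ → ℝ} (hW : Win H) {s : ℝ} (hs : 0 ≤ s) : AA H s ≤ (1 + H 0) * Real.exp s := by
  unfold AA
  refine (pc_zero_le _).trans ?_
  have h1 := hW.lip 0 s le_rfl hs
  have h2 := hW.one s hs
  have h3 := Real.exp_pos s
  refine (Nat.floor_le (by linarith)).trans ?_
  rw [sub_zero] at h1
  linarith

theorem QQ_le {H : ℝ → ℝ} (hW : Win H) {s : ℝ} : QQ s ≤ (1 + H 0) * Real.exp s := by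
  unfold QQ
  refine (pc_zero_le _).trans ?_
  have h2 := hW.one 0 le_rfl
  have h3 := Real.exp_pos s
  refine (Nat.floor_le h3.le).trans ?_
  nlinarith

/-- the increasing part -/
noncomputable def F1 (H : ℝ → ℝ) (s : ℝ) : ℝ := AA H s * s + QQ s * s * (1 - 1 / H s)

/-- the decreasing part -/
noncomputable def F2 (H : ℝ → ℝ) (s : ℝ) : ℝ := QQ s * s + AA H s * s * (1 - 1 / H s)

theorem F12 {H : ℝ → ℝ} (hW : Win H) {s : ℝ} (hs : 0 ≤ s) : Fh H s = F1 H s - F2 H s := by
  have h1 := hW.one s hs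
  have h0 : 0 < H s := by linarith
  rw [Fh_eq, primesIn_pc, pc_split (Nat.floor_le_floor (by linarith))]
  unfold F1 F2 AA QQ
  field_simp
  ring

theorem r_nn {H : ℝ → ℝ} (hW : Win H) {s : ℝ} (hs : 0 ≤ s) : 0 ≤ 1 - 1 / H s := by
  have h1 := hW.one s hs
  have : 1 / H s ≤ 1 := by rw [div_le_one (by linarith)]; exact h1
  linarith

theorem r_le {H : ℝ → ℝ} (hW : Win H) {s : ℝ} (hs : 0 ≤ s) : 1 - 1 / H s ≤ 1 := by
  have h1 := hW.one s hs
  have : 0 < 1 / H s := by positivity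
  linarith

theorem r_mono {H : ℝ → ℝ} (hW : Win H) {s t : ℝ} (hs : 0 ≤ s) (hst : s ≤ t) : 1 - 1 / H s ≤ 1 - 1 / H t := by
  have h1 := hW.one s hs
  have h2 := hW.mono s t hs hst
  have : 1 / H t ≤ 1 / H s := one_div_le_one_div_of_le (by linarith) h2
  linarith

theorem F1_mono {H : ℝ → ℝ} (hW : Win H) {s t : ℝ} (hs : 0 ≤ s) (hst : s ≤ t) : F1 H s ≤ F1 H t := by
  unfold F1
  have a1 := AA_mono hW hs hst
  have a2 := QQ_mono hst
  have a3 := r_mono hW hs hst
  have a4 := r_nn hW hs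
  have a5 := AA_nn H s
  have a6 := QQ_nn s
  have a7 := AA_nn H t
  have a8 := QQ_nn t
  have ht : 0 ≤ t := hs.trans hst
  gcongr

theorem F2_mono {H : ℝ → ℝ} (hW : Win H) {s t : ℝ} (hs : 0 ≤ s) (hst : s ≤ t) : F2 H s ≤ F2 H t := by
  unfold F2
  have a1 := AA_mono hW hs hst
  have a2 := QQ_mono hst
  have a3 := r_mono hW hs hst
  have a4 := r_nn hW hs
  have a5 := AA_nn H s
  have a6 := QQ_nn s
  have a7 := AA_nn H t
  have a8 := QQ_nn t
  have ht : 0 ≤ t := hs.trans hst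
  gcongr

theorem F1_le {H : ℝ → ℝ} (hW : Win H) {s : ℝ} (hs : 0 ≤ s) : F1 H s ≤ 2 * (1 + H 0) * Real.exp s * s := by
  unfold F1
  have a1 := AA_le hW hs
  have a2 := QQ_le hW (s := s)
  have a3 := r_le hW hs
  have a4 := r_nn hW hs
  have a5 := AA_nn H s
  have a6 := QQ_nn s
  have b1 : AA H s * s ≤ (1 + H 0) * Real.exp s * s := by gcongr
  have b2 : QQ s * s * (1 - 1 / H s) ≤ (1 + H 0) * Real.exp s * s * 1 := by
    have := hW.one 0 le_rfl
    gcongr
  linarith

theorem F2_le {H : ℝ → ℝ} (hW : Win H) {s : ℝ} (hs : 0 ≤ s) : F2 H s ≤ 2 * (1 + H 0) * Real.exp s * s := by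
  unfold F2
  have a1 := AA_le hW hs
  have a2 := QQ_le hW (s := s)
  have a3 := r_le hW hs
  have a4 := r_nn hW hs
  have a5 := AA_nn H s
  have a6 := QQ_nn s
  have b1 : QQ s * s ≤ (1 + H 0) * Real.exp s * s := by gcongr
  have b2 : AA H s * s * (1 - 1 / H s) ≤ (1 + H 0) * Real.exp s * s * 1 := by
    have := hW.one 0 le_rfl
    gcongr
  linarith

theorem F1_nn {H : ℝ → ℝ} (hW : Win H) {s : ℝ} (hs : 0 ≤ s) : 0 ≤ F1 H s := by
  unfold F1
  have a4 := r_nn hW hs
  have a5 := AA_nn H s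
  have a6 := QQ_nn s
  positivity

theorem F2_nn {H : ℝ → ℝ} (hW : Win H) {s : ℝ} (hs : 0 ≤ s) : 0 ≤ F2 H s := by
  unfold F2
  have a4 := r_nn hW hs
  have a5 := AA_nn H s
  have a6 := QQ_nn s
  positivity

/-- the moments of `G` in the parameter `u` -/
theorem G_mom {H : ℝ → ℝ} (hW : Win H) {α : ℝ} (hα : 0 < α) : ∃ C : ℝ, 0 < C ∧ ∀ k β : ℝ, 1 ≤ k → 0 ≤ β →
    (∫ u in α..(α + 1), |G H (k * u + β)| ≤ C) ∧ ∫ u in α..(α + 1), (G H (k * u + β)) ^ 2 ≤ C := by
  obtain ⟨C, hC, h⟩ := mom hW hα.le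
  refine ⟨C + 2, by positivity, fun k β hk hβ => ?_⟩
  have hk0 : 0 < k := by linarith
  have hm : Measurable fun u => Fh H (k * u + β) := (Fh_meas hW.meas).comp ((measurable_id.const_mul k).add_const β)
  have hmG : Measurable fun u => G H (k * u + β) := (G_meas hW).comp ((measurable_id.const_mul k).add_const β)
  have i1 : IntervalIntegrable (fun u => (Fh H (k * u + β)) ^ 2) volume α (α + 1) := by
    apply ii_of_bdd (hm.pow_const 2) (by linarith) (C := (2 * (k * (α + 1) + β)) ^ 2)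
    intro x h1 h2
    have hx : 0 < x := by linarith
    rw [abs_pow, abs_of_nonneg (Fh_nn hW (by positivity))]
    apply pow_le_pow_left₀ (Fh_nn hW (by positivity))
    refine (Fh_triv hW (by positivity)).trans ?_
    gcongr
  have i2 : IntervalIntegrable (fun u => G H (k * u + β)) volume α (α + 1) := by
    apply ii_of_bdd hmG (by linarith) (C := 2 * (k * (α + 1) + β) + 1)
    intro x h1 h2
    have hx : 0 < x := by linarith
    refine (G_triv hW (by positivity)).trans ?_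
    gcongr
  have i3 : IntervalIntegrable (fun u => (G H (k * u + β)) ^ 2) volume α (α + 1) := by
    apply ii_of_bdd (hmG.pow_const 2) (by linarith) (C := (2 * (k * (α + 1) + β) + 1) ^ 2)
    intro x h1 h2
    have hx : 0 < x := by linarith
    rw [abs_pow]
    apply pow_le_pow_left₀ (abs_nonneg _)
    refine (G_triv hW (by positivity)).trans ?_
    gcongr
  have hF := h k β hk hβ
  constructor
  · have : ∫ u in α..(α + 1), |G H (k * u + β)| ≤ ∫ u in α..(α + 1), (2 + (Fh H (k * u + β)) ^ 2) := by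
      apply intervalIntegral.integral_mono_on (by linarith) i2.abs (_root_.intervalIntegrable_const.add i1)
      intro u hu
      have : 0 < u := by linarith [hu.1]
      exact G_abs_le hW (by positivity)
    rw [intervalIntegral.integral_add _root_.intervalIntegrable_const i1, intervalIntegral.integral_const, smul_eq_mul] at this
    linarith
  · have : ∫ u in α..(α + 1), (G H (k * u + β)) ^ 2 ≤ ∫ u in α..(α + 1), (1 + (Fh H (k * u + β)) ^ 2) := by
      apply intervalIntegral.integral_mono_on (by linarith) i3 (_root_.intervalIntegrable_const.add i1)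
      intro u hu
      have : 0 < u := by linarith [hu.1]
      exact G_sq_le hW (by positivity)
    rw [intervalIntegral.integral_add _root_.intervalIntegrable_const i1, intervalIntegral.integral_const, smul_eq_mul] at this
    linarith

theorem G_prod_ii {H : ℝ → ℝ} (hW : Win H) {α : ℝ} (hα : 0 < α) {k β k' β' : ℝ} (hk : 1 ≤ k) (hβ : 0 ≤ β)
    (hk' : 1 ≤ k') (hβ' : 0 ≤ β') :
    IntervalIntegrable (fun u => G H (k * u + β) * G H (k' * u + β')) volume α (α + 1) := by
  have hk0 : 0 < k := by linarith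
  have hk'0 : 0 < k' := by linarith
  have hmeas : ∀ k β : ℝ, Measurable (fun u => G H (k * u + β)) := fun k β =>
    (G_meas hW).comp ((measurable_id.const_mul k).add_const β)
  apply ii_of_bdd ((hmeas k β).mul (hmeas k' β')) (by linarith) (C := (2 * (k * (α + 1) + β) + 1) * (2 * (k' * (α + 1) + β') + 1))
  intro x h1 h2
  have hx : 0 < x := by linarith
  rw [Pi.mul_apply, abs_mul]
  apply mul_le_mul _ _ (abs_nonneg _) (by positivity)
  · refine (G_triv hW (by positivity)).trans ?_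
    gcongr
  · refine (G_triv hW (by positivity)).trans ?_
    gcongr

theorem G_prod {H : ℝ → ℝ} (hW : Win H) {α : ℝ} (hα : 0 < α) : ∃ C : ℝ, 0 < C ∧ ∀ k β k' β' : ℝ, 1 ≤ k → 0 ≤ β →
    1 ≤ k' → 0 ≤ β' → |∫ u in α..(α + 1), G H (k * u + β) * G H (k' * u + β')| ≤ C := by
  obtain ⟨C, hC, h⟩ := G_mom hW hα
  refine ⟨C, hC, fun k β k' β' hk hβ hk' hβ' => ?_⟩
  have h1 := (h k β hk hβ).2
  have h2 := (h k' β' hk' hβ').2
  have i3 : ∀ k β : ℝ, 1 ≤ k → 0 ≤ β → IntervalIntegrable (fun u => (G H (k * u + β)) ^ 2) volume α (α + 1) := by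
    intro k β hk hβ
    have := G_prod_ii hW hα hk hβ hk hβ
    simp_rw [← sq] at this
    exact this
  have h3 := intervalIntegral.norm_integral_le_integral_norm (f := fun u => G H (k * u + β) * G H (k' * u + β')) (μ := volume)
    (show α ≤ α + 1 by linarith)
  rw [Real.norm_eq_abs] at h3
  refine h3.trans ?_
  have h4 : ∫ u in α..(α + 1), ‖G H (k * u + β) * G H (k' * u + β')‖ ≤
      ∫ u in α..(α + 1), (1 / 2 * (G H (k * u + β)) ^ 2 + 1 / 2 * (G H (k' * u + β')) ^ 2) := by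
    apply intervalIntegral.integral_mono_on (by linarith) (G_prod_ii hW hα hk hβ hk' hβ').norm
      (((i3 k β hk hβ).const_mul _).add ((i3 k' β' hk' hβ').const_mul _))
    intro u _
    rw [Real.norm_eq_abs, abs_mul]
    have := sq_nonneg (|G H (k * u + β)| - |G H (k' * u + β')|)
    rw [← sq_abs (G H (k * u + β)), ← sq_abs (G H (k' * u + β'))]
    nlinarith
  refine h4.trans ?_
  rw [intervalIntegral.integral_add ((i3 k β hk hβ).const_mul _) ((i3 k' β' hk' hβ').const_mul _), intervalIntegral.integral_const_mul,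
    intervalIntegral.integral_const_mul]
  linarith

/-- **Covariance.** -/
theorem cov {H : ℝ → ℝ} (hW : Win H) {α : ℝ} (hα : 0 < α) : ∃ C R : ℝ, 0 < C ∧ 1 ≤ R ∧ ∀ k β k' β' : ℝ,
    1 ≤ k → 0 ≤ β → 1 ≤ k' → 0 ≤ β' → R * (k + β) ≤ k' + β' →
    |∫ u in α..(α + 1), G H (k * u + β) * G H (k' * u + β')| ≤ C / (k + β) := by
  obtain ⟨C₁, Y₀, hC₁, hY₀, havg⟩ := avg hW
  obtain ⟨C₂, hC₂, hmom⟩ := G_mom hW hα
  obtain ⟨C₃, hC₃, hprod⟩ := G_prod hW hα
  obtain ⟨τ, hτ⟩ : ∃ τ, τ = min α 1 := ⟨_, rfl⟩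
  have hτ0 : 0 < τ := by rw [hτ]; positivity
  have hτα : τ ≤ α := by rw [hτ]; exact min_le_left _ _
  have hτ1 : τ ≤ 1 := by rw [hτ]; exact min_le_right _ _
  obtain ⟨R, hR⟩ : ∃ R, R = (α + 3) / (0.2 * τ) + 1 := ⟨_, rfl⟩
  have hR1 : 1 ≤ R := by
    rw [hR]
    have : 0 ≤ (α + 3) / (0.2 * τ) := by positivity
    linarith
  -- large `b`
  have hev : ∀ᶠ b : ℝ in atTop, Y₀ / τ ≤ b ∧ 8 * (α + 1) * b ≤ Real.exp (0.4 * τ * b) ∧ 1 ≤ b := by
    have h1 := Pool.Agent.Q278.KS.ev_poly (8 * (α + 1)) 1 (show 0 < 0.4 * τ by positivity)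
    filter_upwards [eventually_ge_atTop (Y₀ / τ), h1, eventually_ge_atTop (1 : ℝ)] with b g1 g2 g3
    exact ⟨g1, by rwa [pow_one] at g2, g3⟩
  obtain ⟨B₀, hB₀⟩ := eventually_atTop.1 hev
  obtain ⟨A₁, hA₁⟩ : ∃ A₁, A₁ = max B₀ 1 := ⟨_, rfl⟩
  have hA₁1 : 1 ≤ A₁ := by rw [hA₁]; exact le_max_right _ _
  have hH0 : 1 ≤ H 0 := hW.one 0 le_rfl
  obtain ⟨K₀, hK₀⟩ : ∃ K₀, K₀ = 2 * (1 + H 0) * (α + 1) := ⟨_, rfl⟩
  have hK₀0 : 0 < K₀ := by rw [hK₀]; positivity
  refine ⟨max (C₃ * A₁) (C₁ / τ * (C₂ + 4 * K₀) + 4 * (2 * α + 3) * (5 / τ) * K₀), R, lt_of_lt_of_le (by positivity) (le_max_left _ _), hR1,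
    fun k β k' β' hk hβ hk' hβ' hab => ?_⟩
  have hk0 : 0 < k := by linarith
  have hk'0 : 0 < k' := by linarith
  obtain ⟨a, haa⟩ : ∃ a, a = k + β := ⟨_, rfl⟩
  obtain ⟨b, hbb⟩ : ∃ b, b = k' + β' := ⟨_, rfl⟩
  rw [← haa, ← hbb] at hab
  rw [← haa]
  have ha : 1 ≤ a := by linarith
  have ha0 : 0 < a := by linarith
  have hb1 : 1 ≤ b := by nlinarith
  have hab' : a ≤ b := by nlinarith
  have hb0 : 0 < b := by linarith
  rcases le_or_gt a A₁ with hc | hc
  · refine le_trans ?_ (div_le_div_of_nonneg_right (le_max_left _ _) ha0.le)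
    refine (hprod k β k' β' hk hβ hk' hβ').trans ?_
    rw [le_div_iff₀ ha0]
    gcongr
  · refine le_trans ?_ (div_le_div_of_nonneg_right (le_max_right _ _) ha0.le)
    have c3 : B₀ ≤ b := by
      have : B₀ ≤ A₁ := by rw [hA₁]; exact le_max_left _ _
      linarith
    obtain ⟨d1, d2, d3⟩ := hB₀ b c3
    have hbα : Y₀ ≤ b * τ := by
      rw [div_le_iff₀ hτ0] at d1
      exact d1
    -- sizes
    have hlow : ∀ κ ρ : ℝ, 0 ≤ κ → 0 ≤ ρ → ∀ u, α ≤ u → (κ + ρ) * τ ≤ κ * u + ρ := by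
      intro κ ρ hκ hρ u hu
      have h1 : κ * τ ≤ κ * u := by gcongr; linarith
      have h2 : ρ * τ ≤ ρ * 1 := by gcongr
      linarith
    have hupp : ∀ κ ρ : ℝ, 0 ≤ κ → 0 ≤ ρ → ∀ u, u ≤ α + 1 → κ * u + ρ ≤ (κ + ρ) * (α + 1) := by
      intro κ ρ hκ hρ u hu
      have h1 : κ * u ≤ κ * (α + 1) := by gcongr
      have h2 : 0 ≤ ρ * α := by positivity
      linarith
    -- the number of cells
    obtain ⟨E, hE⟩ : ∃ E, E = Real.exp (0.4 * τ * b) := ⟨_, rfl⟩
    have hE1 : 1 ≤ E := by rw [hE]; exact Real.one_le_exp (by positivity)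
    have hE0 : 0 < E := by linarith
    rw [← hE] at d2
    obtain ⟨q, hq⟩ : ∃ q : ℕ, q = ⌊k' * E⌋₊ := ⟨_, rfl⟩
    have hbE : 1 ≤ k' * E := by nlinarith
    have hq1 : (q : ℝ) ≤ k' * E := by rw [hq]; exact Nat.floor_le (by positivity)
    have hq2 : k' * E / 2 ≤ q := by
      have := Nat.lt_floor_add_one (k' * E)
      have h3 : 1 ≤ ⌊k' * E⌋₊ := Nat.le_floor (by exact_mod_cast hbE)
      have h4 : (1 : ℝ) ≤ ⌊k' * E⌋₊ := by exact_mod_cast h3
      rw [hq]
      linarith
    have hq0 : (0 : ℝ) < q := lt_of_lt_of_le (by positivity) hq2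
    have hqn : 0 < q := by exact_mod_cast hq0
    have hbq1 : 1 / E ≤ k' / q := by
      rw [div_le_div_iff₀ hE0 hq0]
      linarith
    have hbq2 : k' / q ≤ 2 * (1 / E) := by
      rw [div_le_iff₀ hq0]
      calc k' = 2 * (1 / E) * (k' * E / 2) := by field_simp
        _ ≤ _ := by gcongr
    have hgb : ∀ κ ρ : ℝ, 1 ≤ κ → 0 ≤ ρ → κ + ρ ≤ b → ∀ u, α ≤ u → u ≤ α + 1 → |G H (κ * u + ρ)| ≤ b * (2 * α + 3) := by
      intro κ ρ hκ hρ hκρ u h1 h2
      have hu : 0 < u := by linarith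
      have hκ0 : 0 < κ := by linarith
      refine (G_triv hW (by positivity)).trans ?_
      have h3 := hupp κ ρ hκ0.le hρ u h2
      have h4 : (κ + ρ) * (α + 1) ≤ b * (α + 1) := by gcongr
      nlinarith
    obtain ⟨V, hV⟩ : ∃ V, V = K₀ * a * Real.exp (a * (α + 1)) := ⟨_, rfl⟩
    have hV0 : 0 < V := by rw [hV]; positivity
    obtain ⟨E', hE'⟩ : ∃ E', E' = Real.exp (0.2 * τ * b) := ⟨_, rfl⟩
    have hE'0 : 0 < E' := by rw [hE']; exact Real.exp_pos _
    have hEE : E = E' * E' := by rw [hE, hE', ← Real.exp_add]; congr 1; ring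
    have hVb : V * (1 / E') ≤ K₀ / a := by
      have e5 : a * (α + 3) ≤ 0.2 * τ * b := by
        have e6 : R * (0.2 * τ) = (α + 3) + 0.2 * τ := by
          rw [hR]
          field_simp
        have e7 : R * a * (0.2 * τ) ≤ b * (0.2 * τ) := by gcongr
        nlinarith
      have e6 : 1 / E' ≤ Real.exp (-(a * (α + 3))) := by
        rw [hE', one_div, ← Real.exp_neg]
        exact Real.exp_le_exp.2 (by linarith)
      have e7 : Real.exp (a * (α + 1)) * Real.exp (-(a * (α + 3))) = Real.exp (-(2 * a)) := by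
        rw [← Real.exp_add]; congr 1; ring
      have e8 : a * Real.exp (-(2 * a)) ≤ 1 / a := by
        rw [Real.exp_neg, ← div_eq_mul_inv, div_le_div_iff₀ (Real.exp_pos _) ha0]
        have e9 := Real.add_one_le_exp a
        have e10 : Real.exp (2 * a) = Real.exp a * Real.exp a := by rw [← Real.exp_add]; congr 1; ring
        rw [e10]
        nlinarith [Real.exp_pos a]
      calc V * (1 / E') ≤ V * Real.exp (-(a * (α + 3))) := by gcongr
        _ = K₀ * (a * (Real.exp (a * (α + 1)) * Real.exp (-(a * (α + 3))))) := by rw [hV]; ring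
        _ = K₀ * (a * Real.exp (-(2 * a))) := by rw [e7]
        _ ≤ K₀ * (1 / a) := by gcongr
        _ = K₀ / a := by ring
    have hKa : K₀ / a ≤ K₀ := div_le_self hK₀0.le ha
    have hbE' : b * (1 / E') ≤ 5 / τ := by
      have e1 : 0.2 * τ * b ≤ E' := by
        rw [hE']
        have := Real.add_one_le_exp (0.2 * τ * b)
        linarith
      rw [mul_one_div, div_le_div_iff₀ hE'0 hτ0]
      linarith
    have hE'1 : 1 ≤ E' := by rw [hE']; exact Real.one_le_exp (by positivity)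
    have hEE2 : 1 / E = (1 / E') * (1 / E') := by rw [hEE]; field_simp
    have hVE : V * (1 / E) ≤ K₀ := by
      rw [hEE2]
      have : 1 / E' ≤ 1 := by rw [div_le_one hE'0]; exact hE'1
      calc V * (1 / E' * (1 / E')) = (V * (1 / E')) * (1 / E') := by ring
        _ ≤ (K₀ / a) * 1 := by gcongr
        _ ≤ K₀ := by linarith
    have hVbE : V * b * (1 / E) ≤ 5 / τ * (K₀ / a) := by
      rw [hEE2]
      calc V * b * (1 / E' * (1 / E')) = (b * (1 / E')) * (V * (1 / E')) := by ring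
        _ ≤ 5 / τ * (K₀ / a) := by gcongr
    have hVF : ∀ F : ℝ → ℝ, (∀ s, 0 ≤ s → 0 ≤ F s) → (∀ s, 0 ≤ s → F s ≤ 2 * (1 + H 0) * Real.exp s * s) →
        F (k * (α + 1) + β) - F (k * α + β) ≤ V := by
      intro F h1 h2
      have h3 := h1 (k * α + β) (by positivity)
      have h4 := h2 (k * (α + 1) + β) (by positivity)
      have h5 : k * (α + 1) + β ≤ a * (α + 1) := by rw [haa]; exact hupp k β hk0.le hβ (α + 1) le_rfl
      have h6 : 2 * (1 + H 0) * Real.exp (k * (α + 1) + β) * (k * (α + 1) + β) ≤ V := by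
        calc 2 * (1 + H 0) * Real.exp (k * (α + 1) + β) * (k * (α + 1) + β)
            ≤ 2 * (1 + H 0) * Real.exp (a * (α + 1)) * (a * (α + 1)) := by gcongr
          _ = V := by rw [hV, hK₀]; ring
      linarith
    have hfin := cut (f := fun u => G H (k * u + β)) (g := fun u => G H (k' * u + β')) (f₁ := fun u => F1 H (k * u + β))
      (f₂ := fun u => F2 H (k * u + β) + 1) (α := α) (M := b * (2 * α + 3)) (V := V)
      (κ := C₁ / τ / a) (q := q) ((G_meas hW).comp ((measurable_id.const_mul k).add_const β))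
      ((G_meas hW).comp ((measurable_id.const_mul k').add_const β')) hqn
      (hgb k β hk hβ (by linarith)) (hgb k' β' hk' hβ' hbb.ge) (fun u h1 h2 => by
        have hu : 0 < u := by linarith
        show Fh H (k * u + β) - 1 = F1 H (k * u + β) - (F2 H (k * u + β) + 1)
        rw [F12 hW (by positivity)]
        ring) (fun u v h1 h2 h3 => by
        have hu : 0 < u := by linarith
        exact F1_mono hW (by positivity) (by gcongr)) (fun u v h1 h2 h3 => by
        have hu : 0 < u := by linarith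
        have := F2_mono hW (s := k * u + β) (t := k * v + β) (by positivity) (by gcongr)
        show F2 H (k * u + β) + 1 ≤ F2 H (k * v + β) + 1
        linarith) (hVF (F1 H) (fun s hs => F1_nn hW hs) (fun s hs => F1_le hW hs)) (by
        have := hVF (F2 H) (fun s hs => F2_nn hW hs) (fun s hs => F2_le hW hs)
        show F2 H (k * (α + 1) + β) + 1 - (F2 H (k * α + β) + 1) ≤ V
        linarith) ?_ (by positivity) (by positivity)
    · refine hfin.trans ?_
      have m1 := (hmom k β hk hβ).1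
      have hqk : 1 / (q : ℝ) ≤ k' / q := by gcongr
      have hqE : 1 / (q : ℝ) ≤ 2 * (1 / E) := hqk.trans hbq2
      have q1 : 2 * V * (1 / q) ≤ 4 * K₀ := by
        calc 2 * V * (1 / q) ≤ 2 * V * (2 * (1 / E)) := by gcongr
          _ = 4 * (V * (1 / E)) := by ring
          _ ≤ 4 * K₀ := by gcongr
      have q2 : 2 * V * (b * (2 * α + 3) * (1 / q)) ≤ 4 * (2 * α + 3) * (5 / τ) * K₀ / a := by
        calc 2 * V * (b * (2 * α + 3) * (1 / q)) ≤ 2 * V * (b * (2 * α + 3) * (2 * (1 / E))) := by gcongr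
          _ = 4 * (2 * α + 3) * (V * b * (1 / E)) := by ring
          _ ≤ 4 * (2 * α + 3) * (5 / τ * (K₀ / a)) := by gcongr
          _ = _ := by ring
      calc C₁ / τ / a * ((∫ u in α..(α + 1), |G H (k * u + β)|) + 2 * V * (1 / q)) + 2 * V * (b * (2 * α + 3) * (1 / q))
          ≤ C₁ / τ / a * (C₂ + 4 * K₀) + 4 * (2 * α + 3) * (5 / τ) * K₀ / a := by gcongr
        _ = _ := by ring
    · -- mean values
      intro u h1 h2
      have hu0 : 0 < u := by linarith
      have hqpos : 0 < 1 / (q : ℝ) := by positivity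
      obtain ⟨y, hy⟩ : ∃ y, y = k' * u + β' := ⟨_, rfl⟩
      have hyl : b * τ ≤ y := by rw [hy, hbb]; exact hlow k' β' hk'0.le hβ' u h1
      have hyu : y ≤ b * (α + 1) := by rw [hy, hbb]; exact hupp k' β' hk'0.le hβ' u (by linarith)
      have g1 : Y₀ ≤ y := by linarith
      have hy0 : 0 < y := by linarith
      have g2 := havg y (k' * (1 / q)) g1 (by
        rw [mul_one_div]
        refine le_trans ?_ hbq1
        rw [one_div, hE, ← Real.exp_neg]
        exact Real.exp_le_exp.2 (by linarith)) (by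
        rw [mul_one_div]
        refine hbq2.trans ?_
        rw [mul_one_div, div_le_div_iff₀ hE0 (by positivity)]
        linarith)
      have e1 : ∫ v in u..(u + 1 / q), G H (k' * v + β') = k'⁻¹ * ((∫ s in y..(y + k' * (1 / q)), Fh H s) - k' * (1 / q)) := by
        have e2 : ∫ v in u..(u + 1 / q), G H (k' * v + β') = k'⁻¹ * ∫ s in y..(y + k' * (1 / q)), G H s := by
          rw [intervalIntegral.integral_comp_mul_add (fun s => G H s) hk'0.ne', smul_eq_mul, hy]
          congr 2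
          ring
        rw [e2]
        congr 1
        unfold G
        rw [intervalIntegral.integral_sub (Fh_ii hW hy0.le (by
          have : 0 ≤ k' * (1 / (q : ℝ)) := by positivity
          linarith)) _root_.intervalIntegrable_const, intervalIntegral.integral_const, smul_eq_mul, mul_one]
        ring
      show |∫ v in u..(u + 1 / q), G H (k' * v + β')| ≤ _
      rw [e1, abs_mul, abs_of_pos (by positivity : 0 < k'⁻¹)]
      calc k'⁻¹ * |(∫ s in y..(y + k' * (1 / q)), Fh H s) - k' * (1 / q)|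
          ≤ k'⁻¹ * (C₁ / y * (k' * (1 / q))) := by gcongr
        _ = C₁ / y * (1 / q) := by field_simp
        _ ≤ C₁ / τ / a * (1 / q) := by
            apply mul_le_mul_of_nonneg_right _ (by positivity)
            rw [div_div, div_le_div_iff_of_pos_left hC₁ hy0 (by positivity)]
            calc τ * a ≤ τ * b := by gcongr
              _ = b * τ := by ring
              _ ≤ y := hyl

end Pool.Agent.H40E9.GP
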