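import Pool.Agent.H40E9.GP.WLln3

/-!
# The logarithmic mean along `a ^ n` and the mean along `a ^ (v n)` for lacunary exponents
-/

set_option autoImplicit false

namespace Pool.Agent.H40E9.GP

open Finset Filter Topology MeasureTheory Pool.Agent.U26Z.DX

theorem blocks_log : Blocks (fun n : ℕ => (n : ℝ) + 1) (fun n : ℕ => 1 / ((n : ℝ) + 1)) 2 := by
  classical
  intro V hV N
  have hV0 : 0 < V := by linarith
  obtain ⟨S, hS⟩ : ∃ S : Finset ℕ, S = (range N).filter (fun n : ℕ => V ≤ (n : ℝ) + 1 ∧ (n : ℝ) + 1 < 2 * V) := ⟨_, rfl⟩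
  have hsub : S.image (fun n => n + 1) ⊆ Ioc (⌈V⌉₊ - 1) (⌈V⌉₊ - 1 + ⌊V + 1⌋₊) := by
    intro k hk
    rw [mem_image] at hk
    obtain ⟨n, hn, rfl⟩ := hk
    rw [hS, mem_filter] at hn
    have h1 : ⌈V⌉₊ ≤ n + 1 := Nat.ceil_le.2 (by push_cast; exact hn.2.1)
    have h2 : 0 < ⌈V⌉₊ := Nat.ceil_pos.2 hV0
    rw [mem_Ioc]
    refine ⟨by omega, ?_⟩
    have h3 : V ≤ ⌈V⌉₊ := Nat.le_ceil V
    have h4 : n + 1 - (⌈V⌉₊ - 1) ≤ ⌊V + 1⌋₊ := by
      apply Nat.le_floor
      rw [Nat.cast_sub (by omega), Nat.cast_sub (by omega)]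
      push_cast
      linarith [hn.2.2]
    omega
  have hcard : (S.card : ℝ) ≤ V + 1 := by
    have h1 : (S.image (fun n => n + 1)).card = S.card := card_image_of_injective _ (fun a b h => by simpa using h)
    have h2 := card_le_card hsub
    rw [h1, Nat.card_Ioc, Nat.add_sub_cancel_left] at h2
    have h3 : ((S.card : ℕ) : ℝ) ≤ (⌊V + 1⌋₊ : ℕ) := by exact_mod_cast h2
    exact h3.trans (Nat.floor_le (by linarith))
  have hle : ∑ n ∈ S, 1 / ((n : ℝ) + 1) ≤ ∑ n ∈ S, 1 / V := by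
    apply sum_le_sum
    intro n hn
    rw [hS, mem_filter] at hn
    exact one_div_le_one_div_of_le hV0 hn.2.1
  rw [sum_const, nsmul_eq_mul] at hle
  have : (S.card : ℝ) * (1 / V) ≤ 2 := by
    rw [mul_one_div, div_le_iff₀ hV0]
    linarith
  rw [← hS]
  linarith

theorem lac_pow {v : ℕ → ℝ} {q : ℝ} (hq : 1 < q) (hv0 : 1 ≤ v 0) (hv : ∀ n, q * v n ≤ v (n + 1)) (n k : ℕ) :
    q ^ k * v n ≤ v (n + k) := by
  induction k with
  | zero => simp
  | succ k ih =>
    calc q ^ (k + 1) * v n = q * (q ^ k * v n) := by ring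
      _ ≤ q * v (n + k) := by gcongr
      _ ≤ v (n + k + 1) := hv _

theorem lac_one {v : ℕ → ℝ} {q : ℝ} (hq : 1 < q) (hv0 : 1 ≤ v 0) (hv : ∀ n, q * v n ≤ v (n + 1)) (n : ℕ) : 1 ≤ v n := by
  have h := lac_pow hq hv0 hv 0 n
  rw [zero_add] at h
  have : 1 ≤ q ^ n := one_le_pow₀ hq.le
  nlinarith

theorem lac_blocks {v : ℕ → ℝ} {q : ℝ} (hq : 1 < q) (hv0 : 1 ≤ v 0) (hv : ∀ n, q * v n ≤ v (n + 1)) :
    ∃ C : ℝ, Blocks v (fun _ => 1) C := by
  classical
  obtain ⟨L, hL⟩ := pow_unbounded_of_one_lt 2 hq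
  refine ⟨L, fun V hV N => ?_⟩
  obtain ⟨S, hS⟩ : ∃ S : Finset ℕ, S = (range N).filter (fun n => V ≤ v n ∧ v n < 2 * V) := ⟨_, rfl⟩
  rw [← hS, sum_const, nsmul_eq_mul, mul_one]
  have hcard : S.card ≤ L := by
    rcases S.eq_empty_or_nonempty with he | hne
    · rw [he]; simp
    · have hm := S.min'_mem hne
      obtain ⟨m, hmd⟩ : ∃ m, m = S.min' hne := ⟨_, rfl⟩
      rw [← hmd] at hm
      have hsub : S ⊆ Ico m (m + L) := by
        intro n hn
        have h1 : m ≤ n := by rw [hmd]; exact S.min'_le n hn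
        rw [mem_Ico]
        refine ⟨h1, ?_⟩
        by_contra hcon
        push Not at hcon
        rw [hS, mem_filter] at hm hn
        obtain ⟨k, rfl⟩ : ∃ k, n = m + k := ⟨n - m, by omega⟩
        have h2 := lac_pow hq hv0 hv m k
        have h3 : q ^ L ≤ q ^ k := pow_le_pow_right₀ hq.le (by omega)
        have h4 : 1 ≤ v m := lac_one hq hv0 hv m
        have h5 : 2 * v m < q ^ L * v m := by
          apply mul_lt_mul_of_pos_right hL
          linarith
        have h6 : q ^ L * v m ≤ q ^ k * v m := by gcongr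
        linarith [hm.2.1, hn.2.2]
      have := card_le_card hsub
      rwa [Nat.card_Ico, Nat.add_sub_cancel_left] at this
  exact_mod_cast hcard

theorem w_log : Tendsto (fun N : ℕ => ∑ n ∈ range N, 1 / ((n : ℝ) + 1)) atTop atTop :=
  Real.tendsto_sum_range_one_div_nat_succ_atTop

/-- the special case of the powers `a ^ (v n)` -/
theorem lln_pow {g : ℝ → ℝ} (hh : Window g) {v w : ℕ → ℝ} {C : ℝ} (hv : ∀ n, 1 ≤ v n) (hv2 : Tendsto v atTop atTop)
    (hw : ∀ n, 0 ≤ w n) (hB : Blocks v w C) (hW : Tendsto (fun N => ∑ n ∈ range N, w n) atTop atTop) :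
    ∀ᵐ a : ℝ, 1 < a → Mean (fun n => density (a ^ v n) (g (a ^ v n))) w := by
  have h := lln hh (k := v) (b := fun _ => 1) hv (fun _ => le_rfl) (by simpa using hv2) hw (by simpa using hB) hW
  simpa using h

theorem log_mean {g : ℝ → ℝ} (hh : Window g) :
    ∀ᵐ a : ℝ, 1 < a → Mean (fun n => density (a ^ ((n : ℝ) + 1)) (g (a ^ ((n : ℝ) + 1)))) (fun n => 1 / ((n : ℝ) + 1)) := by
  apply lln_pow hh (C := 2) (v := fun n : ℕ => (n : ℝ) + 1) (w := fun n : ℕ => 1 / ((n : ℝ) + 1))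
  · intro n
    have : (0 : ℝ) ≤ n := Nat.cast_nonneg n
    linarith
  · exact tendsto_atTop_add_const_right _ _ tendsto_natCast_atTop_atTop
  · intro n
    positivity
  · exact blocks_log
  · exact w_log

end Pool.Agent.H40E9.GP
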