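import Pool.Agent.H40E9.GP.WFin

/-!
# The mean number of the primes in `(a ^ n, a ^ n + lam log (a ^ n)]`
-/

set_option autoImplicit false

namespace Pool.Agent.H40E9.GP

open Finset Filter Topology MeasureTheory Pool.Agent.U26Z.DX

theorem window_log {lam : ℝ} (hlam : 0 < lam) : Window (fun x => lam * Real.log x) := by
  have h1 : ∀ᶠ x : ℝ in atTop, lam * Real.log x ≤ x ^ (0.59 : ℝ) := by
    have h := (isLittleO_log_rpow_atTop (show (0 : ℝ) < 0.59 by norm_num)).def (show 0 < 1 / lam by positivity)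
    filter_upwards [h, eventually_ge_atTop (1 : ℝ)] with x hx hx1
    rw [Real.norm_eq_abs, Real.norm_eq_abs, abs_of_nonneg (Real.log_nonneg hx1), abs_of_nonneg (by positivity)] at hx
    calc lam * Real.log x ≤ lam * (1 / lam * x ^ (0.59 : ℝ)) := by gcongr
      _ = x ^ (0.59 : ℝ) := by field_simp
  obtain ⟨x₁, hx₁⟩ := eventually_atTop.1 h1
  refine ⟨lam, max x₁ (Real.exp 1), hlam, fun x y hx hxy => ?_⟩
  have hxe : Real.exp 1 ≤ x := (le_max_right _ _).trans hx
  have hx0 : 0 < x := (Real.exp_pos 1).trans_le hxe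
  have hlog : Real.log x ≤ Real.log y := Real.log_le_log hx0 hxy
  refine ⟨mul_le_mul_of_nonneg_left hlog hlam.le, ?_, le_rfl, hx₁ x ((le_max_left _ _).trans hx)⟩
  have h2 := Real.log_div_self_antitoneOn (show x ∈ {x : ℝ | Real.exp 1 ≤ x} from hxe)
    (show y ∈ {x : ℝ | Real.exp 1 ≤ x} from hxe.trans hxy) hxy
  have h3 : lam * (Real.log y / y) ≤ lam * (Real.log x / x) := mul_le_mul_of_nonneg_left h2 hlam.le
  calc lam * Real.log y / y = lam * (Real.log y / y) := by ring
    _ ≤ lam * (Real.log x / x) := h3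
    _ = lam * Real.log x / x := by ring

theorem primesIn_mono {x H H' : ℝ} (h : H ≤ H') : primesIn x H ≤ primesIn x H' := by
  unfold primesIn
  apply card_le_card
  apply filter_subset_filter
  exact Ioc_subset_Ioc_right (Nat.floor_le_floor (by linarith))

theorem poisson_one {lam : ℝ} (hlam : 0 < lam) : ∀ᵐ a : ℝ, 1 < a →
    Tendsto (fun N : ℕ => (∑ n ∈ range N, 1 / ((n : ℝ) + 1) * (primesIn (a ^ ((n : ℝ) + 1)) (lam * Real.log (a ^ ((n : ℝ) + 1))) : ℝ)) /
      ∑ n ∈ range N, 1 / ((n : ℝ) + 1)) atTop (𝓝 lam) := by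
  filter_upwards [log_mean (window_log hlam)] with a ha h1
  have h2 := ((ha h1).tendsto w_log).const_mul lam
  rw [mul_one] at h2
  refine h2.congr fun N => ?_
  rw [← mul_div_assoc, mul_sum]
  congr 1
  apply sum_congr rfl
  intro n _
  have hn : (0 : ℝ) < (n : ℝ) + 1 := by positivity
  have hlog : 0 < Real.log (a ^ ((n : ℝ) + 1)) := Real.log_pos (Real.one_lt_rpow h1 hn)
  unfold density
  field_simp

/-- **The Poisson scale.** For almost every `a > 1` and all `lam > 0` the mean is `lam`. -/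
theorem poisson : ∀ᵐ a : ℝ, 1 < a → ∀ lam : ℝ, 0 < lam →
    Tendsto (fun N : ℕ => (∑ n ∈ range N, 1 / ((n : ℝ) + 1) * (primesIn (a ^ ((n : ℝ) + 1)) (lam * Real.log (a ^ ((n : ℝ) + 1))) : ℝ)) /
      ∑ n ∈ range N, 1 / ((n : ℝ) + 1)) atTop (𝓝 lam) := by
  have h : ∀ᵐ a : ℝ, ∀ q : ℚ, 0 < q → 1 < a →
      Tendsto (fun N : ℕ => (∑ n ∈ range N, 1 / ((n : ℝ) + 1) *
        (primesIn (a ^ ((n : ℝ) + 1)) (q * Real.log (a ^ ((n : ℝ) + 1))) : ℝ)) /
        ∑ n ∈ range N, 1 / ((n : ℝ) + 1)) atTop (𝓝 (q : ℝ)) := by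
    rw [ae_all_iff]
    intro q
    by_cases hq : 0 < q
    · filter_upwards [poisson_one (lam := (q : ℝ)) (by exact_mod_cast hq)] with a ha _ h1
      exact ha h1
    · exact Eventually.of_forall fun a h => absurd h hq
  filter_upwards [h] with a ha h1 lam hlam
  have hmono : ∀ (N : ℕ) (s t : ℝ), s ≤ t →
      (∑ n ∈ range N, 1 / ((n : ℝ) + 1) * (primesIn (a ^ ((n : ℝ) + 1)) (s * Real.log (a ^ ((n : ℝ) + 1))) : ℝ)) /
        ∑ n ∈ range N, 1 / ((n : ℝ) + 1) ≤
      (∑ n ∈ range N, 1 / ((n : ℝ) + 1) * (primesIn (a ^ ((n : ℝ) + 1)) (t * Real.log (a ^ ((n : ℝ) + 1))) : ℝ)) /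
        ∑ n ∈ range N, 1 / ((n : ℝ) + 1) := by
    intro N s t hst
    apply div_le_div_of_nonneg_right _ (sum_nonneg fun n _ => by positivity)
    apply sum_le_sum
    intro n _
    have hn : (0 : ℝ) < (n : ℝ) + 1 := by positivity
    have hlog : 0 < Real.log (a ^ ((n : ℝ) + 1)) := Real.log_pos (Real.one_lt_rpow h1 hn)
    apply mul_le_mul_of_nonneg_left _ (by positivity)
    exact_mod_cast primesIn_mono (mul_le_mul_of_nonneg_right hst hlog.le)
  rw [tendsto_order]
  constructor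
  · intro b hb
    obtain ⟨q, hq1, hq2⟩ := exists_rat_btwn (max_lt hb hlam)
    have hq0 : (0 : ℝ) < q := (le_max_right _ _).trans_lt hq1
    have hqb : b < q := (le_max_left _ _).trans_lt hq1
    have h3 := (ha q (by exact_mod_cast hq0) h1).eventually_const_lt hqb
    filter_upwards [h3] with N hN
    exact hN.trans_le (hmono N q lam hq2.le)
  · intro b hb
    obtain ⟨q, hq1, hq2⟩ := exists_rat_btwn hb
    have hq0 : (0 : ℝ) < q := hlam.trans hq1
    have h3 := (ha q (by exact_mod_cast hq0) h1).eventually_lt_const hq2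
    filter_upwards [h3] with N hN
    exact (hmono N lam q hq1.le).trans_lt hN

end Pool.Agent.H40E9.GP
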