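import Pool.Agent.H40E9.GP.WCov

/-!
# The strong law of large numbers for the densities along the sequences `a ^ (v n)`
-/

set_option autoImplicit false

namespace Pool.Agent.H40E9.GP

open Finset Filter Topology MeasureTheory Pool.Agent.U26Z.DX
open scoped ENNReal NNReal

open Classical in
/-- the weights of the exponents in `[V, 2 V)` have a bounded sum -/
def Blocks (v w : ℕ → ℝ) (C : ℝ) : Prop :=
  ∀ V : ℝ, 1 ≤ V → ∀ N : ℕ, ∑ n ∈ (range N).filter (fun n => V ≤ v n ∧ v n < 2 * V), w n ≤ C

section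
variable {v w : ℕ → ℝ} {C : ℝ}

theorem Blocks.nonneg (hB : Blocks v w C) : 0 ≤ C := by
  have := hB 1 le_rfl 0
  simpa using this

theorem Blocks.le (hv : ∀ n, 1 ≤ v n) (hw : ∀ n, 0 ≤ w n) (hB : Blocks v w C) (n : ℕ) : w n ≤ C := by
  classical
  refine le_trans ?_ (hB (v n) (hv n) (n + 1))
  apply single_le_sum (f := w) (fun i _ => hw i)
  rw [mem_filter, mem_range]
  refine ⟨by omega, le_rfl, ?_⟩
  have := hv n
  linarith

open Classical in
theorem Blocks.near (hv : ∀ n, 1 ≤ v n) (hw : ∀ n, 0 ≤ w n) (hB : Blocks v w C) {R : ℝ} (hR : 1 ≤ R) {L : ℕ}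
    (hL : R * R < 2 ^ L) (N m : ℕ) : ∑ n ∈ (range N).filter (fun n => v n ≤ R * v m ∧ v m ≤ R * v n), w n ≤ L * C := by
  obtain ⟨V, hV⟩ : ∃ V, V = max 1 (v m / R) := ⟨_, rfl⟩
  have hV1 : 1 ≤ V := by rw [hV]; exact le_max_left _ _
  have hR0 : 0 < R := by linarith
  have hVm : v m ≤ R * V := by
    have : v m / R ≤ V := by rw [hV]; exact le_max_right _ _
    rw [div_le_iff₀ hR0] at this
    linarith
  calc ∑ n ∈ (range N).filter (fun n => v n ≤ R * v m ∧ v m ≤ R * v n), w n
      ≤ ∑ n ∈ range N, ∑ i ∈ range L, (if 2 ^ i * V ≤ v n ∧ v n < 2 * (2 ^ i * V) then w n else 0) := by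
        rw [sum_filter]
        apply sum_le_sum
        intro n hn
        have hnn : ∀ i ∈ range L, 0 ≤ (if 2 ^ i * V ≤ v n ∧ v n < 2 * (2 ^ i * V) then w n else 0) := by
          intro i _
          split_ifs
          · exact hw n
          · exact le_rfl
        split_ifs with h
        · -- the block of `v n`
          have hVn : V ≤ v n := by
            rw [hV]
            apply max_le (hv n)
            rw [div_le_iff₀ hR0]
            linarith [h.2]
          obtain ⟨i, hi1, hi2⟩ := exists_nat_pow_near (show 1 ≤ v n / V by rw [le_div_iff₀ (by linarith)]; linarith)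
            (show (1 : ℝ) < 2 by norm_num)
          rw [le_div_iff₀ (by linarith)] at hi1
          rw [div_lt_iff₀ (by linarith)] at hi2
          have hiL : i < L := by
            by_contra hcon
            push Not at hcon
            have e1 : (2 : ℝ) ^ L ≤ 2 ^ i := pow_le_pow_right₀ (by norm_num) hcon
            have e2 : v n ≤ R * R * V := by
              calc v n ≤ R * v m := h.1
                _ ≤ R * (R * V) := by gcongr
                _ = _ := by ring
            have e3 : R * R * V < 2 ^ i * V := by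
              apply mul_lt_mul_of_pos_right _ (by linarith)
              linarith
            linarith
          have e4 : w n = (if 2 ^ i * V ≤ v n ∧ v n < 2 * (2 ^ i * V) then w n else 0) := by
            rw [if_pos ⟨hi1, by rw [pow_succ] at hi2; linarith⟩]
          calc w n = (if 2 ^ i * V ≤ v n ∧ v n < 2 * (2 ^ i * V) then w n else 0) := e4
            _ ≤ _ := single_le_sum hnn (mem_range.2 hiL)
        · exact sum_nonneg hnn
    _ = ∑ i ∈ range L, ∑ n ∈ (range N).filter (fun n => 2 ^ i * V ≤ v n ∧ v n < 2 * (2 ^ i * V)), w n := by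
        rw [sum_comm]
        apply sum_congr rfl
        intro i _
        rw [sum_filter]
    _ ≤ ∑ i ∈ range L, C := by
        apply sum_le_sum
        intro i _
        apply hB
        have : (1 : ℝ) ≤ 2 ^ i := one_le_pow₀ (by norm_num)
        nlinarith
    _ = L * C := by rw [sum_const, card_range, nsmul_eq_mul]

theorem Blocks.div (hv : ∀ n, 1 ≤ v n) (hw : ∀ n, 0 ≤ w n) (hB : Blocks v w C) (N : ℕ) :
    ∑ n ∈ range N, w n / v n ≤ 2 * C := by
  classical
  obtain ⟨I, hI⟩ := pow_unbounded_of_one_lt (∑ n ∈ range N, v n) (show (1 : ℝ) < 2 by norm_num)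
  calc ∑ n ∈ range N, w n / v n
      ≤ ∑ n ∈ range N, ∑ i ∈ range I, (if 2 ^ i ≤ v n ∧ v n < 2 * 2 ^ i then w n else 0) * (1 / 2) ^ i := by
        apply sum_le_sum
        intro n hn
        have hvn : v n < 2 ^ I := lt_of_le_of_lt (single_le_sum (f := v) (fun i _ => by linarith [hv i]) hn) hI
        have hnn : ∀ i ∈ range I, 0 ≤ (if 2 ^ i ≤ v n ∧ v n < 2 * 2 ^ i then w n else 0) * (1 / 2 : ℝ) ^ i := by
          intro i _
          apply mul_nonneg _ (by positivity)
          split_ifs
          · exact hw n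
          · exact le_rfl
        obtain ⟨i, hi1, hi2⟩ := exists_nat_pow_near (hv n) (show (1 : ℝ) < 2 by norm_num)
        have hiI : i < I := by
          by_contra hcon
          push Not at hcon
          have e1 : (2 : ℝ) ^ I ≤ 2 ^ i := pow_le_pow_right₀ (by norm_num) hcon
          linarith
        refine le_trans ?_ (single_le_sum hnn (mem_range.2 hiI))
        rw [if_pos ⟨hi1, by rw [pow_succ] at hi2; linarith⟩, div_eq_mul_inv]
        apply mul_le_mul_of_nonneg_left _ (hw n)
        rw [one_div, inv_pow]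
        exact inv_anti₀ (by positivity) hi1
    _ = ∑ i ∈ range I, (∑ n ∈ (range N).filter (fun n => 2 ^ i ≤ v n ∧ v n < 2 * 2 ^ i), w n) * (1 / 2) ^ i := by
        rw [sum_comm]
        apply sum_congr rfl
        intro i _
        rw [← sum_mul, sum_filter]
    _ ≤ ∑ i ∈ range I, C * (1 / 2) ^ i := by
        apply sum_le_sum
        intro i _
        apply mul_le_mul_of_nonneg_right _ (by positivity)
        exact hB _ (one_le_pow₀ (by norm_num)) N
    _ = C * ∑ i ∈ range I, (1 / 2 : ℝ) ^ i := by rw [mul_sum]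
    _ ≤ C * 2 := by
        apply mul_le_mul_of_nonneg_left _ hB.nonneg
        have := (summable_geometric_two).sum_le_tsum (range I) (fun i _ => by positivity)
        rwa [tsum_geometric_two] at this
    _ = 2 * C := by ring

end

open Classical in
/-- the second moment -/
theorem second {H : ℝ → ℝ} (hW : Win H) {k β : ℕ → ℝ} {C : ℝ} (hk : ∀ n, 1 ≤ k n) (hβ : ∀ n, 0 ≤ β n) (hC : 0 ≤ C)
    {α : ℝ} (hα : 0 < α) : ∃ K : ℝ, 0 < K ∧ ∀ w : ℕ → ℝ, (∀ n, 0 ≤ w n) → Blocks (fun n => k n + β n) w C → ∀ N : ℕ,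
      ∫ u in α..(α + 1), (∑ n ∈ range N, w n * G H (k n * u + β n)) ^ 2 ≤ K * ∑ n ∈ range N, w n := by
  obtain ⟨C₁, R, hC₁, hR, hcov⟩ := cov hW hα
  obtain ⟨C₂, hC₂, hprod⟩ := G_prod hW hα
  obtain ⟨L, hL⟩ := pow_unbounded_of_one_lt (R * R) (show (1 : ℝ) < 2 by norm_num)
  obtain ⟨C₃, hC₃d⟩ : ∃ C₃, C₃ = (L : ℝ) * C := ⟨_, rfl⟩
  have hC₃ : 0 ≤ C₃ := by rw [hC₃d]; positivity
  refine ⟨C₂ * C₃ + 2 * (C₁ * (2 * C)) + 1, by positivity, fun w hw hB N => ?_⟩
  obtain ⟨v, hvd⟩ : ∃ v : ℕ → ℝ, v = fun n => k n + β n := ⟨_, rfl⟩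
  have hvn : ∀ n, v n = k n + β n := fun n => by rw [hvd]
  rw [← hvd] at hB
  have hv : ∀ n, 1 ≤ v n := fun n => by rw [hvn]; linarith [hk n, hβ n]
  have hnear : ∀ N m : ℕ, ∑ n ∈ (range N).filter (fun n => v n ≤ R * v m ∧ v m ≤ R * v n), w n ≤ C₃ := by
    intro N m
    rw [hC₃d]
    exact hB.near hv hw hR hL N m
  have hii : ∀ n m, IntervalIntegrable (fun u => G H (k n * u + β n) * G H (k m * u + β m)) volume α (α + 1) := fun n m =>
    G_prod_ii hW hα (hk n) (hβ n) (hk m) (hβ m)
  have hI : ∀ n m, |∫ u in α..(α + 1), G H (k n * u + β n) * G H (k m * u + β m)| ≤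
      (if v n ≤ R * v m ∧ v m ≤ R * v n then C₂ else 0) + (C₁ / v n + C₁ / v m) := by
    intro n m
    have h1 := hv n
    have h2 := hv m
    have p1 : 0 < C₁ / v n := by positivity
    have p2 : 0 < C₁ / v m := by positivity
    split_ifs with h
    · have h3 := hprod (k n) (β n) (k m) (β m) (hk n) (hβ n) (hk m) (hβ m)
      linarith
    · rw [not_and_or, not_le, not_le] at h
      rw [zero_add]
      rcases h with h | h
      · have := hcov (k m) (β m) (k n) (β n) (hk m) (hβ m) (hk n) (hβ n) (by rw [← hvn, ← hvn]; exact h.le)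
        rw [← hvn] at this
        have e : ∫ u in α..(α + 1), G H (k n * u + β n) * G H (k m * u + β m) =
            ∫ u in α..(α + 1), G H (k m * u + β m) * G H (k n * u + β n) := by
          congr 1
          ext u
          ring
        rw [e]
        linarith
      · have := hcov (k n) (β n) (k m) (β m) (hk n) (hβ n) (hk m) (hβ m) (by rw [← hvn, ← hvn]; exact h.le)
        rw [← hvn] at this
        linarith
  have e1 : ∫ u in α..(α + 1), (∑ n ∈ range N, w n * G H (k n * u + β n)) ^ 2 =
      ∑ n ∈ range N, ∑ m ∈ range N, w n * w m * ∫ u in α..(α + 1), G H (k n * u + β n) * G H (k m * u + β m) := by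
    have e2 : ∀ u : ℝ, (∑ n ∈ range N, w n * G H (k n * u + β n)) ^ 2 =
        ∑ n ∈ range N, ∑ m ∈ range N, w n * w m * (G H (k n * u + β n) * G H (k m * u + β m)) := by
      intro u
      rw [sq, sum_mul_sum]
      apply sum_congr rfl
      intro n _
      apply sum_congr rfl
      intro m _
      ring
    simp_rw [e2]
    have hs : ∀ n, IntervalIntegrable (fun u => ∑ m ∈ range N, w n * w m * (G H (k n * u + β n) * G H (k m * u + β m)))
        volume α (α + 1) := by
      intro n
      have h := IntervalIntegrable.sum (range N) (f := fun m u => w n * w m * (G H (k n * u + β n) * G H (k m * u + β m)))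
        (fun m _ => (hii n m).const_mul _)
      have e : (fun u => ∑ m ∈ range N, w n * w m * (G H (k n * u + β n) * G H (k m * u + β m))) =
          ∑ m ∈ range N, (fun u => w n * w m * (G H (k n * u + β n) * G H (k m * u + β m))) := by
        ext u
        rw [Finset.sum_apply]
      rw [e]
      exact h
    rw [intervalIntegral.integral_finsetSum (fun n _ => hs n)]
    apply sum_congr rfl
    intro n _
    rw [intervalIntegral.integral_finsetSum (fun m _ => (hii n m).const_mul _)]
    apply sum_congr rfl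
    intro m _
    rw [intervalIntegral.integral_const_mul]
  rw [e1]
  have e3 : ∀ n ∈ range N, ∀ m ∈ range N, w n * w m * ∫ u in α..(α + 1), G H (k n * u + β n) * G H (k m * u + β m) ≤
      w n * (C₂ * (if v m ≤ R * v n ∧ v n ≤ R * v m then w m else 0)) + (w n / v n * (C₁ * w m) + w m / v m * (C₁ * w n)) := by
    intro n _ m _
    have h1 : 0 ≤ w n * w m := mul_nonneg (hw n) (hw m)
    have h2 := (le_abs_self _).trans (hI n m)
    have hn := hv n
    have hm := hv m
    refine (mul_le_mul_of_nonneg_left h2 h1).trans (le_of_eq ?_)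
    by_cases h : v n ≤ R * v m ∧ v m ≤ R * v n
    · rw [if_pos h, if_pos ⟨h.2, h.1⟩]
      field_simp
    · rw [if_neg h, if_neg (fun h' => h ⟨h'.2, h'.1⟩)]
      field_simp
      ring
  refine (sum_le_sum fun n hn => sum_le_sum fun m hm => e3 n hn m hm).trans ?_
  obtain ⟨S, hS⟩ : ∃ S, S = ∑ n ∈ range N, w n := ⟨_, rfl⟩
  have hS0 : 0 ≤ S := by rw [hS]; exact sum_nonneg fun n _ => hw n
  obtain ⟨T, hT⟩ : ∃ T, T = ∑ n ∈ range N, w n / v n := ⟨_, rfl⟩
  have hTC : T ≤ 2 * C := by rw [hT]; exact hB.div hv hw N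
  have e4 : ∑ n ∈ range N, ∑ m ∈ range N, (w n * (C₂ * (if v m ≤ R * v n ∧ v n ≤ R * v m then w m else 0)) +
      (w n / v n * (C₁ * w m) + w m / v m * (C₁ * w n))) =
      ∑ n ∈ range N, (w n * (C₂ * ∑ m ∈ (range N).filter (fun m => v m ≤ R * v n ∧ v n ≤ R * v m), w m) +
        (w n / v n * (C₁ * S) + T * (C₁ * w n))) := by
    apply sum_congr rfl
    intro n _
    rw [sum_add_distrib, sum_add_distrib, ← mul_sum, ← mul_sum, ← mul_sum, ← mul_sum, ← sum_mul, ← hS, ← hT, sum_filter]
  rw [e4]
  have e5 : ∀ n ∈ range N, w n * (C₂ * ∑ m ∈ (range N).filter (fun m => v m ≤ R * v n ∧ v n ≤ R * v m), w m) +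
        (w n / v n * (C₁ * S) + T * (C₁ * w n)) ≤ w n * (C₂ * C₃) + (w n / v n * (C₁ * S) + T * (C₁ * w n)) := by
    intro n _
    have := hnear N n
    have := hw n
    gcongr
  refine (sum_le_sum e5).trans ?_
  rw [sum_add_distrib, sum_add_distrib, ← sum_mul, ← sum_mul, ← mul_sum, ← mul_sum, ← hS, ← hT]
  have e6 : T * (C₁ * S) ≤ 2 * C * (C₁ * S) := by gcongr
  nlinarith

end Pool.Agent.H40E9.GP
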