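import Pool.Agent.H40E9.GP.WLln
import Pool.Agent.H40E9.GP.Gk

/-!
# Weighted means of the densities along `a ^ (v n)` for almost every `a`
-/

set_option autoImplicit false

namespace Pool.Agent.H40E9.GP

open Finset Filter Topology MeasureTheory Pool.Agent.U26Z.DX
open scoped ENNReal NNReal

/-- the weighted sum is close to the sum of the weights -/
def Mean (D w : ℕ → ℝ) : Prop :=
  ∃ c : ℝ, ∀ᶠ N : ℕ in atTop, |∑ n ∈ range N, w n * D n - ∑ n ∈ range N, w n| ≤
    c * (√(∑ n ∈ range N, w n) * Real.log (∑ n ∈ range N, w n) ^ 2)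

theorem sum_cut {f : ℕ → ℝ} {M N : ℕ} (h : M ≤ N) :
    ∑ n ∈ range N, (if M ≤ n then f n else 0) = ∑ n ∈ range N, f n - ∑ n ∈ range M, f n := by
  rw [← sum_Ico_eq_sub f h, ← sum_filter]
  apply sum_congr _ (fun _ _ => rfl)
  ext n
  rw [mem_filter, mem_range, mem_Ico]
  tauto

theorem ae_piece {H : ℝ → ℝ} (hH : Win H) {k β w : ℕ → ℝ} {C : ℝ} (hk : ∀ n, 1 ≤ k n)
    (hβ : ∀ n, 0 ≤ β n) (hw : ∀ n, 0 ≤ w n) (hB : Blocks (fun n => k n + β n) w C) (hW : Tendsto (fun N => ∑ n ∈ range N, w n) atTop atTop) {α : ℝ} (hα : 0 < α) :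
    ∀ᵐ u : ℝ, u ∈ Set.Ioc α (α + 1) → Mean (fun n => Fh H (k n * u + β n)) w := by
  obtain ⟨K, hK, h2⟩ := second hH hk hβ hB.nonneg hα
  rw [← ae_restrict_iff' measurableSet_Ioc]
  refine gk (A := fun N u => ∑ n ∈ range N, w n * Fh H (k n * u + β n)) (W := fun N => ∑ n ∈ range N, w n) (K := K) (C := C)
    ?_ (by simp) ?_ (by simp) ?_ ?_ hW hK.le hB.nonneg ?_
  · intro N
    exact Finset.measurable_sum _ fun n _ => ((Fh_meas hH.meas).comp ((measurable_id.const_mul _).add_const _)).const_mul _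
  · rw [ae_restrict_iff' measurableSet_Ioc]
    filter_upwards with u hu N
    rw [sum_range_succ]
    have h3 : 0 ≤ k N * u + β N := add_nonneg (mul_nonneg (by linarith [hk N]) (by linarith [hu.1])) (hβ N)
    have := mul_nonneg (hw N) (Fh_nn hH h3)
    linarith
  · intro N
    rw [sum_range_succ]
    linarith [hw N]
  · intro N
    rw [sum_range_succ]
    linarith [hB.le (fun n => by linarith [hk n, hβ n]) hw N]
  · intro M N hMN
    obtain ⟨w', hw'⟩ : ∃ w' : ℕ → ℝ, w' = fun n => if M ≤ n then w n else 0 := ⟨_, rfl⟩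
    have hw'0 : ∀ n, 0 ≤ w' n := by
      intro n
      rw [hw']
      show 0 ≤ if M ≤ n then w n else 0
      split_ifs
      · exact hw n
      · exact le_rfl
    have hw'le : ∀ n, w' n ≤ w n := by
      intro n
      rw [hw']
      show (if M ≤ n then w n else 0) ≤ w n
      split_ifs
      · exact le_rfl
      · exact hw n
    have hB' : Blocks (fun n => k n + β n) w' C := fun V hV N => (sum_le_sum fun n _ => hw'le n).trans (hB V hV N)
    have hs : ∑ n ∈ range N, w' n = ∑ n ∈ range N, w n - ∑ n ∈ range M, w n := by rw [hw']; exact sum_cut hMN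
    have e1 : ∀ u : ℝ, (∑ n ∈ range N, w n * Fh H (k n * u + β n)) - (∑ n ∈ range M, w n * Fh H (k n * u + β n)) -
        (∑ n ∈ range N, w n - ∑ n ∈ range M, w n) = ∑ n ∈ range N, w' n * G H (k n * u + β n) := by
      intro u
      rw [← sum_cut hMN, ← sum_cut hMN, ← sum_sub_distrib, hw']
      apply sum_congr rfl
      intro n _
      show (if M ≤ n then w n * Fh H (k n * u + β n) else 0) - (if M ≤ n then w n else 0) = (if M ≤ n then w n else 0) * G H (k n * u + β n)
      unfold G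
      split_ifs
      · ring
      · ring
    simp_rw [e1]
    have hmeas : Measurable fun u => ∑ n ∈ range N, w' n * G H (k n * u + β n) :=
      Finset.measurable_sum _ fun n _ => ((G_meas hH).comp ((measurable_id.const_mul _).add_const _)).const_mul _
    have hb : ∀ u ∈ Set.Ioc α (α + 1), |∑ n ∈ range N, w' n * G H (k n * u + β n)| ≤
        ∑ n ∈ range N, w' n * (2 * (k n * (α + 1) + β n) + 1) := by
      intro u hu
      refine (abs_sum_le_sum_abs _ _).trans ?_
      apply sum_le_sum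
      intro n _
      have h0 := hk n
      have h0' := hβ n
      have hu0 : 0 < u := by linarith [hu.1]
      rw [abs_mul, abs_of_nonneg (hw'0 n)]
      apply mul_le_mul_of_nonneg_left _ (hw'0 n)
      refine (G_triv hH (by positivity)).trans ?_
      have : u ≤ α + 1 := hu.2
      gcongr
    have hint : IntegrableOn (fun u => (∑ n ∈ range N, w' n * G H (k n * u + β n)) ^ 2) (Set.Ioc α (α + 1)) := by
      apply Measure.integrableOn_of_bounded (M := (∑ n ∈ range N, w' n * (2 * (k n * (α + 1) + β n) + 1)) ^ 2) measure_Ioc_lt_top.ne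
        (hmeas.pow_const 2).aestronglyMeasurable
      rw [ae_restrict_iff' measurableSet_Ioc]
      filter_upwards with u hu
      rw [Real.norm_eq_abs, abs_pow]
      exact pow_le_pow_left₀ (abs_nonneg _) (hb u hu) 2
    rw [← ofReal_integral_eq_lintegral_ofReal hint (by
      filter_upwards with u
      positivity)]
    apply ENNReal.ofReal_le_ofReal
    rw [← intervalIntegral.integral_of_le (by linarith), ← hs]
    exact h2 w' hw'0 hB' N

/-- the strong law for the parameter `u = log a` -/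
theorem ae_log {H : ℝ → ℝ} (hH : Win H) {k β w : ℕ → ℝ} {C : ℝ} (hk : ∀ n, 1 ≤ k n)
    (hβ : ∀ n, 0 ≤ β n) (hw : ∀ n, 0 ≤ w n) (hB : Blocks (fun n => k n + β n) w C) (hW : Tendsto (fun N => ∑ n ∈ range N, w n) atTop atTop) :
    ∀ᵐ u : ℝ, 0 < u → Mean (fun n => Fh H (k n * u + β n)) w := by
  have h : ∀ᵐ u : ℝ, ∀ m i : ℕ, u ∈ Set.Ioc ((i : ℝ) + 1 / ((m : ℝ) + 1)) ((i : ℝ) + 1 / ((m : ℝ) + 1) + 1) →
      Mean (fun n => Fh H (k n * u + β n)) w := by
    rw [ae_all_iff]
    intro m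
    rw [ae_all_iff]
    intro i
    exact ae_piece hH hk hβ hw hB hW (by positivity)
  filter_upwards [h] with u hu h0
  obtain ⟨m, hm⟩ := exists_nat_one_div_lt h0
  obtain ⟨i, hi⟩ : ∃ i : ℕ, i = ⌈u - 1 / ((m : ℝ) + 1)⌉₊ - 1 := ⟨_, rfl⟩
  have hpos : 0 < u - 1 / ((m : ℝ) + 1) := by linarith
  have h1 : 1 ≤ ⌈u - 1 / ((m : ℝ) + 1)⌉₊ := Nat.ceil_pos.2 hpos
  have h2 : ((i : ℕ) : ℝ) + 1 = ⌈u - 1 / ((m : ℝ) + 1)⌉₊ := by
    rw [hi, Nat.cast_sub h1]
    push_cast
    ring
  have h3 := Nat.le_ceil (u - 1 / ((m : ℝ) + 1))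
  have h4 := Nat.ceil_lt_add_one hpos.le
  exact hu m i ⟨by linarith, by linarith⟩

/-- the lengths: `h x` nondecreasing, `h x / x` nonincreasing, and `lam log x ≤ h x ≤ x ^ 0.59`, for all large `x` -/
def Window (h : ℝ → ℝ) : Prop :=
  ∃ lam x₀ : ℝ, 0 < lam ∧ ∀ x y : ℝ, x₀ ≤ x → x ≤ y → h x ≤ h y ∧ h y / y ≤ h x / x ∧ lam * Real.log x ≤ h x ∧ h x ≤ x ^ (0.59 : ℝ)

theorem win {h : ℝ → ℝ} (hh : Window h) (z : ℝ) :
    ∃ x₁ : ℝ, Real.exp 1 ≤ x₁ ∧ z ≤ x₁ ∧ Win (fun s => h (max (Real.exp s) x₁)) := by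
  obtain ⟨lam, x₀, hlam, hx⟩ := hh
  obtain ⟨x₁, hx₁⟩ : ∃ x₁, x₁ = max (max x₀ z) (Real.exp (1 + 1 / lam)) := ⟨_, rfl⟩
  have h0 : x₀ ≤ x₁ := by rw [hx₁]; exact (le_max_left _ _).trans (le_max_left _ _)
  have hz : z ≤ x₁ := by rw [hx₁]; exact (le_max_right _ _).trans (le_max_left _ _)
  have h1' : Real.exp (1 + 1 / lam) ≤ x₁ := by rw [hx₁]; exact le_max_right _ _
  have h1 : Real.exp 1 ≤ x₁ := by
    refine le_trans (Real.exp_le_exp.2 ?_) h1'
    have : 0 < 1 / lam := by positivity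
    linarith
  have h10 : 0 < x₁ := lt_of_lt_of_le (Real.exp_pos 1) h1
  have hmono : Monotone (fun s => h (max (Real.exp s) x₁)) := by
    intro s t hst
    refine (hx _ _ ?_ ?_).1
    · exact h0.trans (le_max_right _ _)
    · exact max_le_max (Real.exp_le_exp.2 hst) le_rfl
  have hge : ∀ s, x₁ ≤ max (Real.exp s) x₁ := fun s => le_max_right _ _
  have hone : ∀ s, 1 ≤ h (max (Real.exp s) x₁) := by
    intro s
    have h2 := (hx _ _ (h0.trans (hge s)) le_rfl).2.2.1
    have h3 : 1 + 1 / lam ≤ Real.log (max (Real.exp s) x₁) := by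
      rw [← Real.log_exp (1 + 1 / lam)]
      exact Real.log_le_log (Real.exp_pos _) (h1'.trans (hge s))
    have h4 : lam * (1 + 1 / lam) ≤ lam * Real.log (max (Real.exp s) x₁) := by gcongr
    have h5 : lam * (1 + 1 / lam) = lam + 1 := by field_simp
    linarith
  refine ⟨x₁, h1, hz, ⟨fun s t _ hst => hmono hst, fun s t _ hst => ?_, fun s _ => hone s, ⟨lam, hlam, ?_⟩, ?_, hmono.measurable⟩⟩
  · show h (max (Real.exp t) x₁) ≤ Real.exp (t - s) * h (max (Real.exp s) x₁)
    obtain ⟨p, hp⟩ : ∃ p, p = max (Real.exp s) x₁ := ⟨_, rfl⟩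
    obtain ⟨r, hr⟩ : ∃ r, r = max (Real.exp t) x₁ := ⟨_, rfl⟩
    have hp0 : 0 < p := by rw [hp]; exact lt_of_lt_of_le h10 (hge s)
    have hpr : p ≤ r := by rw [hp, hr]; exact max_le_max (Real.exp_le_exp.2 hst) le_rfl
    have hr0 : 0 < r := by linarith
    have h2 := (hx p r (by rw [hp]; exact h0.trans (hge s)) hpr).2.1
    have h3 : r ≤ Real.exp (t - s) * p := by
      rw [hr]
      apply max_le
      · calc Real.exp t = Real.exp (t - s) * Real.exp s := by rw [← Real.exp_add]; congr 1; ring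
          _ ≤ _ := by rw [hp]; gcongr; exact le_max_left _ _
      · calc x₁ = 1 * x₁ := by ring
          _ ≤ Real.exp (t - s) * p := by
              apply mul_le_mul (Real.one_le_exp (by linarith)) _ h10.le (Real.exp_pos _).le
              rw [hp]
              exact le_max_right _ _
    have h4 : 0 ≤ h p := by
      have := hone s
      rw [← hp] at this
      linarith
    rw [← hp, ← hr]
    rw [div_le_div_iff₀ hr0 hp0] at h2
    have h5 : h r * p ≤ (Real.exp (t - s) * h p) * p := by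
      calc h r * p ≤ h p * r := h2
        _ ≤ h p * (Real.exp (t - s) * p) := by gcongr
        _ = _ := by ring
    exact le_of_mul_le_mul_right h5 hp0
  · filter_upwards [eventually_ge_atTop (max (Real.log x₁) 0)] with s hs
    have h2 : x₁ ≤ Real.exp s := by
      rw [← Real.exp_log h10]
      exact Real.exp_le_exp.2 ((le_max_left _ _).trans hs)
    rw [max_eq_left h2]
    have h3 := (hx _ _ (h0.trans h2) le_rfl).2.2.1
    rwa [Real.log_exp] at h3
  · filter_upwards [eventually_ge_atTop (max (Real.log x₁) 0)] with s hs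
    have h2 : x₁ ≤ Real.exp s := by
      rw [← Real.exp_log h10]
      exact Real.exp_le_exp.2 ((le_max_left _ _).trans hs)
    rw [max_eq_left h2]
    have h3 := (hx _ _ (h0.trans h2) le_rfl).2.2.2
    rwa [← Real.exp_mul, mul_comm] at h3

theorem Mean.congr {D E w : ℕ → ℝ} (hW : Tendsto (fun N => ∑ n ∈ range N, w n) atTop atTop) (hDE : ∀ᶠ n in atTop, D n = E n)
    (hE : Mean E w) : Mean D w := by
  obtain ⟨c, hc⟩ := hE
  obtain ⟨n₀, hn₀⟩ := eventually_atTop.1 hDE
  obtain ⟨d, hd⟩ : ∃ d, d = ∑ n ∈ range n₀, w n * D n - ∑ n ∈ range n₀, w n * E n := ⟨_, rfl⟩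
  refine ⟨c + |d|, ?_⟩
  have hstep : ∀ N, n₀ ≤ N → ∑ n ∈ range N, w n * D n = ∑ n ∈ range N, w n * E n + d := by
    intro N hN
    induction N, hN using Nat.le_induction with
    | base => rw [hd]; ring
    | succ N hN ih =>
      rw [sum_range_succ, sum_range_succ, ih, hn₀ N hN]
      ring
  filter_upwards [hc, eventually_ge_atTop n₀, hW.eventually_ge_atTop 3] with N h1 h2 h3
  rw [hstep N h2]
  obtain ⟨V, hV⟩ : ∃ V, V = ∑ n ∈ range N, w n := ⟨_, rfl⟩
  rw [← hV] at h1 h3 ⊢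
  have hlog : 1 ≤ Real.log V := by
    rw [Real.le_log_iff_exp_le (by linarith)]
    have := Real.exp_one_lt_d9
    linarith
  have hsq : 1 ≤ √V := by rw [Real.one_le_sqrt]; linarith
  have hone : |d| ≤ |d| * (√V * Real.log V ^ 2) := by
    have : 1 ≤ √V * Real.log V ^ 2 := by nlinarith
    exact le_mul_of_one_le_right (abs_nonneg _) this
  have e1 : ∑ n ∈ range N, w n * E n + d - V = (∑ n ∈ range N, w n * E n - V) + d := by ring
  rw [e1]
  refine (abs_add_le _ _).trans ?_
  have e2 : (c + |d|) * (√V * Real.log V ^ 2) = c * (√V * Real.log V ^ 2) + |d| * (√V * Real.log V ^ 2) := by ring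
  rw [e2]
  linarith

theorem Mean.tendsto {D w : ℕ → ℝ} (hW : Tendsto (fun N => ∑ n ∈ range N, w n) atTop atTop) (h : Mean D w) :
    Tendsto (fun N => (∑ n ∈ range N, w n * D n) / ∑ n ∈ range N, w n) atTop (𝓝 1) := by
  obtain ⟨c, hc⟩ := h
  have h1 : Tendsto (fun x : ℝ => c * (Real.log x ^ 2 / x ^ (1 / 2 : ℝ))) atTop (𝓝 0) := by
    have h3 := (isLittleO_log_rpow_rpow_atTop (2 : ℝ) (show (0 : ℝ) < 1 / 2 by norm_num)).tendsto_div_nhds_zero
    have h4 := h3.const_mul c
    rw [mul_zero] at h4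
    refine h4.congr fun x => ?_
    rw [show (2 : ℝ) = ((2 : ℕ) : ℝ) by norm_num, Real.rpow_natCast]
  have h2 := h1.comp hW
  rw [tendsto_iff_norm_sub_tendsto_zero]
  refine squeeze_zero' (Eventually.of_forall fun N => norm_nonneg _) ?_ h2
  filter_upwards [hc, hW.eventually_ge_atTop 3] with N h1 h3
  obtain ⟨V, hV⟩ : ∃ V, V = ∑ n ∈ range N, w n := ⟨_, rfl⟩
  have hV0 : 0 < V := by rw [hV]; linarith
  rw [Function.comp, ← hV]
  rw [← hV] at h1
  rw [Real.norm_eq_abs]
  have e1 : (∑ n ∈ range N, w n * D n) / V - 1 = (∑ n ∈ range N, w n * D n - V) / V := by field_simp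
  rw [e1, abs_div, abs_of_pos hV0, div_le_iff₀ hV0]
  refine h1.trans (le_of_eq ?_)
  have e2 : V = V ^ (1 / 2 : ℝ) * V ^ (1 / 2 : ℝ) := by
    rw [← Real.rpow_add hV0]
    norm_num
  have e3 : 0 < V ^ (1 / 2 : ℝ) := by positivity
  rw [Real.sqrt_eq_rpow]
  calc c * (V ^ (1 / 2 : ℝ) * Real.log V ^ 2) = c * (Real.log V ^ 2 / V ^ (1 / 2 : ℝ)) * (V ^ (1 / 2 : ℝ) * V ^ (1 / 2 : ℝ)) := by
        field_simp
    _ = _ := by rw [← e2]

/-- **The law of large numbers.** -/
theorem lln {g : ℝ → ℝ} (hh : Window g) {k b w : ℕ → ℝ} {C : ℝ} (hk : ∀ n, 1 ≤ k n) (hb : ∀ n, 1 ≤ b n)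
    (hv2 : Tendsto (fun n => k n + Real.log (b n)) atTop atTop)
    (hw : ∀ n, 0 ≤ w n) (hB : Blocks (fun n => k n + Real.log (b n)) w C) (hW : Tendsto (fun N => ∑ n ∈ range N, w n) atTop atTop) :
    ∀ᵐ a : ℝ, 1 < a → Mean (fun n => density (b n * a ^ k n) (g (b n * a ^ k n))) w := by
  obtain ⟨x₁, hx₁, -, hH⟩ := win hh 0
  have hβ : ∀ n, 0 ≤ Real.log (b n) := fun n => Real.log_nonneg (hb n)
  have h := ae_log hH hk hβ hw hB hW
  rw [ae_iff] at h ⊢
  have himg := MeasureTheory.addHaar_image_eq_zero_of_differentiableOn_of_addHaar_eq_zero (μ := (volume : Measure ℝ))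
    (f := Real.exp) (Real.differentiable_exp.differentiableOn) h
  refine measure_mono_null ?_ himg
  intro a ha
  simp only [Set.mem_ofPred_eq, Classical.not_imp] at ha
  obtain ⟨ha1, ha2⟩ := ha
  have ha0 : 0 < a := by linarith
  have hla : 0 < Real.log a := Real.log_pos ha1
  refine ⟨Real.log a, ?_, Real.exp_log ha0⟩
  simp only [Set.mem_ofPred_eq, Classical.not_imp]
  refine ⟨hla, fun hcon => ha2 (hcon.congr hW ?_)⟩
  -- the terms differ only finitely often
  have e1 : ∀ n, b n * a ^ k n = Real.exp (k n * Real.log a + Real.log (b n)) := fun n => by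
    rw [Real.rpow_def_of_pos ha0, Real.exp_add, Real.exp_log (by linarith [hb n]), mul_comm (k n), mul_comm]
  have hbig : ∀ᶠ n in atTop, x₁ ≤ b n * a ^ k n := by
    have h1 : Tendsto (fun n => k n * Real.log a + Real.log (b n)) atTop atTop := by
      have h2 : Tendsto (fun n => min (Real.log a) 1 * (k n + Real.log (b n))) atTop atTop :=
        hv2.const_mul_atTop (lt_min hla one_pos)
      refine tendsto_atTop_mono (fun n => ?_) h2
      have g1 : min (Real.log a) 1 * k n ≤ Real.log a * k n := by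
        apply mul_le_mul_of_nonneg_right (min_le_left _ _)
        linarith [hk n]
      have g2 : min (Real.log a) 1 * Real.log (b n) ≤ 1 * Real.log (b n) := mul_le_mul_of_nonneg_right (min_le_right _ _) (hβ n)
      linarith
    have h3 := (Real.tendsto_exp_atTop.comp h1).eventually_ge_atTop x₁
    filter_upwards [h3] with n hn
    rw [e1]
    exact hn
  filter_upwards [hbig] with N hN
  show _ = density (Real.exp (k N * Real.log a + Real.log (b N))) (g (max (Real.exp (k N * Real.log a + Real.log (b N))) x₁))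
  rw [← e1, max_eq_left hN]

end Pool.Agent.H40E9.GP
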