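import Pool.Agent.H40E9.GP.WAvg
import Pool.Agent.U26Z.MX.Tail

/-!
# General windows: the second moment of the density
-/

set_option autoImplicit false

namespace Pool.Agent.H40E9.GP

open Finset Filter Topology MeasureTheory Pool.Agent.U26Z.DX
open scoped Classical
open Pool.Agent.H39x.LP (pc pcount)

/-- a point with a large density is above a point of the exceptional set -/
theorem in_ex {H : ℝ → ℝ} (hW : Win H) {lam : ℝ} (hlam : 0 < lam) (hlow : ∀ᶠ s in atTop, lam * s ≤ H s) :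
    ∃ S₀ : ℝ, 1 ≤ S₀ ∧ ∀ s₀ : ℝ, S₀ ≤ s₀ → ∀ s u : ℝ, s₀ ≤ s → s ≤ s₀ + 1 / 2 →
    4 * u ≤ Fh H s → ⌊Real.exp s⌋₊ ∈ Pool.Agent.U26Z.MX.Ex lam u (⌊Real.exp s₀⌋₊ - 1) (⌊Real.exp s₀⌋₊ - 1) := by
  obtain ⟨Y₃, hY₃⟩ := eventually_atTop.1 hlow
  refine ⟨max 10 Y₃, (by norm_num : (1 : ℝ) ≤ 10).trans (le_max_left _ _), fun s₀ hs₀ s u h1 h2 hu => ?_⟩
  have hs10 : 10 ≤ s₀ := (le_max_left _ _).trans hs₀
  have hlow := hY₃ s (((le_max_right _ _).trans hs₀).trans h1)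
  have hs0 : 0 < s := by linarith
  obtain ⟨x, hx⟩ : ∃ x, x = Real.exp s := ⟨_, rfl⟩
  obtain ⟨x₀, hx₀⟩ : ∃ x₀, x₀ = Real.exp s₀ := ⟨_, rfl⟩
  have hx₀b : 1000 ≤ x₀ := by
    have e1 : Real.exp 10 ≤ x₀ := by rw [hx₀]; exact Real.exp_le_exp.2 hs10
    have e2 : (1000 : ℝ) ≤ Real.exp 10 := by
      have e3 : Real.exp 10 = (Real.exp 1) ^ 10 := by rw [← Real.exp_nat_mul]; norm_num
      have e4 : (2 : ℝ) ≤ Real.exp 1 := by
        have := Real.add_one_le_exp (1 : ℝ)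
        linarith
      rw [e3]
      calc (1000 : ℝ) ≤ 2 ^ 10 := by norm_num
        _ ≤ _ := pow_le_pow_left₀ (by norm_num) e4 10
    linarith
  have hxx : x₀ ≤ x := by rw [hx, hx₀]; exact Real.exp_le_exp.2 h1
  have hxx2 : x ≤ 7 / 4 * x₀ := by
    have e1 : x ≤ Real.exp (1 / 2) * x₀ := by
      rw [hx, hx₀, ← Real.exp_add]
      exact Real.exp_le_exp.2 (by linarith)
    have e2 : Real.exp (1 / 2) ≤ 7 / 4 := by
      have h3 := Real.abs_exp_sub_one_sub_id_le (show |(1 / 2 : ℝ)| ≤ 1 by rw [abs_of_pos (by norm_num)]; norm_num)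
      have h4 := (abs_le.1 h3).2
      linarith
    have e3 : 0 < x₀ := by linarith
    nlinarith
  obtain ⟨n, hn⟩ : ∃ n, n = ⌊x⌋₊ := ⟨_, rfl⟩
  obtain ⟨m, hm⟩ : ∃ m, m = ⌊x₀⌋₊ := ⟨_, rfl⟩
  rw [← hx, ← hx₀, ← hn, ← hm]
  have hx0 : 0 < x := by linarith
  have hn1 : (n : ℝ) ≤ x := by rw [hn]; exact Nat.floor_le hx0.le
  have hn2 : x < n + 1 := by rw [hn]; exact Nat.lt_floor_add_one x
  have hm1 : (m : ℝ) ≤ x₀ := by rw [hm]; exact Nat.floor_le (by linarith)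
  have hm2 : x₀ < m + 1 := by rw [hm]; exact Nat.lt_floor_add_one x₀
  have hmn : m ≤ n := by rw [hm, hn]; exact Nat.floor_le_floor hxx
  have hmb : 999 ≤ m := by
    have : (999 : ℝ) < m := by linarith
    exact_mod_cast this.le
  have hH1 := hW.one s hs0.le
  unfold Pool.Agent.U26Z.MX.Ex
  rw [mem_filter, mem_Ioc]
  refine ⟨⟨by omega, ?_⟩, H s + 1, ?_, ?_⟩
  · have e1 : (n : ℝ) ≤ 7 / 4 * (m + 1) := by linarith
    have e2 : (n : ℝ) + 2 ≤ 2 * m := by
      have : (999 : ℝ) ≤ m := by exact_mod_cast hmb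
      linarith
    have e3 : n + 2 ≤ 2 * m := by exact_mod_cast e2
    omega
  · have e1 : Real.log n ≤ s := by
      have : Real.log n ≤ Real.log x := Real.log_le_log (by
        have : (999 : ℝ) ≤ m := by exact_mod_cast hmb
        have : (m : ℝ) ≤ n := by exact_mod_cast hmn
        linarith) hn1
      rwa [hx, Real.log_exp] at this
    have e2 : lam * Real.log n ≤ lam * s := by gcongr
    linarith
  · have hnn : (999 : ℝ) ≤ n := by
      have : (999 : ℝ) ≤ m := by exact_mod_cast hmb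
      have : (m : ℝ) ≤ n := by exact_mod_cast hmn
      linarith
    have e1 : s / 2 ≤ Real.log n := by
      have e2 : Real.log (x / 2) ≤ Real.log n := Real.log_le_log (by positivity) (by linarith)
      rw [Real.log_div hx0.ne' (by norm_num), hx, Real.log_exp] at e2
      have := Real.log_two_lt_d9
      linarith
    have e3 : (primesIn x (H s) : ℝ) ≤ (Pool.Agent.U26Z.MX.primesIn n (H s + 1) : ℝ) := by
      have : primesIn x (H s) ≤ Pool.Agent.U26Z.MX.primesIn n (H s + 1) := by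
        unfold primesIn Pool.Agent.U26Z.MX.primesIn
        apply card_le_card
        apply filter_subset_filter
        rw [Nat.floor_natCast]
        apply Ioc_subset_Ioc
        · rw [hn]
        · exact Nat.floor_le_floor (by linarith)
      exact_mod_cast this
    rw [Fh_eq, ← hx] at hu
    unfold Pool.Agent.U26Z.MX.density
    obtain ⟨P, hP⟩ : ∃ P : ℝ, P = primesIn x (H s) := ⟨_, rfl⟩
    obtain ⟨P', hP'⟩ : ∃ P' : ℝ, P' = Pool.Agent.U26Z.MX.primesIn n (H s + 1) := ⟨_, rfl⟩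
    rw [← hP] at hu e3
    rw [← hP'] at e3 ⊢
    have hP0 : 0 ≤ P := by rw [hP]; exact Nat.cast_nonneg _
    rw [le_div_iff₀ (by linarith)] at hu ⊢
    have e4 : P * (s / 2) ≤ P' * Real.log n := mul_le_mul e3 e1 (by linarith) (by linarith)
    rcases le_or_gt u 0 with hu0 | hu0
    · have : 0 ≤ P * (s / 2) := by positivity
      nlinarith
    · nlinarith

theorem vol_ex {H : ℝ → ℝ} (hW : Win H) : ∃ C S₀ : ℝ, 0 < C ∧ 1 ≤ S₀ ∧ ∀ s₀ : ℝ, S₀ ≤ s₀ → ∀ u : ℝ, 0 < u →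
    volume.real ({s : ℝ | 4 * u ≤ Fh H s} ∩ Set.Ioc s₀ (s₀ + 1 / 2)) ≤ C / u ^ 4 := by
  obtain ⟨lam, hlam, hlow⟩ := hW.low
  obtain ⟨S₀, hS₀, hin⟩ := in_ex hW hlam hlow
  obtain ⟨C, hC, X₀, hweak⟩ := Pool.Agent.U26Z.MX.weak 4 (θ := 1) (K := lam) one_pos hlam
  obtain ⟨Z, hZ⟩ := eventually_atTop.1 (Real.tendsto_exp_atTop.eventually_ge_atTop ((X₀ : ℝ) + 3))
  refine ⟨C, max S₀ Z, hC, hS₀.trans (le_max_left _ _), fun s₀ hs₀ u hu => ?_⟩
  have h1 := hZ s₀ ((le_max_right _ _).trans hs₀)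
  obtain ⟨X, hX⟩ : ∃ X, X = ⌊Real.exp s₀⌋₊ - 1 := ⟨_, rfl⟩
  have hfl : X₀ + 2 ≤ ⌊Real.exp s₀⌋₊ := Nat.le_floor (by push_cast; linarith)
  have hX0 : X₀ ≤ X := by omega
  have hX1 : 0 < X := by omega
  have hw := hweak X hX0 X (by rw [Real.rpow_one]) le_rfl u hu
  obtain ⟨E, hE⟩ : ∃ E, E = Pool.Agent.U26Z.MX.Ex lam u X X := ⟨_, rfl⟩
  rw [← hE] at hw
  have hXr : (0 : ℝ) < X := by exact_mod_cast hX1
  have hEX : ∀ n ∈ E, X < n := by
    intro n hn
    rw [hE] at hn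
    unfold Pool.Agent.U26Z.MX.Ex at hn
    rw [mem_filter, mem_Ioc] at hn
    exact hn.1.1
  have hsub : ({s : ℝ | 4 * u ≤ Fh H s} ∩ Set.Ioc s₀ (s₀ + 1 / 2)) ⊆ ⋃ n ∈ E, Set.Ico (Real.log n) (Real.log n + 1 / X) := by
    rintro s ⟨g1, g2⟩
    have g3 := hin s₀ ((le_max_left _ _).trans hs₀) s u g2.1.le g2.2 g1
    rw [← hX, ← hE] at g3
    rw [Set.mem_iUnion₂]
    refine ⟨_, g3, ?_⟩
    have g4 := hEX _ g3
    obtain ⟨n, hn⟩ : ∃ n, n = ⌊Real.exp s⌋₊ := ⟨_, rfl⟩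
    rw [← hn] at g4 ⊢
    have hn1 : (n : ℝ) ≤ Real.exp s := by rw [hn]; exact Nat.floor_le (Real.exp_pos _).le
    have hn2 : Real.exp s < n + 1 := by rw [hn]; exact Nat.lt_floor_add_one _
    have hn0 : (0 : ℝ) < n := by
      have : 0 < n := by omega
      exact_mod_cast this
    constructor
    · have := Real.log_le_log hn0 hn1
      rwa [Real.log_exp] at this
    · have k1 : s < Real.log (n + 1) := by
        have := Real.log_lt_log (Real.exp_pos s) hn2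
        rwa [Real.log_exp] at this
      have k2 : Real.log (n + 1) = Real.log n + Real.log (1 + 1 / n) := by
        rw [← Real.log_mul hn0.ne' (by positivity)]
        congr 1
        field_simp
      have k3 : Real.log (1 + 1 / (n : ℝ)) ≤ 1 / n := by
        have := Real.log_le_sub_one_of_pos (show 0 < 1 + 1 / (n : ℝ) by positivity)
        linarith
      have k4 : 1 / (n : ℝ) ≤ 1 / X := by
        apply one_div_le_one_div_of_le hXr
        exact_mod_cast g4.le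
      linarith
  have h3 : volume ({s : ℝ | 4 * u ≤ Fh H s} ∩ Set.Ioc s₀ (s₀ + 1 / 2)) ≤ ENNReal.ofReal (E.card * (1 / X)) := by
    refine (measure_mono hsub).trans ((measure_biUnion_finset_le _ _).trans ?_)
    refine (sum_le_card_nsmul _ _ (ENNReal.ofReal (1 / X)) fun n _ => ?_).trans ?_
    · rw [Real.volume_Ico]
      apply ENNReal.ofReal_le_ofReal
      linarith
    · rw [← ENNReal.ofReal_nsmul, nsmul_eq_mul]
  have h4 : volume.real ({s : ℝ | 4 * u ≤ Fh H s} ∩ Set.Ioc s₀ (s₀ + 1 / 2)) ≤ E.card * (1 / X) := by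
    unfold Measure.real
    exact ENNReal.toReal_le_of_le_ofReal (by positivity) h3
  refine h4.trans ?_
  rw [mul_one_div, div_le_iff₀ hXr]
  exact hw

/-- the layer cake inequality -/
theorem cake {z : ℝ} (hz : 0 ≤ z) {J : ℕ} (hJ : z < 4 * 2 ^ J) :
    z ^ 2 ≤ 16 * (1 + ∑ j ∈ range J, 4 ^ (j + 1) * (if 4 * 2 ^ j ≤ z then (1 : ℝ) else 0)) := by
  have hnn : ∀ j ∈ range J, 0 ≤ (4 : ℝ) ^ (j + 1) * (if 4 * 2 ^ j ≤ z then (1 : ℝ) else 0) := by
    intro j _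
    apply mul_nonneg (by positivity)
    split_ifs <;> norm_num
  rcases lt_or_ge z 4 with h | h
  · have := sum_nonneg hnn
    nlinarith
  · obtain ⟨i, hi1, hi2⟩ := exists_nat_pow_near (show 1 ≤ z / 4 by linarith) (show (1 : ℝ) < 2 by norm_num)
    have hiJ : i < J := by
      by_contra hcon
      push Not at hcon
      have : (2 : ℝ) ^ J ≤ 2 ^ i := pow_le_pow_right₀ (by norm_num) hcon
      linarith
    have h1 : (4 : ℝ) ^ (i + 1) ≤ ∑ j ∈ range J, 4 ^ (j + 1) * (if 4 * 2 ^ j ≤ z then (1 : ℝ) else 0) := by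
      refine le_trans ?_ (single_le_sum hnn (mem_range.2 hiJ))
      rw [if_pos (by linarith), mul_one]
    have h2 : z ^ 2 ≤ 16 * 4 ^ (i + 1) := by
      have e1 : z ≤ 4 * 2 ^ (i + 1) := by linarith
      calc z ^ 2 ≤ (4 * 2 ^ (i + 1)) ^ 2 := pow_le_pow_left₀ hz e1 2
        _ = 16 * ((2 : ℝ) ^ 2) ^ (i + 1) := by rw [mul_pow, ← pow_mul, ← pow_mul, mul_comm (i + 1) 2]; norm_num
        _ = 16 * 4 ^ (i + 1) := by norm_num
    linarith

theorem mom1 {H : ℝ → ℝ} (hW : Win H) : ∃ C S₀ : ℝ, 0 < C ∧ 1 ≤ S₀ ∧ ∀ s₀ : ℝ, S₀ ≤ s₀ →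
    ∫ s in s₀..(s₀ + 1 / 2), (Fh H s) ^ 2 ≤ C := by
  obtain ⟨C, S₀, hC, hS₀, hvol⟩ := vol_ex hW
  refine ⟨8 + 128 * C, S₀, by positivity, hS₀, fun s₀ hs₀ => ?_⟩
  have hs0 : 0 < s₀ := by linarith
  obtain ⟨J, hJ⟩ := pow_unbounded_of_one_lt (s₀ + 1) (show (1 : ℝ) < 2 by norm_num)
  have hm := Fh_meas hW.meas
  have hA : ∀ j : ℕ, MeasurableSet {s : ℝ | 4 * 2 ^ j ≤ Fh H s} := fun j => measurableSet_le measurable_const hm
  have hi1 : ∀ j : ℕ, IntervalIntegrable (fun s => if 4 * 2 ^ j ≤ Fh H s then (1 : ℝ) else 0) volume s₀ (s₀ + 1 / 2) := by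
    intro j
    apply ii_of_bdd (Measurable.ite (hA j) measurable_const measurable_const) (by linarith) (C := 1)
    intro x _ _
    split_ifs <;> norm_num
  have hi2 : IntervalIntegrable (fun s => (Fh H s) ^ 2) volume s₀ (s₀ + 1 / 2) := by
    apply ii_of_bdd (hm.pow_const 2) (by linarith) (C := (2 * (s₀ + 1 / 2)) ^ 2)
    intro x h1 h2
    rw [abs_pow, abs_of_nonneg (Fh_nn hW (by linarith))]
    apply pow_le_pow_left₀ (Fh_nn hW (by linarith))
    exact (Fh_triv hW (by linarith)).trans (by linarith)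
  have hi3 : IntervalIntegrable (fun s => ∑ j ∈ range J, (4 : ℝ) ^ (j + 1) * (if 4 * 2 ^ j ≤ Fh H s then (1 : ℝ) else 0))
      volume s₀ (s₀ + 1 / 2) := by
    have h := IntervalIntegrable.sum (range J) (f := fun (j : ℕ) s => (4 : ℝ) ^ (j + 1) * (if 4 * 2 ^ j ≤ Fh H s then (1 : ℝ) else 0))
      (fun j _ => (hi1 j).const_mul _)
    have e : (fun s => ∑ j ∈ range J, (4 : ℝ) ^ (j + 1) * (if 4 * 2 ^ j ≤ Fh H s then (1 : ℝ) else 0)) =
        ∑ j ∈ range J, (fun s => (4 : ℝ) ^ (j + 1) * (if 4 * 2 ^ j ≤ Fh H s then (1 : ℝ) else 0)) := by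
      ext s
      rw [Finset.sum_apply]
    rw [e]
    exact h
  have hi4 : IntervalIntegrable (fun s => 16 * (1 + ∑ j ∈ range J, (4 : ℝ) ^ (j + 1) * (if 4 * 2 ^ j ≤ Fh H s then (1 : ℝ) else 0)))
      volume s₀ (s₀ + 1 / 2) := (intervalIntegrable_const.add hi3).const_mul 16
  have h1 : ∫ s in s₀..(s₀ + 1 / 2), (Fh H s) ^ 2 ≤
      ∫ s in s₀..(s₀ + 1 / 2), 16 * (1 + ∑ j ∈ range J, (4 : ℝ) ^ (j + 1) * (if 4 * 2 ^ j ≤ Fh H s then (1 : ℝ) else 0)) := by
    apply intervalIntegral.integral_mono_on (by linarith) hi2 hi4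
    intro s hs
    apply cake (Fh_nn hW (by linarith [hs.1]))
    have := Fh_triv hW (show 0 ≤ s by linarith [hs.1])
    linarith [hs.2]
  refine h1.trans ?_
  rw [intervalIntegral.integral_const_mul, intervalIntegral.integral_add intervalIntegrable_const hi3,
    intervalIntegral.integral_finsetSum (fun j _ => (hi1 j).const_mul _)]
  have h2 : ∀ j ∈ range J, ∫ s in s₀..(s₀ + 1 / 2), (4 : ℝ) ^ (j + 1) * (if 4 * 2 ^ j ≤ Fh H s then (1 : ℝ) else 0) ≤
      4 * C * (1 / 4) ^ j := by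
    intro j _
    rw [intervalIntegral.integral_const_mul]
    have e1 : ∫ s in s₀..(s₀ + 1 / 2), (if 4 * 2 ^ j ≤ Fh H s then (1 : ℝ) else 0) =
        volume.real ({s : ℝ | 4 * 2 ^ j ≤ Fh H s} ∩ Set.Ioc s₀ (s₀ + 1 / 2)) := by
      rw [intervalIntegral.integral_of_le (by linarith)]
      have e2 : (fun s => if 4 * 2 ^ j ≤ Fh H s then (1 : ℝ) else 0) = Set.indicator {s : ℝ | 4 * 2 ^ j ≤ Fh H s} 1 := by
        ext s
        rw [Set.indicator_apply]
        simp only [Set.mem_ofPred_eq, Pi.one_apply]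
      rw [e2, integral_indicator_one (hA j)]
      unfold Measure.real
      rw [Measure.restrict_apply (hA j)]
    rw [e1]
    have e3 := hvol s₀ hs₀ (2 ^ j) (by positivity)
    calc (4 : ℝ) ^ (j + 1) * volume.real ({s : ℝ | 4 * 2 ^ j ≤ Fh H s} ∩ Set.Ioc s₀ (s₀ + 1 / 2))
        ≤ 4 ^ (j + 1) * (C / (2 ^ j) ^ 4) := by gcongr
      _ = 4 * C * (1 / 4) ^ j := by
          have e4 : ((2 : ℝ) ^ j) ^ 4 = 4 ^ j * 4 ^ j := by
            rw [← pow_mul, ← mul_pow, mul_comm j 4, pow_mul]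
            norm_num
          rw [e4, pow_succ, one_div, inv_pow]
          field_simp
  have h3 : ∑ j ∈ range J, ∫ s in s₀..(s₀ + 1 / 2), (4 : ℝ) ^ (j + 1) * (if 4 * 2 ^ j ≤ Fh H s then (1 : ℝ) else 0) ≤ 8 * C := by
    refine (sum_le_sum h2).trans ?_
    rw [← mul_sum]
    have := (summable_geometric_of_lt_one (show (0 : ℝ) ≤ 1 / 4 by norm_num) (by norm_num)).sum_le_tsum (range J)
      (fun j _ => by positivity)
    rw [tsum_geometric_of_lt_one (by norm_num) (by norm_num)] at this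
    norm_num at this ⊢
    nlinarith
  rw [intervalIntegral.integral_const, smul_eq_mul]
  linarith

theorem sq_ii {H : ℝ → ℝ} (hW : Win H) {a b : ℝ} (ha : 0 ≤ a) (hab : a ≤ b) :
    IntervalIntegrable (fun s => (Fh H s) ^ 2) volume a b := by
  apply ii_of_bdd ((Fh_meas hW.meas).pow_const 2) hab (C := (2 * b) ^ 2)
  intro x h1 h2
  rw [abs_pow, abs_of_nonneg (Fh_nn hW (by linarith))]
  apply pow_le_pow_left₀ (Fh_nn hW (by linarith))
  exact (Fh_triv hW (by linarith)).trans (by linarith)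

theorem mom2 {H : ℝ → ℝ} (hW : Win H) : ∃ C : ℝ, 0 < C ∧ ∀ A B : ℝ, 0 ≤ A → A ≤ B →
    ∫ s in A..B, (Fh H s) ^ 2 ≤ C * (B - A + 1) := by
  obtain ⟨C, S₀, hC, hS₀, h⟩ := mom1 hW
  obtain ⟨C', hC'⟩ : ∃ C', C' = C + (2 * S₀ + 1) ^ 2 := ⟨_, rfl⟩
  have hC'0 : 0 < C' := by rw [hC']; positivity
  have hhalf : ∀ A : ℝ, 0 ≤ A → ∫ s in A..(A + 1 / 2), (Fh H s) ^ 2 ≤ C' := by
    intro A hA
    rcases le_or_gt S₀ A with hc | hc
    · have := h A hc
      rw [hC']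
      have : 0 ≤ (2 * S₀ + 1) ^ 2 := by positivity
      linarith
    · have h1 : ∫ s in A..(A + 1 / 2), (Fh H s) ^ 2 ≤ ∫ s in A..(A + 1 / 2), (2 * S₀ + 1) ^ 2 := by
        apply intervalIntegral.integral_mono_on (by linarith) (sq_ii hW hA (by linarith)) intervalIntegrable_const
        intro s hs
        apply pow_le_pow_left₀ (Fh_nn hW (by linarith [hs.1]))
        exact (Fh_triv hW (by linarith [hs.1])).trans (by linarith [hs.2])
      rw [intervalIntegral.integral_const, smul_eq_mul, add_sub_cancel_left] at h1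
      rw [hC']
      have : 0 ≤ (2 * S₀ + 1) ^ 2 := by positivity
      linarith
  have hk : ∀ k : ℕ, ∀ A : ℝ, 0 ≤ A → ∫ s in A..(A + k / 2), (Fh H s) ^ 2 ≤ C' * k := by
    intro k
    induction k with
    | zero => intro A _; simp
    | succ k ih =>
      intro A hA
      have hk0 : (0 : ℝ) ≤ (k : ℝ) / 2 := by positivity
      have e1 : A + ((k + 1 : ℕ) : ℝ) / 2 = (A + k / 2) + 1 / 2 := by push_cast; ring
      rw [e1, ← intervalIntegral.integral_add_adjacent_intervals (sq_ii hW hA (show A ≤ A + k / 2 by linarith))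
        (sq_ii hW (show 0 ≤ A + k / 2 by linarith) (by linarith))]
      have := ih A hA
      have := hhalf (A + k / 2) (by linarith)
      push_cast
      linarith
  refine ⟨2 * C', by positivity, fun A B hA hAB => ?_⟩
  obtain ⟨k, hkd⟩ : ∃ k : ℕ, k = ⌈2 * (B - A)⌉₊ := ⟨_, rfl⟩
  have k1 : 2 * (B - A) ≤ k := by rw [hkd]; exact Nat.le_ceil _
  have k2 : (k : ℝ) < 2 * (B - A) + 1 := by rw [hkd]; exact Nat.ceil_lt_add_one (by linarith)
  have h1 : ∫ s in A..B, (Fh H s) ^ 2 ≤ ∫ s in A..(A + k / 2), (Fh H s) ^ 2 := by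
    rw [← intervalIntegral.integral_add_adjacent_intervals (sq_ii hW hA hAB) (sq_ii hW (show 0 ≤ B by linarith)
      (show B ≤ A + k / 2 by linarith))]
    have : 0 ≤ ∫ s in B..(A + k / 2), (Fh H s) ^ 2 :=
      intervalIntegral.integral_nonneg (by linarith) fun s _ => by positivity
    linarith
  refine h1.trans ((hk k A hA).trans ?_)
  have : (k : ℝ) ≤ 2 * (B - A) + 1 := k2.le
  nlinarith

/-- the second moment in the parameter `u` -/
theorem mom {H : ℝ → ℝ} (hW : Win H) {α : ℝ} (hα : 0 ≤ α) : ∃ C : ℝ, 0 < C ∧ ∀ k β : ℝ, 1 ≤ k → 0 ≤ β →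
    ∫ u in α..(α + 1), (Fh H (k * u + β)) ^ 2 ≤ C := by
  obtain ⟨C, hC, h⟩ := mom2 hW
  refine ⟨2 * C, by positivity, fun k β hk hβ => ?_⟩
  have hk0 : 0 < k := by linarith
  rw [intervalIntegral.integral_comp_mul_add (fun s => (Fh H s) ^ 2) hk0.ne', smul_eq_mul]
  have h1 := h (k * α + β) (k * (α + 1) + β) (by positivity) (by nlinarith)
  have e1 : k * (α + 1) + β - (k * α + β) + 1 = k + 1 := by ring
  rw [e1] at h1
  rw [inv_mul_le_iff₀ hk0]
  nlinarith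

end Pool.Agent.H40E9.GP
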